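import Pool.Agent.H25.AFK.Law
import Pool.Agent.H91.NVA.Rel
import Pool.Agent.H91.NVA.Vel
import Pool.Agent.H71.GEN.Vel

/-!
# Polynomials in the natural coordinates

`psh`: a polynomial of the first three places in the natural coordinates over two affine labels.
`ndir`: the natural coordinates of a direction. `jet_psh`: jets along lines. `pd_psh0`, `pd_psh1`:
vertical derivatives.
-/

set_option autoImplicit false

namespace Pool.AFK25

open Finset Real MvPolynomial
open Pool.Agent.H49.Ent Pool.Agent.H32.Dense Pool.STK Pool.KA Pool.KSAT Pool.K2S Pool.PB Pool.S6C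
open Pool.GEN hiding dv
open Pool.CHT Pool.ISO Pool.D2R Pool.NV24
open Pool.NVA91 (pc_pd aff_ev pc_dep pc_sub sum_pc1 sum_pc2 nco_pt)
open Pool.LA91 (jet lp eval_alp)

variable {m J : ℕ}

/-- The time. -/
noncomputable def ra (w : ℕ) (τ : ℝ) : P4 := C (1 / 2 ^ w) * (X none + C τ)

/-- The place `0`. -/
noncomputable def rb (w : ℕ) : P4 := C (1 / 2 ^ w) * X (some 0)

/-- The first coordinates. -/
noncomputable def sa (w : ℕ) (τ : ℝ) : Option (Fin m) → P4
  | none => ra w τ
  | some _ => rb w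

/-- The place `1`. -/
noncomputable def rU (w g1 : ℕ) (τ : ℝ) (U : MvPolynomial (Option (Fin m)) ℝ) : P4 :=
  C (1 / 2 ^ g1) * X (vt 0) + aeval (sa w τ) U

open Classical in
/-- The first coordinates and the place `1`. -/
noncomputable def sb (c : ℕ → Fin m) (w g1 : ℕ) (τ : ℝ) (U : MvPolynomial (Option (Fin m)) ℝ) :
    Option (Fin m) → P4
  | none => ra w τ
  | some k => if k = c 1 then rU w g1 τ U else rb w

/-- The place `2`. -/
noncomputable def rV (c : ℕ → Fin m) (w g1 g2 : ℕ) (τ : ℝ)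
    (U V : MvPolynomial (Option (Fin m)) ℝ) : P4 :=
  C (1 / 2 ^ g2) * X (vt 1) + aeval (sb c w g1 τ U) V

open Classical in
/-- The old coordinates in terms of the natural ones. -/
noncomputable def sc (c : ℕ → Fin m) (w g1 g2 : ℕ) (τ : ℝ)
    (U V : MvPolynomial (Option (Fin m)) ℝ) : Option (Fin m) → P4
  | none => ra w τ
  | some k => if k = c 1 then rU w g1 τ U else if k = c 2 then rV c w g1 g2 τ U V else rb w

/-- **A polynomial of the first three places** in the natural coordinates. -/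
noncomputable def psh (c : ℕ → Fin m) (w g1 g2 : ℕ) (τ : ℝ)
    (U V : MvPolynomial (Option (Fin m)) ℝ) (Q : MvPolynomial (Option (Fin m)) ℝ) : P4 :=
  aeval (sc c w g1 g2 τ U V) Q

theorem psh_sub (c : ℕ → Fin m) (w g1 g2 : ℕ) (τ : ℝ)
    (U V : MvPolynomial (Option (Fin m)) ℝ) (Q Q' : MvPolynomial (Option (Fin m)) ℝ) :
    psh c w g1 g2 τ U V (Q - Q') = psh c w g1 g2 τ U V Q - psh c w g1 g2 τ U V Q' := by
  unfold psh
  rw [map_sub]

theorem nes {c : ℕ → Fin m} (hc : Set.InjOn c (Set.Iio 3)) : c 0 ≠ c 1 ∧ c 0 ≠ c 2 ∧ c 1 ≠ c 2 := by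
  refine ⟨fun h => ?_, fun h => ?_, fun h => ?_⟩
  · have := hc (Set.mem_Iio.2 (show 0 < 3 by norm_num)) (Set.mem_Iio.2 (show 1 < 3 by norm_num)) h
    omega
  · have := hc (Set.mem_Iio.2 (show 0 < 3 by norm_num)) (Set.mem_Iio.2 (show 2 < 3 by norm_num)) h
    omega
  · have := hc (Set.mem_Iio.2 (show 1 < 3 by norm_num)) (Set.mem_Iio.2 (show 2 < 3 by norm_num)) h
    omega

/-- **The values.** -/
theorem eval_psh {c : ℕ → Fin m} (hc : Set.InjOn c (Set.Iio 3)) (w g1 g2 : ℕ) (τ : ℝ)
    {U V Q : MvPolynomial (Option (Fin m)) ℝ} (hU : DepC c 1 U) (hV : DepC c 2 V)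
    (hQ : DepC c 3 Q) (b : Option (Fin m) → ℝ) :
    eval (nco c w g1 g2 τ U V b) (psh c w g1 g2 τ U V Q) = eval b Q := by
  classical
  obtain ⟨n01, n02, n12⟩ := nes hc
  obtain ⟨ξ, hξ⟩ : ∃ ξ, ξ = nco c w g1 g2 τ U V b := ⟨_, rfl⟩
  have x0 : ξ none = 2 ^ w * b none - τ := by rw [hξ]; rfl
  have x1 : ξ (some 0) = 2 ^ w * b (some (c 0)) := by rw [hξ]; rfl
  have x2 : ξ (vt 0) = 2 ^ g1 * (b (some (c 1)) - eval b U) := by rw [hξ]; rfl
  have x3 : ξ (vt 1) = 2 ^ g2 * (b (some (c 2)) - eval b V) := by rw [hξ]; rfl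
  rw [← hξ]
  have ea : eval ξ (ra w τ) = b none := by
    unfold ra
    rw [map_mul, map_add, eval_C, eval_C, eval_X, x0]
    field_simp
    ring
  have eb : eval ξ (rb w) = b (some (c 0)) := by
    unfold rb
    rw [map_mul, eval_C, eval_X, x1]
    field_simp
  have eU : eval ξ (rU w g1 τ U) = b (some (c 1)) := by
    unfold rU
    rw [map_add, map_mul, eval_C, eval_X, x2, eval_aevalσ]
    have e1 : eval (fun i => eval ξ (sa w τ i)) U = eval b U := by
      refine hU _ _ ea fun l hl => ?_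
      have : l = 0 := by omega
      rw [this]
      exact eb
    rw [e1]
    field_simp
    ring
  have eV : eval ξ (rV c w g1 g2 τ U V) = b (some (c 2)) := by
    unfold rV
    rw [map_add, map_mul, eval_C, eval_X, x3, eval_aevalσ]
    have e1 : eval (fun i => eval ξ (sb c w g1 τ U i)) V = eval b V := by
      refine hV _ _ ea fun l hl => ?_
      have : l = 0 ∨ l = 1 := by omega
      rcases this with rfl | rfl
      · show eval ξ (if c 0 = c 1 then _ else _) = _
        rw [if_neg n01]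
        exact eb
      · show eval ξ (if c 1 = c 1 then _ else _) = _
        rw [if_pos rfl]
        exact eU
    rw [e1]
    field_simp
    ring
  unfold psh
  rw [eval_aevalσ]
  refine hQ _ _ ea fun l hl => ?_
  have : l = 0 ∨ l = 1 ∨ l = 2 := by omega
  rcases this with rfl | rfl | rfl
  · show eval ξ (if c 0 = c 1 then _ else if c 0 = c 2 then _ else _) = _
    rw [if_neg n01, if_neg n02]
    exact eb
  · show eval ξ (if c 1 = c 1 then _ else if c 1 = c 2 then _ else _) = _
    rw [if_pos rfl]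
    exact eU
  · show eval ξ (if c 2 = c 1 then _ else if c 2 = c 2 then _ else _) = _
    rw [if_neg n12.symm, if_pos rfl]
    exact eV

/-- The degree. -/
theorem deg_psh {c : ℕ → Fin m} {w g1 g2 : ℕ} {τ : ℝ} {U V Q : MvPolynomial (Option (Fin m)) ℝ}
    {D : ℕ} (hU : U.totalDegree ≤ 1) (hV : V.totalDegree ≤ 1) (hQ : Q.totalDegree ≤ D) :
    (psh c w g1 g2 τ U V Q).totalDegree ≤ D := by
  classical
  have da : (ra w τ).totalDegree ≤ 1 := by
    unfold ra
    refine (totalDegree_mul _ _).trans ?_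
    rw [totalDegree_C, zero_add]
    refine (totalDegree_add _ _).trans (max_le ?_ ?_)
    · rw [totalDegree_X]
    · rw [totalDegree_C]
      omega
  have db : (rb w).totalDegree ≤ 1 := by
    unfold rb
    refine (totalDegree_mul _ _).trans ?_
    rw [totalDegree_C, zero_add, totalDegree_X]
  have dU : (rU w g1 τ U).totalDegree ≤ 1 := by
    unfold rU
    refine (totalDegree_add _ _).trans (max_le ?_ ?_)
    · refine (totalDegree_mul _ _).trans ?_
      rw [totalDegree_C, zero_add, totalDegree_X]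
    · refine (totalDegree_aevalσ (d := 1) (fun o => ?_) hU).trans (by norm_num)
      rcases o with _ | k
      · exact da
      · exact db
  have dV : (rV c w g1 g2 τ U V).totalDegree ≤ 1 := by
    unfold rV
    refine (totalDegree_add _ _).trans (max_le ?_ ?_)
    · refine (totalDegree_mul _ _).trans ?_
      rw [totalDegree_C, zero_add, totalDegree_X]
    · refine (totalDegree_aevalσ (d := 1) (fun o => ?_) hV).trans (by norm_num)
      rcases o with _ | k
      · exact da
      · show (if k = c 1 then _ else _ : P4).totalDegree ≤ 1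
        split_ifs
        · exact dU
        · exact db
  have h := totalDegree_aevalσ (g := sc c w g1 g2 τ U V) (d := 1) (fun o => by
    rcases o with _ | k
    · exact da
    · show (if k = c 1 then _ else if k = c 2 then _ else _ : P4).totalDegree ≤ 1
      split_ifs
      · exact dU
      · exact dV
      · exact db) hQ
  rwa [one_mul] at h

/-! ### Directions -/

/-- **The natural coordinates of a direction.** -/
noncomputable def ndir (c : ℕ → Fin m) (w g1 g2 : ℕ) (U V : MvPolynomial (Option (Fin m)) ℝ)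
    (v : Option (Fin m) → ℝ) : V4 :=
  vec (2 ^ w * v none) (2 ^ w * v (some (c 0)))
    ![2 ^ g1 * (v (some (c 1)) - ∑ o, v o * pc U o), 2 ^ g2 * (v (some (c 2)) - ∑ o, v o * pc V o)]

theorem nco_add {c : ℕ → Fin m} {w g1 g2 : ℕ} {τ : ℝ} {U V : MvPolynomial (Option (Fin m)) ℝ}
    (hU : U.totalDegree ≤ 1) (hV : V.totalDegree ≤ 1) (b v : Option (Fin m) → ℝ) (t : ℝ) :
    nco c w g1 g2 τ U V (fun o => b o + t * v o) =
      fun o => nco c w g1 g2 τ U V b o + t * ndir c w g1 g2 U V v o := by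
  have key : ∀ W : MvPolynomial (Option (Fin m)) ℝ, W.totalDegree ≤ 1 →
      eval (fun o => b o + t * v o) W = eval b W + t * ∑ o, v o * pc W o := by
    intro W hW
    have h1 := aff_ev hW b (fun o => b o + t * v o)
    rw [Finset.mul_sum]
    have h2 : ∀ o ∈ (Finset.univ : Finset (Option (Fin m))), (b o + t * v o - b o) * pc W o =
        t * (v o * pc W o) := fun o _ => by ring
    rw [Finset.sum_congr rfl h2] at h1
    linarith
  refine vec_ext ?_ ?_ fun j => ?_
  · show 2 ^ w * (b none + t * v none) - τ = (2 ^ w * b none - τ) + t * (2 ^ w * v none)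
    ring
  · show 2 ^ w * (b (some (c 0)) + t * v (some (c 0))) =
      2 ^ w * b (some (c 0)) + t * (2 ^ w * v (some (c 0)))
    ring
  · fin_cases j
    · show 2 ^ g1 * (b (some (c 1)) + t * v (some (c 1)) - eval (fun o => b o + t * v o) U) =
        2 ^ g1 * (b (some (c 1)) - eval b U) +
          t * (2 ^ g1 * (v (some (c 1)) - ∑ o, v o * pc U o))
      rw [key U hU]
      ring
    · show 2 ^ g2 * (b (some (c 2)) + t * v (some (c 2)) - eval (fun o => b o + t * v o) V) =
        2 ^ g2 * (b (some (c 2)) - eval b V) +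
          t * (2 ^ g2 * (v (some (c 2)) - ∑ o, v o * pc V o))
      rw [key V hV]
      ring

/-- The direction of a line, with the time component one. -/
theorem ndir_one {c : ℕ → Fin m} {w g1 g2 : ℕ} {U V : MvPolynomial (Option (Fin m)) ℝ}
    {v : Option (Fin m) → ℝ} (hv : v none = 1) :
    ndir c w g1 g2 U V v = fun o => 2 ^ w * vec 1 (v (some (c 0))) (Ddn w g1 g2 c U V v) o := by
  have hw : (0 : ℝ) < 2 ^ w := by positivity
  refine vec_ext ?_ ?_ fun j => ?_
  · show 2 ^ w * v none = 2 ^ w * 1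
    rw [hv]
  · rfl
  · fin_cases j
    · show 2 ^ g1 * (v (some (c 1)) - ∑ o, v o * pc U o) =
        2 ^ w * (2 ^ g1 / 2 ^ w * (v (some (c 1)) - ∑ o, v o * pc U o))
      field_simp
    · show 2 ^ g2 * (v (some (c 2)) - ∑ o, v o * pc V o) =
        2 ^ w * (2 ^ g2 / 2 ^ w * (v (some (c 2)) - ∑ o, v o * pc V o))
      field_simp

/-- **Jets along lines.** -/
theorem jet_psh {c : ℕ → Fin m} (hc : Set.InjOn c (Set.Iio 3)) (w g1 g2 : ℕ) (τ : ℝ)
    {U V Q : MvPolynomial (Option (Fin m)) ℝ} (hU : DepC c 1 U) (hV : DepC c 2 V)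
    (hQ : DepC c 3 Q) (dU : U.totalDegree ≤ 1) (dV : V.totalDegree ≤ 1) (n : ℕ)
    (b v : Option (Fin m) → ℝ) :
    jet n Q b v = eval (nco c w g1 g2 τ U V b)
      ((dv (ndir c w g1 g2 U V v))^[n] (psh c w g1 g2 τ U V Q)) := by
  rw [← jet_dv]
  have e : aeval (lp b v) Q =
      aeval (lp (nco c w g1 g2 τ U V b) (ndir c w g1 g2 U V v)) (psh c w g1 g2 τ U V Q) := by
    refine Polynomial.funext fun t => ?_
    rw [eval_alp, eval_alp, ← nco_add dU dV, eval_psh hc w g1 g2 τ hU hV hQ]
  unfold jet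
  rw [e]

theorem dv_sc (a : ℝ) (s : V4) (Q : P4) : dv (fun o => a * s o) Q = C a * dv s Q := by
  unfold dv
  rw [Finset.mul_sum]
  exact Finset.sum_congr rfl fun o _ => by
    rw [C_mul]
    ring

theorem dv_sc_iter (a : ℝ) (s : V4) (Q : P4) (n : ℕ) :
    (dv (fun o => a * s o))^[n] Q = C (a ^ n) * (dv s)^[n] Q := by
  induction n with
  | zero => simp
  | succ n ih =>
    rw [Function.iterate_succ_apply', ih, Function.iterate_succ_apply', dv_sc, dv_Cmul,
      pow_succ, C_mul]
    ring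

/-- **Jets along the lines of speed one.** -/
theorem jet_nat {c : ℕ → Fin m} (hc : Set.InjOn c (Set.Iio 3)) (w g1 g2 : ℕ) (τ : ℝ)
    {U V Q : MvPolynomial (Option (Fin m)) ℝ} (hU : DepC c 1 U) (hV : DepC c 2 V)
    (hQ : DepC c 3 Q) (dU : U.totalDegree ≤ 1) (dV : V.totalDegree ≤ 1) (n : ℕ)
    (b v : Option (Fin m) → ℝ) (hv : v none = 1) :
    jet n Q b v = (2 ^ w) ^ n * eval (nco c w g1 g2 τ U V b)
      ((dv (vec 1 (v (some (c 0))) (Ddn w g1 g2 c U V v)))^[n] (psh c w g1 g2 τ U V Q)) := by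
  rw [jet_psh hc w g1 g2 τ hU hV hQ dU dV, ndir_one hv, dv_sc_iter, map_mul, eval_C]

/-- The first jet. -/
theorem jet_one (G : MvPolynomial (Option (Fin m)) ℝ) (b v : Option (Fin m) → ℝ) :
    jet 1 G b v = ∑ o, v o * eval b (pderiv o G) := by
  classical
  unfold jet
  rw [Function.iterate_one, der_aevalσ, Polynomial.eval_finsetSum]
  refine Finset.sum_congr rfl fun o _ => ?_
  rw [Polynomial.eval_mul, eval_alp]
  have e1 : (fun o => b o + 0 * v o) = b := by
    funext o
    ring
  rw [e1]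
  unfold Pool.LA91.lp
  simp
  ring

/-- The derivatives of a polynomial of the first places. -/
theorem dep_jet {c : ℕ → Fin m} {Q : MvPolynomial (Option (Fin m)) ℝ} (hQ : DepC c 3 Q)
    (b v v' : Option (Fin m) → ℝ) (h0 : v none = v' none)
    (h1 : ∀ l < 3, v (some (c l)) = v' (some (c l))) : jet 1 Q b v = jet 1 Q b v' := by
  have e : aeval (lp b v) Q = aeval (lp b v') Q := by
    refine Polynomial.funext fun t => ?_
    rw [eval_alp, eval_alp]
    refine hQ _ _ (by simp only [h0]) fun l hl => ?_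
    simp only [h1 l hl]
  unfold jet
  rw [e]

/-- **The vertical derivative in the direction of the place `2`.** -/
theorem pd_psh1 {c : ℕ → Fin m} (hc : Set.InjOn c (Set.Iio 3)) (w g1 g2 : ℕ) (τ : ℝ)
    {U V Q : MvPolynomial (Option (Fin m)) ℝ} (hU : DepC c 1 U) (hV : DepC c 2 V)
    (hQ : DepC c 3 Q) (dU : U.totalDegree ≤ 1) (dV : V.totalDegree ≤ 1)
    (b : Option (Fin m) → ℝ) :
    2 ^ g2 * eval (nco c w g1 g2 τ U V b) (pderiv (vt 1) (psh c w g1 g2 τ U V Q)) =
      eval b (pderiv (some (c 2)) Q) := by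
  classical
  obtain ⟨n01, n02, n12⟩ := nes hc
  obtain ⟨v, hv⟩ : ∃ v : Option (Fin m) → ℝ, v = Pi.single (some (c 2)) 1 := ⟨_, rfl⟩
  have v2 : v (some (c 2)) = 1 := by rw [hv, Pi.single_eq_same]
  have v1 : v (some (c 1)) = 0 := by
    rw [hv, Pi.single_eq_of_ne]
    simpa using n12
  have v0 : v (some (c 0)) = 0 := by
    rw [hv, Pi.single_eq_of_ne]
    simpa using n02
  have vn : v none = 0 := by
    rw [hv, Pi.single_eq_of_ne]
    simp
  have sU : ∑ o, v o * pc U o = 0 := by rw [sum_pc1 dU hU, vn, v0]; ring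
  have sV : ∑ o, v o * pc V o = 0 := by rw [sum_pc2 n01 dV hV, vn, v0, v1]; ring
  have e1 : jet 1 Q b v = eval b (pderiv (some (c 2)) Q) := by
    rw [jet_one, Finset.sum_eq_single (some (c 2))]
    · rw [v2, one_mul]
    · intro o _ ho
      rw [hv, Pi.single_eq_of_ne ho, zero_mul]
    · intro h
      exact (h (mem_univ _)).elim
  have e2 := jet_psh hc w g1 g2 τ hU hV hQ dU dV 1 b v
  rw [Function.iterate_one] at e2
  have e3 : ndir c w g1 g2 U V v = vec 0 0 ![0, 2 ^ g2] := by
    unfold ndir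
    rw [vn, v0, v1, v2, sU, sV]
    congr 1
    · ring
    · ring
    · funext j
      fin_cases j
      · show (2 : ℝ) ^ g1 * (0 - 0) = 0
        ring
      · show (2 : ℝ) ^ g2 * (1 - 0) = 2 ^ g2
        ring
  rw [e3, dv_vec] at e2
  rw [← e1, e2]
  simp only [C_0, zero_mul, zero_add, Fin.sum_univ_two, map_mul, eval_C, map_add]
  show _ = 0 * _ + 2 ^ g2 * _
  ring

/-- **The vertical derivative in the direction of the place `1`.** -/
theorem pd_psh0 {c : ℕ → Fin m} (hc : Set.InjOn c (Set.Iio 3)) (w g1 g2 : ℕ) (τ : ℝ)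
    {U V Q : MvPolynomial (Option (Fin m)) ℝ} (hU : DepC c 1 U) (hV : DepC c 2 V)
    (hQ : DepC c 3 Q) (dU : U.totalDegree ≤ 1) (dV : V.totalDegree ≤ 1)
    (b : Option (Fin m) → ℝ) :
    2 ^ g1 * eval (nco c w g1 g2 τ U V b) (pderiv (vt 0) (psh c w g1 g2 τ U V Q)) =
      eval b (pderiv (some (c 1)) Q) + pc V (some (c 1)) * eval b (pderiv (some (c 2)) Q) := by
  classical
  obtain ⟨n01, n02, n12⟩ := nes hc
  obtain ⟨v, hv⟩ : ∃ v : Option (Fin m) → ℝ,
    v = Pi.single (some (c 1)) 1 + Pi.single (some (c 2)) (pc V (some (c 1))) := ⟨_, rfl⟩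
  have v2 : v (some (c 2)) = pc V (some (c 1)) := by
    rw [hv, Pi.add_apply, Pi.single_eq_same, Pi.single_eq_of_ne, zero_add]
    simpa using n12.symm
  have v1 : v (some (c 1)) = 1 := by
    rw [hv, Pi.add_apply, Pi.single_eq_same, Pi.single_eq_of_ne, add_zero]
    simpa using n12
  have v0 : v (some (c 0)) = 0 := by
    rw [hv, Pi.add_apply, Pi.single_eq_of_ne, Pi.single_eq_of_ne, add_zero]
    · simpa using n02
    · simpa using n01
  have vn : v none = 0 := by
    rw [hv, Pi.add_apply, Pi.single_eq_of_ne, Pi.single_eq_of_ne, add_zero]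
    · simp
    · simp
  have sU : ∑ o, v o * pc U o = 0 := by rw [sum_pc1 dU hU, vn, v0]; ring
  have sV : ∑ o, v o * pc V o = pc V (some (c 1)) := by
    rw [sum_pc2 n01 dV hV, vn, v0, v1]; ring
  have e1 : jet 1 Q b v = eval b (pderiv (some (c 1)) Q) +
      pc V (some (c 1)) * eval b (pderiv (some (c 2)) Q) := by
    rw [jet_one, hv]
    simp only [Pi.add_apply, add_mul, Finset.sum_add_distrib]
    congr 1
    · rw [Finset.sum_eq_single (some (c 1))]
      · rw [Pi.single_eq_same, one_mul]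
      · intro o _ ho
        rw [Pi.single_eq_of_ne ho, zero_mul]
      · intro h
        exact (h (mem_univ _)).elim
    · rw [Finset.sum_eq_single (some (c 2))]
      · rw [Pi.single_eq_same]
      · intro o _ ho
        rw [Pi.single_eq_of_ne ho, zero_mul]
      · intro h
        exact (h (mem_univ _)).elim
  have e2 := jet_psh hc w g1 g2 τ hU hV hQ dU dV 1 b v
  rw [Function.iterate_one] at e2
  have e3 : ndir c w g1 g2 U V v = vec 0 0 ![2 ^ g1, 0] := by
    unfold ndir
    rw [vn, v0, v1, v2, sU, sV]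
    congr 1
    · ring
    · ring
    · funext j
      fin_cases j
      · show (2 : ℝ) ^ g1 * (1 - 0) = 2 ^ g1
        ring
      · show (2 : ℝ) ^ g2 * (pc V (some (c 1)) - pc V (some (c 1))) = 0
        ring
  rw [e3, dv_vec] at e2
  rw [← e1, e2]
  simp only [C_0, zero_mul, zero_add, Fin.sum_univ_two, map_mul, eval_C, map_add]
  show _ = 2 ^ g1 * _ + 0 * _
  ring

end Pool.AFK25
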