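import Pool.Agent.H24.NV.Dv

/-!
# Polynomials which are affine in the horizontal coordinates and flat in the vertical ones

`three_q`: a quadratic polynomial with small values at three separated points. `hor_two`: the
horizontal part of the second derivative in a direction. `bx_aff`: a polynomial with small vertical
derivatives and small horizontal second derivatives on a box is near its horizontal linear part.
-/

set_option autoImplicit false

namespace Pool.AFK25

open Finset Real MvPolynomial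
open Pool.NV24
open Pool.LA91 (jet natDegree_alp eval_alp lp)

/-- **Three values.** -/
theorem three_q {A B C β R : ℝ} {c : Fin 3 → ℝ} (hβ : 0 < β) (hβ1 : β ≤ 1) (hR : 0 ≤ R)
    (hc : ∀ i, |c i| ≤ 1) (hs : ∀ i j, i ≠ j → β ≤ |c i - c j|)
    (h : ∀ i, |A + 2 * c i * B + c i ^ 2 * C| ≤ R) :
    |A| ≤ 12 * R / β ^ 2 ∧ |B| ≤ 4 * R / β ^ 2 ∧ |C| ≤ 3 * R / β ^ 2 := by
  have hb2 : 0 < β ^ 2 := by positivity
  have hbb : β ^ 2 ≤ β := by nlinarith
  have hbb1 : β ^ 2 ≤ 1 := by nlinarith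
  obtain ⟨a, ha⟩ : ∃ a, a = c 0 := ⟨_, rfl⟩
  obtain ⟨b, hb⟩ : ∃ b, b = c 1 := ⟨_, rfl⟩
  obtain ⟨d, hd⟩ : ∃ d, d = c 2 := ⟨_, rfl⟩
  have s01 : β ≤ |a - b| := by rw [ha, hb]; exact hs 0 1 (by decide)
  have s02 : β ≤ |a - d| := by rw [ha, hd]; exact hs 0 2 (by decide)
  have s12 : β ≤ |b - d| := by rw [hb, hd]; exact hs 1 2 (by decide)
  have h0 := h 0
  have h1 := h 1
  have h2 := h 2
  rw [← ha] at h0
  rw [← hb] at h1
  rw [← hd] at h2
  have c0 := hc 0
  have c1 := hc 1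
  rw [← ha] at c0
  rw [← hb] at c1
  have n01 : a - b ≠ 0 := fun h3 => by
    rw [h3, abs_zero] at s01
    linarith
  have n02 : a - d ≠ 0 := fun h3 => by
    rw [h3, abs_zero] at s02
    linarith
  have n12 : b - d ≠ 0 := fun h3 => by
    rw [h3, abs_zero] at s12
    linarith
  obtain ⟨F0, hF0⟩ : ∃ F0, F0 = A + 2 * a * B + a ^ 2 * C := ⟨_, rfl⟩
  obtain ⟨F1, hF1⟩ : ∃ F1, F1 = A + 2 * b * B + b ^ 2 * C := ⟨_, rfl⟩
  obtain ⟨F2, hF2⟩ : ∃ F2, F2 = A + 2 * d * B + d ^ 2 * C := ⟨_, rfl⟩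
  rw [← hF0] at h0
  rw [← hF1] at h1
  rw [← hF2] at h2
  -- the leading coefficient
  have eC : C = F0 / ((a - b) * (a - d)) - F1 / ((a - b) * (b - d)) +
      F2 / ((a - d) * (b - d)) := by
    rw [hF0, hF1, hF2]
    field_simp
    ring
  have hq : ∀ {x y f : ℝ}, β ≤ |x| → β ≤ |y| → |f| ≤ R → |f / (x * y)| ≤ R / β ^ 2 := by
    intro x y f hx hy hf
    rw [abs_div, abs_mul]
    refine div_le_div₀ hR hf hb2 ?_
    rw [pow_two]
    exact mul_le_mul hx hy hβ.le (abs_nonneg _)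
  have hC : |C| ≤ 3 * R / β ^ 2 := by
    have k1 := abs_le.1 (hq s01 s02 h0)
    have k2 := abs_le.1 (hq s01 s12 h1)
    have k3 := abs_le.1 (hq s02 s12 h2)
    have e1 : 3 * R / β ^ 2 = 3 * (R / β ^ 2) := by ring
    rw [e1, eC, abs_le]
    constructor <;> linarith [k1.1, k1.2, k2.1, k2.2, k3.1, k3.2]
  have hRb : R / β ≤ R / β ^ 2 := div_le_div_of_nonneg_left hR hb2 hbb
  have hR1 : R ≤ R / β ^ 2 := by
    rw [le_div_iff₀ hb2]
    nlinarith
  have eB : 2 * B = (F0 - F1) / (a - b) - C * (a + b) := by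
    rw [hF0, hF1]
    field_simp
    ring
  have hB : |B| ≤ 4 * R / β ^ 2 := by
    have k1 : |(F0 - F1) / (a - b)| ≤ 2 * (R / β) := by
      rw [abs_div]
      have k2 : |F0 - F1| ≤ 2 * R := by
        rw [abs_le] at h0 h1 ⊢
        constructor <;> linarith [h0.1, h0.2, h1.1, h1.2]
      calc |F0 - F1| / |a - b| ≤ 2 * R / β := div_le_div₀ (by linarith) k2 hβ s01
        _ = 2 * (R / β) := by ring
    have k2 : |C * (a + b)| ≤ 2 * |C| := by
      rw [abs_mul, mul_comm]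
      refine mul_le_mul_of_nonneg_right ?_ (abs_nonneg _)
      exact (abs_add_le _ _).trans (by linarith)
    have k3 : |2 * B| ≤ 2 * (R / β) + 2 * |C| := by
      rw [eB]
      exact (abs_sub _ _).trans (add_le_add k1 k2)
    rw [abs_mul, abs_of_pos (by norm_num : (0 : ℝ) < 2)] at k3
    have e1 : 4 * R / β ^ 2 = R / β ^ 2 + 3 * R / β ^ 2 := by ring
    rw [e1]
    linarith
  refine ⟨?_, hB, hC⟩
  have k1 : |2 * a * B| ≤ 2 * |B| := by
    rw [abs_mul, abs_mul, abs_of_pos (by norm_num : (0 : ℝ) < 2)]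
    have := mul_le_mul_of_nonneg_right c0 (abs_nonneg B)
    linarith
  have k2 : |a ^ 2 * C| ≤ |C| := by
    rw [abs_mul, abs_pow]
    have k4 : |a| ^ 2 ≤ 1 := pow_le_one₀ (abs_nonneg _) c0
    have := mul_le_mul_of_nonneg_right k4 (abs_nonneg C)
    linarith
  have e1 : A = F0 - 2 * a * B - a ^ 2 * C := by rw [hF0]; ring
  have e2 : 12 * R / β ^ 2 = R / β ^ 2 + 8 * R / β ^ 2 + 3 * R / β ^ 2 := by ring
  have e3 : 2 * (4 * R / β ^ 2) = 8 * R / β ^ 2 := by ring
  rw [e2, e1]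
  have k3 : |F0 - 2 * a * B - a ^ 2 * C| ≤ |F0| + |2 * a * B| + |a ^ 2 * C| :=
    (abs_sub _ _).trans (add_le_add (abs_sub _ _) le_rfl)
  linarith

/-- The horizontal directions. -/
def hz (i : Fin 2) : Option (Fin 3) := if i = 0 then none else some 0

/-- **The second derivative along a direction**, the horizontal part. -/
theorem hor_two (D : ℕ) : ∃ C : ℝ, 1 ≤ C ∧ ∀ (q : P4) (F x : V4) (M R c : ℝ) (d : Fin 2 → ℝ),
    q.totalDegree ≤ D → 0 ≤ M → 1 ≤ R → |c| ≤ 1 → (∀ j, |d j| ≤ R) →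
    (∀ o, |x o - F o| ≤ 1) →
    (∀ b : V4, (∀ o, |b o - F o| ≤ 1) → ∀ j, |eval b (pderiv (vt j) q)| ≤ M) →
    |eval x (pderiv none (pderiv none q)) + 2 * c * eval x (pderiv none (pderiv (some 0) q)) +
      c ^ 2 * eval x (pderiv (some 0) (pderiv (some 0) q)) -
      eval x (dv (vec 1 c d) (dv (vec 1 c d) q))| ≤ C * R ^ 2 * M := by
  obtain ⟨C₁, hC₁, hmk⟩ := bx_pd D
  refine ⟨24 * C₁, by linarith, fun q F x M R c d hq hM hR hc hd hx hv => ?_⟩
  have hR0 : 0 ≤ R := by linarith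
  have hCM : 0 ≤ C₁ * M := by positivity
  have h1 : ∀ j o, |eval x (pderiv o (pderiv (vt j) q))| ≤ C₁ * M := fun j o =>
    hmk (pderiv (vt j) q) F M (pd_deg _ hq) (fun b hb => hv b hb j) x hx o
  -- the vertical part
  have h2 : dv (vec 1 c d) q = dv (vec 1 c 0) q + (C (d 0) * pderiv (vt 0) q +
      C (d 1) * pderiv (vt 1) q) := by
    rw [dv_vec, dv_vec]
    simp only [Fin.sum_univ_two, Pi.zero_apply, C_0, zero_mul, add_zero]
    ring
  have h3 : eval x (dv (vec 1 c d) (dv (vec 1 c d) q)) =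
      eval x (dv (vec 1 c 0) (dv (vec 1 c 0) q)) +
      2 * (d 0 * eval x (dv (vec 1 c 0) (pderiv (vt 0) q)) +
        d 1 * eval x (dv (vec 1 c 0) (pderiv (vt 1) q))) +
      (d 0 * (d 0 * eval x (pderiv (vt 0) (pderiv (vt 0) q)) +
        d 1 * eval x (pderiv (vt 1) (pderiv (vt 0) q))) +
       d 1 * (d 0 * eval x (pderiv (vt 0) (pderiv (vt 1) q)) +
        d 1 * eval x (pderiv (vt 1) (pderiv (vt 1) q)))) := by
    rw [h2, dv_add, dv_add, dv_Cmul, dv_Cmul]
    have e1 : ∀ Q : P4, dv (vec 1 c d) Q = dv (vec 1 c 0) Q + (C (d 0) * pderiv (vt 0) Q +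
        C (d 1) * pderiv (vt 1) Q) := fun Q => by
      rw [dv_vec, dv_vec]
      simp only [Fin.sum_univ_two, Pi.zero_apply, C_0, zero_mul, add_zero]
      ring
    rw [e1 (dv (vec 1 c 0) q), e1 (pderiv (vt 0) q), e1 (pderiv (vt 1) q),
      ← dv_pd (vec 1 c 0) (vt 0) q, ← dv_pd (vec 1 c 0) (vt 1) q]
    simp only [map_add, map_mul, eval_C]
    ring
  have h4 : eval x (dv (vec 1 c 0) (dv (vec 1 c 0) q)) = eval x (pderiv none (pderiv none q)) +
      2 * c * eval x (pderiv none (pderiv (some 0) q)) +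
      c ^ 2 * eval x (pderiv (some 0) (pderiv (some 0) q)) := by
    have e1 : ∀ Q : P4, dv (vec 1 c 0) Q = pderiv none Q + C c * pderiv (some 0) Q := fun Q => by
      rw [dv_vec]
      simp only [Pi.zero_apply, C_0, zero_mul, Finset.sum_const_zero, add_zero, C_1, one_mul]
    rw [e1 q, e1 (pderiv none q + C c * pderiv (some 0) q)]
    simp only [map_add, pderiv_C_mul, map_mul, eval_C]
    rw [pd_comm4 (some 0) none q]
    ring
  have h5 : ∀ j, |eval x (dv (vec 1 c 0) (pderiv (vt j) q))| ≤ 2 * (C₁ * M) := fun j => by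
    have e1 : dv (vec 1 c 0) (pderiv (vt j) q) = pderiv none (pderiv (vt j) q) +
        C c * pderiv (some 0) (pderiv (vt j) q) := by
      rw [dv_vec]
      simp only [Pi.zero_apply, C_0, zero_mul, Finset.sum_const_zero, add_zero, C_1, one_mul]
    rw [e1, map_add, map_mul, eval_C]
    have k1 := h1 j none
    have k2 := h1 j (some 0)
    have k3 : |c * eval x (pderiv (some 0) (pderiv (vt j) q))| ≤ C₁ * M := by
      rw [abs_mul]
      calc _ ≤ 1 * (C₁ * M) := mul_le_mul hc k2 (abs_nonneg _) zero_le_one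
        _ = _ := one_mul _
    exact (abs_add_le _ _).trans (by linarith)
  have hm : ∀ {u v a b : ℝ}, 0 ≤ a → |u| ≤ a → |v| ≤ b → |u * v| ≤ a * b := by
    intro u v a b ha hu hv'
    rw [abs_mul]
    exact mul_le_mul hu hv' (abs_nonneg _) ha
  have k1 := hm hR0 (hd 0) (h5 0)
  have k2 := hm hR0 (hd 1) (h5 1)
  have k3 : |d 0 * eval x (pderiv (vt 0) (pderiv (vt 0) q)) +
      d 1 * eval x (pderiv (vt 1) (pderiv (vt 0) q))| ≤ 2 * (R * (C₁ * M)) :=
    (abs_add_le _ _).trans (by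
      have a1 := hm hR0 (hd 0) (h1 0 (vt 0))
      have a2 := hm hR0 (hd 1) (h1 0 (vt 1))
      linarith)
  have k4 : |d 0 * eval x (pderiv (vt 0) (pderiv (vt 1) q)) +
      d 1 * eval x (pderiv (vt 1) (pderiv (vt 1) q))| ≤ 2 * (R * (C₁ * M)) :=
    (abs_add_le _ _).trans (by
      have a1 := hm hR0 (hd 0) (h1 1 (vt 0))
      have a2 := hm hR0 (hd 1) (h1 1 (vt 1))
      linarith)
  have k5 := hm hR0 (hd 0) k3
  have k6 := hm hR0 (hd 1) k4
  have hRR : R * (C₁ * M) ≤ R ^ 2 * (C₁ * M) := by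
    refine mul_le_mul_of_nonneg_right ?_ hCM
    nlinarith
  have e9 : 24 * C₁ * R ^ 2 * M = 24 * (R ^ 2 * (C₁ * M)) := by ring
  have e10 : R * (2 * (R * (C₁ * M))) = 2 * (R ^ 2 * (C₁ * M)) := by ring
  have e11 : R * (2 * (C₁ * M)) = 2 * (R * (C₁ * M)) := by ring
  rw [e10] at k5 k6
  rw [e11] at k1 k2
  rw [h3, h4, e9, abs_le]
  have hpos : 0 ≤ R ^ 2 * (C₁ * M) := by positivity
  have k1' := abs_le.1 k1
  have k2' := abs_le.1 k2
  have k5' := abs_le.1 k5
  have k6' := abs_le.1 k6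
  constructor <;> linarith [k1'.1, k1'.2, k2'.1, k2'.2, k5'.1, k5'.2, k6'.1, k6'.2]

/-- Iterated derivatives of a polynomial which is small on a box. -/
theorem bx_it (D : ℕ) : ∃ C₁ : ℝ, 1 ≤ C₁ ∧ ∀ (n : ℕ) (Q : P4) (F s : V4) (M : ℝ),
    Q.totalDegree ≤ D → 0 ≤ M → (∀ o, |s o| ≤ 1) →
    (∀ b : V4, (∀ o, |b o - F o| ≤ 1) → |eval b Q| ≤ M) →
    ∀ b : V4, (∀ o, |b o - F o| ≤ 1) → |eval b ((dv s)^[n] Q)| ≤ C₁ ^ n * M := by
  obtain ⟨C₁, hC₁, hmk⟩ := bx_pd D
  refine ⟨4 * C₁, by linarith, fun n => ?_⟩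
  induction n with
  | zero =>
    intro Q F s M _ _ _ h b hb
    rw [Function.iterate_zero_apply, pow_zero, one_mul]
    exact h b hb
  | succ n ih =>
    intro Q F s M hQ hM hs h b hb
    rw [Function.iterate_succ_apply]
    refine (ih (dv s Q) F s (4 * C₁ * M) (dv_deg s hQ) (by positivity) hs
      (fun b' hb' => ?_) b hb).trans (le_of_eq (by rw [pow_succ]; ring))
    have h1 := dv_le (Q := Q) (b := b') (s := s) (S := 1) (M := C₁ * M) zero_le_one hs
      fun o => hmk Q F M hQ h b' hb' o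
    linarith

/-- **The Taylor formula on a box**: small vertical derivatives and small horizontal second
derivatives. -/
theorem bx_aff (D : ℕ) : ∃ C : ℝ, 1 ≤ C ∧ ∀ (q : P4) (F : V4) (M : ℝ), q.totalDegree ≤ D → 0 ≤ M →
    (∀ b : V4, (∀ o, |b o - F o| ≤ 1) → ∀ j, |eval b (pderiv (vt j) q)| ≤ M) →
    (∀ b : V4, (∀ o, |b o - F o| ≤ 1) → ∀ i k, |eval b (pderiv (hz i) (pderiv (hz k) q))| ≤ M) →
    ∀ b : V4, (∀ o, |b o - F o| ≤ 1) → |eval b q - (eval F q +
      (b none - F none) * eval F (pderiv none q) +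
      (b (some 0) - F (some 0)) * eval F (pderiv (some 0) q))| ≤ C * M := by
  obtain ⟨C₁, hC₁, hmk⟩ := bx_pd D
  obtain ⟨C₂, hC₂, hit⟩ := bx_it D
  refine ⟨2 + (D + 1) * (C₂ ^ D * (16 * C₁)), ?_, fun q F M hq hM hv hh b hb => ?_⟩
  · have : 0 ≤ ((D : ℝ) + 1) * (C₂ ^ D * (16 * C₁)) := by positivity
    linarith
  obtain ⟨s, hs⟩ : ∃ s : V4, s = fun o => b o - F o := ⟨_, rfl⟩
  have hs1 : ∀ o, |s o| ≤ 1 := fun o => by rw [hs]; exact hb o
  have hFF : ∀ o, |F o - F o| ≤ 1 := fun o => by rw [sub_self, abs_zero]; exact zero_le_one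
  -- all second derivatives
  have h2 : ∀ b' : V4, (∀ o, |b' o - F o| ≤ 1) → ∀ o o',
      |eval b' (pderiv o (pderiv o' q))| ≤ C₁ * M := by
    intro b' hb' o o'
    have hM1 : M ≤ C₁ * M := le_mul_of_one_le_left hM hC₁
    refine cases4 (P := fun o' => |eval b' (pderiv o (pderiv o' q))| ≤ C₁ * M) ?_ ?_ ?_ o'
    · refine cases4 (P := fun o => |eval b' (pderiv o (pderiv none q))| ≤ C₁ * M) ?_ ?_ ?_ o
      · exact (hh b' hb' 0 0).trans hM1
      · exact (hh b' hb' 1 0).trans hM1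
      · intro j
        rw [pd_comm4]
        exact hmk (pderiv (vt j) q) F M (pd_deg _ hq) (fun b hb => hv b hb j) b' hb' none
    · refine cases4 (P := fun o => |eval b' (pderiv o (pderiv (some 0) q))| ≤ C₁ * M) ?_ ?_ ?_ o
      · exact (hh b' hb' 0 1).trans hM1
      · exact (hh b' hb' 1 1).trans hM1
      · intro j
        rw [pd_comm4]
        exact hmk (pderiv (vt j) q) F M (pd_deg _ hq) (fun b hb => hv b hb j) b' hb' (some 0)
    · intro j
      exact hmk (pderiv (vt j) q) F M (pd_deg _ hq) (fun b hb => hv b hb j) b' hb' o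
  have h3 : ∀ b' : V4, (∀ o, |b' o - F o| ≤ 1) → |eval b' (dv s (dv s q))| ≤ 16 * C₁ * M := by
    intro b' hb'
    have k1 : ∀ o, |eval b' (pderiv o (dv s q))| ≤ 4 * (C₁ * M) := fun o => by
      rw [← dv_pd]
      have := dv_le (Q := pderiv o q) (b := b') (s := s) (S := 1) (M := C₁ * M) zero_le_one hs1
        fun o' => h2 b' hb' o' o
      linarith
    have := dv_le (Q := dv s q) (b := b') (s := s) (S := 1) (M := 4 * (C₁ * M)) zero_le_one hs1 k1
    linarith
  have h4 := taylor_dv hq F s 1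
  have e0 : (fun o => F o + 1 * s o) = b := by
    funext o
    rw [hs]
    ring
  rw [e0] at h4
  have hdeg2 : (dv s (dv s q)).totalDegree ≤ D := dv_deg s (dv_deg s hq)
  have hterm : ∀ n, |(1 : ℝ) ^ (n + 2) / (n + 2).factorial * eval F ((dv s)^[n + 2] q)| ≤
      C₂ ^ n * (16 * C₁ * M) := by
    intro n
    have e1 : (dv s)^[n + 2] q = (dv s)^[n] (dv s (dv s q)) := by
      rw [Function.iterate_add_apply]
      rfl
    rw [e1, one_pow, abs_mul]
    have k1 := hit n (dv s (dv s q)) F s (16 * C₁ * M) hdeg2 (by positivity) hs1 h3 F hFF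
    have k2 : |(1 : ℝ) / (n + 2).factorial| ≤ 1 := by
      have h5 : (1 : ℝ) ≤ (n + 2).factorial := by exact_mod_cast Nat.factorial_pos (n + 2)
      rw [abs_of_nonneg (by positivity), div_le_one (by linarith)]
      exact h5
    calc _ ≤ 1 * (C₂ ^ n * (16 * C₁ * M)) := mul_le_mul k2 k1 (abs_nonneg _) zero_le_one
      _ = _ := one_mul _
  have hv1 : eval F (dv s q) = s none * eval F (pderiv none q) +
      (s (some 0) * eval F (pderiv (some 0) q) + ∑ j, s (vt j) * eval F (pderiv (vt j) q)) := by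
    unfold dv
    rw [sum4]
    simp only [map_add, map_mul, eval_C, map_sum]
  have hv2 : |∑ j, s (vt j) * eval F (pderiv (vt j) q)| ≤ 2 * M := by
    refine (Finset.abs_sum_le_sum_abs _ _).trans ?_
    rw [Fin.sum_univ_two]
    have k1 : ∀ j, |s (vt j) * eval F (pderiv (vt j) q)| ≤ M := fun j => by
      rw [abs_mul]
      calc _ ≤ 1 * M := mul_le_mul (hs1 _) (hv F hFF j) (abs_nonneg _) zero_le_one
        _ = M := one_mul M
    have := k1 0
    have := k1 1
    linarith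
  have e2 : s none = b none - F none := by rw [hs]
  have e3 : s (some 0) = b (some 0) - F (some 0) := by rw [hs]
  have hpos : 0 ≤ ((D : ℝ) + 1) * (C₂ ^ D * (16 * C₁)) * M := by positivity
  -- degrees zero and one
  rcases Nat.lt_or_ge D 1 with hD | hD
  · obtain rfl : D = 0 := by omega
    have hq0 : q.totalDegree = 0 := by omega
    rw [totalDegree_eq_zero_iff_eq_C] at hq0
    rw [hq0]
    simp only [eval_C, pderiv_C, map_zero, mul_zero, add_zero, sub_self, abs_zero]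
    positivity
  have h5 : eval b q - (eval F q + (b none - F none) * eval F (pderiv none q) +
      (b (some 0) - F (some 0)) * eval F (pderiv (some 0) q)) =
      ∑ j, s (vt j) * eval F (pderiv (vt j) q) +
      ∑ n ∈ range (D - 1), (1 : ℝ) ^ (n + 2) / (n + 2).factorial *
        eval F ((dv s)^[n + 2] q) := by
    rw [h4, show D + 1 = (D - 1) + 2 by omega, Finset.sum_range_succ' _ (D - 1 + 1),
      Finset.sum_range_succ' _ (D - 1)]
    simp only [zero_add, Function.iterate_zero, id_eq, Function.iterate_one, pow_zero,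
      Nat.factorial_zero, Nat.cast_one, div_one, one_mul, Nat.factorial_one, one_pow]
    rw [hv1, e2, e3]
    ring
  rw [h5]
  refine (abs_add_le _ _).trans ?_
  have h6 : |∑ n ∈ range (D - 1), (1 : ℝ) ^ (n + 2) / (n + 2).factorial *
      eval F ((dv s)^[n + 2] q)| ≤ ((D : ℝ) + 1) * (C₂ ^ D * (16 * C₁)) * M := by
    refine (Finset.abs_sum_le_sum_abs _ _).trans ?_
    refine (Finset.sum_le_sum fun n hn => (hterm n).trans (?_ : _ ≤ C₂ ^ D * (16 * C₁ * M))).trans
      ?_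
    · have hn' := Finset.mem_range.1 hn
      exact mul_le_mul_of_nonneg_right (pow_le_pow_right₀ hC₂ (by omega)) (by positivity)
    · rw [Finset.sum_const, Finset.card_range, nsmul_eq_mul]
      have k1 : ((D - 1 : ℕ) : ℝ) ≤ D + 1 := by
        have : D - 1 ≤ D + 1 := by omega
        exact_mod_cast this
      calc ((D - 1 : ℕ) : ℝ) * (C₂ ^ D * (16 * C₁ * M)) ≤ (D + 1) * (C₂ ^ D * (16 * C₁ * M)) :=
            mul_le_mul_of_nonneg_right k1 (by positivity)
        _ = _ := by ring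
  have e7 : (2 + ((D : ℝ) + 1) * (C₂ ^ D * (16 * C₁))) * M = 2 * M +
      ((D : ℝ) + 1) * (C₂ ^ D * (16 * C₁)) * M := by ring
  rw [e7]
  exact add_le_add hv2 h6

/-- The values of a polynomial at two near points of a box. -/
theorem bx_lip (D : ℕ) : ∃ C : ℝ, 1 ≤ C ∧ ∀ (q : P4) (F x y : V4) (M δ : ℝ), q.totalDegree ≤ D →
    0 ≤ M → 0 ≤ δ → (∀ b : V4, (∀ o, |b o - F o| ≤ 1) → |eval b q| ≤ M) →
    (∀ o, |x o - F o| ≤ 1) → (∀ o, |y o - F o| ≤ 1) → (∀ o, |x o - y o| ≤ δ) →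
    |eval x q - eval y q| ≤ C * M * δ := by
  obtain ⟨C₁, hC₁, hmk⟩ := bx_pd D
  refine ⟨4 * C₁, by linarith, fun q F x y M δ hq hM hδ h hx hy hxy => ?_⟩
  obtain ⟨s, hs⟩ : ∃ s : V4, s = fun o => x o - y o := ⟨_, rfl⟩
  have hs1 : ∀ o, |s o| ≤ δ := fun o => by rw [hs]; exact hxy o
  -- the polynomial on the segment
  obtain ⟨P, hP⟩ : ∃ P : Polynomial ℝ, P = aeval (lp y s) q := ⟨_, rfl⟩
  have hin : ∀ t ∈ Set.Icc (0 : ℝ) 1, ∀ o, |y o + t * s o - F o| ≤ 1 := by
    intro t ht o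
    have e1 : y o + t * s o - F o = (1 - t) * (y o - F o) + t * (x o - F o) := by
      rw [hs]
      ring
    rw [e1]
    have k1 := hx o
    have k2 := hy o
    refine (abs_add_le _ _).trans ?_
    rw [abs_mul, abs_mul, abs_of_nonneg ht.1, abs_of_nonneg (by linarith [ht.2] : 0 ≤ 1 - t)]
    have k3 := mul_le_mul_of_nonneg_left k2 (by linarith [ht.2] : 0 ≤ 1 - t)
    have k4 := mul_le_mul_of_nonneg_left k1 ht.1
    linarith
  have hder : ∀ t ∈ Set.Icc (0 : ℝ) 1, |P.derivative.eval t| ≤ 4 * C₁ * M * δ := by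
    intro t ht
    rw [hP, der_alp, eval_alp]
    have := dv_le (Q := q) (b := fun o => y o + t * s o) (s := s) (S := δ) (M := C₁ * M) hδ hs1
      fun o => hmk q F M hq h _ (hin t ht) o
    linarith
  have h1 : |P.eval 1 - P.eval 0| ≤ 4 * C₁ * M * δ * |(1 : ℝ) - 0| := by
    have := (convex_Icc (0 : ℝ) 1).norm_image_sub_le_of_norm_hasDerivWithin_le
      (f := fun t => P.eval t) (f' := fun t => P.derivative.eval t) (C := 4 * C₁ * M * δ)
      (fun t _ => (P.hasDerivAt t).hasDerivWithinAt) (fun t ht => by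
        rw [Real.norm_eq_abs]
        exact hder t ht) (Set.left_mem_Icc.2 zero_le_one) (Set.right_mem_Icc.2 zero_le_one)
    simpa only [Real.norm_eq_abs] using this
  rw [sub_zero, abs_one, mul_one] at h1
  have e1 : P.eval 1 = eval x q := by
    rw [hP, eval_alp]
    congr 2
    funext o
    rw [hs]
    ring
  have e2 : P.eval 0 = eval y q := by
    rw [hP, eval_alp]
    congr 2
    funext o
    ring
  rwa [e1, e2] at h1

end Pool.AFK25
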