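import Pool.Agent.H25.AFK.Num
import Pool.Agent.H91.NVA.Cls
import Pool.Agent.H23.D2.Bgr
import Pool.Agent.H33.EXA.Gra
import Pool.Agent.H64.D1.S

/-!
# Affine labels of the target with given slopes, class level

`KapF`: the closed slopes of the target on parts of the events with balls. `AfN`, `AfX`: the numbers.
`afk_cls`: closed affine labels of the target at the windows of a list, with common slopes at the
places `1`, `2`.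
-/

set_option autoImplicit false

namespace Pool.AFK25

open Finset Real MvPolynomial
open Pool.Agent.H49.Ent Pool.Agent.H32.Dense Pool.STK Pool.KA Pool.KSAT Pool.K2S Pool.PB Pool.S6C
open Pool.GEN hiding dv
open Pool.CHT Pool.ISO Pool.D2R Pool.NV24
open Pool.RCD
open Pool.NVA91 (affL_part fre_act)
open Pool.GRD (LbP)
open Pool.CDX (AffL)
open Pool.FVL91 (coe1)


/-- **The closed slopes of the target** in the deep chart `G N`, in the frame of the chart `G kt`,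
on a part of every event with balls. -/
def KapF {m : ℕ} (S : PCl m) (c : ℕ → Fin m) (D Dr N M₀ : ℕ) (CB a Eb ηm : ℝ) (ow η σ : ℕ → ℝ)
    (lv bb : ℕ → ℕ → ℝ) (zz : ℕ → ℕ → ℕ → ℕ) (kt : ℕ) (x1 x2 : ℝ) : Prop :=
  ∃ c₁ κ₀ : ℝ, 0 < c₁ ∧ 0 < κ₀ ∧ Bas S (fun J F B => ∀ (κ : ℝ) (g₀ : ℕ → ℕ → ℕ)
    (G : ℕ → PtT F → ℕ → MvPolynomial (Option (Fin m)) ℝ)
    (H : ℕ → LnT F → ℕ → MvPolynomial (Option (Fin m)) ℝ), κ ≤ κ₀ →
    WinB F c 3 D Dr N M₀ CB a Eb ηm ow η σ lv bb κ (zz J) B g₀ G H →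
    ∃ B' : F.Ω → Prop, Sub B' B ∧ c₁ * Pe F.p B ≤ Pe F.p B' ∧
      ∃ (Vk : Type) (zk : PtT F → Vk) (zk' : LnT F → Vk) (ka : Vk → ℕ → ℝ),
        KapE F c ⌊ow kt * J⌋₊ ⌊x1 * J⌋₊ ⌊x2 * J⌋₊ B' (G kt) (G N) zk zk' ka)

/-- **The numbers** of the windows `ow k`, `k ≤ N`, and of the levels `lv k`. -/
structure AfN (N : ℕ) (CB ηm ζ s σs : ℝ) (ow : ℕ → ℝ) (lv : ℕ → ℕ → ℝ) : Prop where
  ζ0 : 0 < ζ
  η0 : 0 ≤ ηm
  ηζ : ηm ≤ ζ
  CBζ : CB * ηm ≤ ζ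
  s0 : 0 ≤ s
  sσ : s ≤ σs
  o0 : ∀ k ≤ N, 0 ≤ ow k
  st0 : ∀ k < N, ow k ≤ ow (k + 1)
  st1 : ∀ k < N, ow (k + 1) - ow k ≤ ζ
  st2 : ∀ k < N, σs * (ow (k + 1) - ow k) ≤ ζ
  l0 : ∀ k ≤ N, |lv k 0 - ow k| ≤ ζ
  l12 : ∀ l, 1 ≤ l → l ≤ 2 → ∀ k k', k ≤ k' → k' ≤ N →
    |lv k' l - lv k l - s * (ow k' - ow k)| ≤ ζ
  l3 : ∀ k k', k ≤ k' → k' ≤ N → |lv k' 3 - lv k 3 - σs * (ow k' - ow k)| ≤ ζ

/-- **The numbers of the list** `ix i`, `i ≤ n`, of windows, not before the window `kt`. -/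
structure AfX (C N n kt : ℕ) (ix : ℕ → ℕ) (Eb ζ Λ x1 x2 : ℝ) (ow : ℕ → ℝ) (lv : ℕ → ℕ → ℝ) :
    Prop where
  ixN : ∀ i ≤ n, kt ≤ ix i ∧ ix i ≤ N
  Eb0 : 0 ≤ Eb
  oΛ : ∀ k ≤ N, ow k ≤ Λ
  lΛ : ∀ k ≤ N, ∀ l ≤ 3, lv k l ≤ Λ
  EΛ : Eb + Λ + C * ζ ≤ 1
  Cl : ∀ i ≤ n, C * ζ ≤ lv (ix i) 3
  x1 : ∀ i ≤ n, lv (ix i) 3 - lv (ix i) 1 ≤ x1
  x2 : ∀ i ≤ n, lv (ix i) 3 - lv kt 2 ≤ x2

theorem AfN.mono {N : ℕ} {CB ηm ζ s σs : ℝ} {ow : ℕ → ℝ} {lv : ℕ → ℕ → ℝ}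
    (h : AfN N CB ηm ζ s σs ow lv) {k : ℕ} : ∀ {k' : ℕ}, k ≤ k' → k' ≤ N → ow k ≤ ow k' := by
  intro k' h1
  induction k', h1 using Nat.le_induction with
  | base => exact fun _ => le_rfl
  | succ j _ ih => exact fun h2 => (ih (by omega)).trans (h.st0 j (by omega))

/-- **The gradients** from a window to the last one. -/
theorem gnh_cls (D : ℕ) : ∃ Cg : ℕ, 1 ≤ Cg ∧ ∀ {m J : ℕ} {F : Fam m J} {c : ℕ → Fin m}
    {Dr N M₀ : ℕ} {CB a Eb ηm ζ s σs : ℝ} {ow η σ : ℕ → ℝ} {lv b : ℕ → ℕ → ℝ} {κ : ℝ}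
    {z : ℕ → ℕ → ℕ} {B : F.Ω → Prop} {g₀ : ℕ → ℕ → ℕ}
    {G : ℕ → PtT F → ℕ → MvPolynomial (Option (Fin m)) ℝ}
    {H : ℕ → LnT F → ℕ → MvPolynomial (Option (Fin m)) ℝ},
    WinB F c 3 D Dr N M₀ CB a Eb ηm ow η σ lv b κ z B g₀ G H → Set.InjOn c (Set.Iio 4) →
    (∀ k, k < N → z k 0 = ⌊ow (k + 1) * J⌋₊ - ⌊ow k * J⌋₊) → AfN N CB ηm ζ s σs ow lv →
    ∀ i ≤ N, ∀ ω, B ω → ∀ j < 3, 1 ≤ j →
      |gnh F c 3 (g₀ i) (G i) (G N) ω j| ≤ 2 ^ (Cg * (⌈3 * ζ * J⌉₊ + 4 + N)) := by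
  obtain ⟨Cg, hCg, hw⟩ := winb_grd D 3
  refine ⟨Cg, hCg, ?_⟩
  intro m J F c Dr N M₀ CB a Eb ηm ζ s σs ow η σ lv b κ z B g₀ G H W hc hz X i hi ω hω j hj hj1
  have hJ : (0 : ℝ) ≤ J := Nat.cast_nonneg J
  have hζ := X.ζ0
  have hN0 : (0 : ℝ) ≤ N := Nat.cast_nonneg N
  obtain ⟨Y, hY⟩ : ∃ Y : ℕ, Y = ⌈3 * ζ * J⌉₊ + 4 + N := ⟨_, rfl⟩
  have hY1 : 3 * (ζ * J) + 4 + N ≤ Y := by
    rw [hY]
    push_cast
    have := Nat.le_ceil (3 * ζ * J)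
    linarith
  have hζJ : 0 ≤ ζ * J := by positivity
  have hm : ∀ {x : ℝ}, x ≤ 3 * ζ → x * J ≤ Y := fun {x} hx => by
    have := mul_le_mul_of_nonneg_right hx hJ
    linarith
  have hst : ∀ k, k < N - i → i + k < N := fun k hk => by omega
  have hin : i + (N - i) = N := by omega
  have hlen : 0 ≤ ow N - ow i := sub_nonneg.2 (X.mono hi le_rfl)
  have hlJ : 0 ≤ (ow N - ow i) * J := mul_nonneg hlen hJ
  have hsl : s * ((ow N - ow i) * J) ≤ σs * ((ow N - ow i) * J) :=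
    mul_le_mul_of_nonneg_right X.sσ hlJ
  have key := hw W (f := fun k => i + k) (jj := fun _ => 0) (n := N - i) (i := 3) (k₀ := 1)
    (ks := 0) (q := ⌈s * ((ow N - ow i) * J)⌉₊ + 3) (X := 0) (Y := Y) (S := s) (b' := σs)
    hc le_rfl (fun k hk => by
      show i + k ≤ N
      omega) (fun k hk => ⟨Nat.zero_le _, hz _ (hst k hk), X.st0 _ (hst k hk)⟩) (by
      rw [← mul_assoc]
      exact hm (X.CBζ.trans (by linarith))) (by omega) (by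
      have h1 : ((N - i : ℕ) : ℝ) ≤ N := by exact_mod_cast Nat.sub_le _ _
      have h2 : (N : ℝ) ≤ Y := by linarith
      exact (h1.trans h2).trans (by exact_mod_cast Nat.lt_two_pow_self.le)) X.s0 X.sσ
    (fun k hk l hl => by
      have e1 : i + (k + 1) = i + k + 1 := rfl
      show (lv (i + (k + 1)) l - lv (i + k) l) * J ≤ Y ∧
        (lv (i + k) l - lv (i + (k + 1)) l) * J ≤ Y
      rw [e1]
      have h0 := X.st0 _ (hst k hk)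
      have h1 := X.st1 _ (hst k hk)
      have h2 := X.st2 _ (hst k hk)
      have hd : |lv (i + k + 1) l - lv (i + k) l| ≤ 3 * ζ := by
        have hcs : l = 0 ∨ (1 ≤ l ∧ l ≤ 2) ∨ l = 3 := by omega
        rcases hcs with rfl | h3 | rfl
        · have a1 := abs_le.1 (X.l0 (i + k) (by have := hst k hk; omega))
          have a2 := abs_le.1 (X.l0 (i + k + 1) (hst k hk))
          rw [abs_le]
          constructor <;> linarith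
        · have a1 := abs_le.1 (X.l12 l h3.1 h3.2 (i + k) (i + k + 1) (by omega) (hst k hk))
          have a2 : s * (ow (i + k + 1) - ow (i + k)) ≤ σs * (ow (i + k + 1) - ow (i + k)) :=
            mul_le_mul_of_nonneg_right X.sσ (by linarith)
          have a3 : 0 ≤ s * (ow (i + k + 1) - ow (i + k)) := mul_nonneg X.s0 (by linarith)
          rw [abs_le]
          constructor <;> linarith
        · have a1 := abs_le.1 (X.l3 (i + k) (i + k + 1) (by omega) (hst k hk))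
          have a3 : 0 ≤ σs * (ow (i + k + 1) - ow (i + k)) :=
            mul_nonneg (X.s0.trans X.sσ) (by linarith)
          rw [abs_le]
          constructor <;> linarith
      have hd' := abs_le.1 hd
      exact ⟨hm hd'.2, hm (by linarith)⟩)
    (fun k hk => by
      show σs * ((ow (i + (k + 1)) - ow (i + k)) * J) ≤ Y
      rw [← mul_assoc]
      exact hm ((X.st2 _ (hst k hk)).trans (by linarith)))
    (fun k k' hkk hk' l hl hl1 => by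
      show (lv (i + k') l - lv (i + k) l) * J ≤ s * ((ow (i + k') - ow (i + k)) * J) + Y
      have a1 := (abs_le.1 (X.l12 l hl1 (by omega) (i + k) (i + k') (by omega) (by omega))).2
      have a2 := hm (a1.trans (by linarith : ζ ≤ 3 * ζ))
      linarith)
    (fun k hk => by
      show σs * ((ow (i + k) - ow (i + 0)) * J) ≤ (lv (i + k) 3 - lv (i + 0) 3) * J + Y
      rw [add_zero]
      have a1 := (abs_le.1 (X.l3 i (i + k) (by omega) (by omega))).1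
      have a2 := hm (x := -(lv (i + k) 3 - lv i 3 - σs * (ow (i + k) - ow i))) (by linarith)
      linarith)
    (by
      show s * ((ow (i + (N - i)) - ow (i + 0)) * J) + 3 ≤ _
      rw [add_zero, hin]
      push_cast
      have := Nat.le_ceil (s * ((ow N - ow i) * J))
      linarith)
    (by
      show _ ≤ σs * ((ow (i + (N - i)) - ow (i + 0)) * J) + Y
      rw [add_zero, hin]
      push_cast
      have := (Nat.ceil_lt_add_one (mul_nonneg X.s0 hlJ)).le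
      linarith)
    (Nat.zero_le _) (Nat.zero_le _) (by
      show ((0 : ℕ) : ℝ) ≤ (σs - s) * ((ow (i + 0) - ow (i + 0)) * J) + Y
      rw [sub_self, zero_mul, mul_zero, zero_add, Nat.cast_zero]
      exact Nat.cast_nonneg _)
  have k1 := key.1 ω hω j hj hj1
  rw [← hY]
  rw [add_zero, hin] at k1
  exact k1

/-- **Affine labels of the target with given slopes**: at the windows of a list, on a part of every
event, closed labels of degree at most one whose coefficients at the places `1`, `2` do not depend on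
the window. -/
theorem afk_cls (D Dr : ℕ) (hD : 1 ≤ D) (hDr : D ≤ Dr) : ∃ C : ℕ, 1 ≤ C ∧
    ∀ {m N M₀ kt n : ℕ} {S : PCl m} {Ct : ℝ} {c : ℕ → Fin m}
    {CB a Eb ηm ζ Λ s σs x1 x2 K₁ : ℝ} {ow η σ : ℕ → ℝ} {lv bb : ℕ → ℕ → ℝ}
    {zz : ℕ → ℕ → ℕ → ℕ} {ix : ℕ → ℕ}, Set.InjOn c (Set.Iio 4) → TmC S Ct →
    Pool.MIC6.ActF S (c 0) →
    (∀ (τ : ℝ) (J : ℕ) (F : Fam m J) (A : F.Ω → Prop), S.St τ J F A → Gd F) →
    AfN N CB ηm ζ s σs ow lv → AfX C N n kt ix Eb ζ Λ x1 x2 ow lv →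
    (∀ J k, k < N → zz J k 0 = ⌊ow (k + 1) * J⌋₊ - ⌊ow k * J⌋₊) → 0 < K₁ →
    (∀ κ : ℝ, 0 < κ → Bas S (fun J F A => ∃ (B : F.Ω → Prop) (g₀ : ℕ → ℕ → ℕ)
      (G : ℕ → PtT F → ℕ → MvPolynomial (Option (Fin m)) ℝ)
      (H : ℕ → LnT F → ℕ → MvPolynomial (Option (Fin m)) ℝ), Sub B A ∧
      Pe F.p A ≤ K₁ * Pe F.p B ∧
      WinB F c 3 D Dr N M₀ CB a Eb ηm ow η σ lv bb κ (zz J) B g₀ G H)) →
    KapF S c D Dr N M₀ CB a Eb ηm ow η σ lv bb zz kt x1 x2 →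
    (∀ i ≤ n, ∀ l, 1 ≤ l → l ≤ 2 → ∃ bl pl : ℝ, bl ≤ ow (ix i) ∧ lv (ix i) l - ζ ≤ pl ∧
      AffL S ((range l).image c) (c l) bl pl) →
    (∃ bl pl : ℝ, bl ≤ ow kt ∧ lv kt 2 - ζ ≤ pl ∧ AffL S ((range 2).image c) (c 2) bl pl) →
    Pool.D164.AfK S c n (fun i => ow (ix i)) (fun i => lv (ix i) 3 - C * ζ) := by
  obtain ⟨C₁, C₀, hC₁, hone⟩ := afk_one D hD
  obtain ⟨Cg, hCg, hgnh⟩ := gnh_cls D
  obtain ⟨cc, hcc⟩ := pow_unbounded_of_one_lt C₁ (one_lt_two (α := ℝ))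
  refine ⟨60 * C₀ + 4 * Cg + 80, by omega, ?_⟩
  intro m N M₀ kt n S Ct c CB a Eb ηm ζ Λ s σs x1 x2 K₁ ow η σ lv bb zz ix hc htm hact hGd X Y hzz
    hK₁ hfam hkap hA hAt e₀ he₀
  obtain ⟨c₁, κ₀, hc₁, hκ₀, hkap⟩ := hkap
  have hζ := X.ζ0
  have hη0 := X.η0
  have hηζ := X.ηζ
  have hEb0 := Y.Eb0
  obtain ⟨K, hK⟩ : ∃ K : ℕ, K = 60 * C₀ + 4 * Cg + 80 := ⟨_, rfl⟩
  have hK80 : (80 : ℝ) ≤ K := by
    rw [hK]
    exact_mod_cast (by omega : 80 ≤ 60 * C₀ + 4 * Cg + 80)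
  have hKζ : 80 * ζ ≤ K * ζ := mul_le_mul_of_nonneg_right hK80 hζ.le
  rw [← hK] at Y ⊢
  have hkt : kt ≤ N := (Y.ixN 0 (Nat.zero_le _)).1.trans (Y.ixN 0 (Nat.zero_le _)).2
  have hΛ0 : 0 ≤ Λ := (X.o0 kt hkt).trans (Y.oΛ kt hkt)
  have hEΛ := Y.EΛ
  have hΛ1 : Λ ≤ 1 := by linarith
  have hΛ1' : Λ < 1 := by linarith
  -- the constants
  obtain ⟨ρB, hρB⟩ : ∃ ρB : ℝ, ρB = c₁ / 1024 ^ (n + 1) := ⟨_, rfl⟩
  have hρB0 : 0 < ρB := by rw [hρB]; positivity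
  obtain ⟨I, hI⟩ : ∃ I : ℕ, I = ⌈10 / ζ⌉₊ := ⟨_, rfl⟩
  have hI1 : 1 ≤ I := by
    rw [hI]
    exact Nat.ceil_pos.2 (by positivity)
  have hI0 : (0 : ℝ) < I := by exact_mod_cast hI1
  obtain ⟨κ, hκ⟩ : ∃ κ : ℝ, κ = min κ₀ (ρB / (256 * 96 * I)) := ⟨_, rfl⟩
  have hκ0 : 0 < κ := by rw [hκ]; exact lt_min hκ₀ (by positivity)
  have hκB : 256 * 96 * I * κ ≤ ρB := by
    have : κ ≤ ρB / (256 * 96 * I) := by rw [hκ]; exact min_le_right _ _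
    rwa [le_div_iff₀ (by positivity), mul_comm] at this
  have hκκ : κ ≤ κ₀ := by rw [hκ]; exact min_le_left _ _
  obtain ⟨κf, hκf⟩ : ∃ κf : ℝ, κf = ρB / (256 * 16 * I) := ⟨_, rfl⟩
  have hκf0 : 0 < κf := by rw [hκf]; positivity
  have hκfB : 256 * 16 * I * κf ≤ ρB := by
    rw [hκf, mul_div_cancel₀ _ (by positivity)]
  obtain ⟨ρ, hρ⟩ : ∃ ρ : ℝ, ρ = ρB / 256 := ⟨_, rfl⟩
  have hρ0 : 0 < ρ := by rw [hρ]; positivity
  -- the labels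
  have hA' : ∀ i l, ∃ bl pl : ℝ, i ≤ n → 1 ≤ l → l ≤ 2 → bl ≤ ow (ix i) ∧
      lv (ix i) l - ζ ≤ pl ∧ AffL S ((range l).image c) (c l) bl pl := by
    intro i l
    by_cases h : i ≤ n ∧ 1 ≤ l ∧ l ≤ 2
    · obtain ⟨bl, pl, h1⟩ := hA i h.1 l h.2.1 h.2.2
      exact ⟨bl, pl, fun _ _ _ => h1⟩
    · exact ⟨0, 0, fun h1 h2 h3 => absurd ⟨h1, h2, h3⟩ h⟩
  choose bl pl hbp using hA'
  obtain ⟨bt, pt, ht1, ht2, ht3⟩ := hAt
  have f1 : Bas S (fun J F A => ∀ i < n + 1, ∀ B : F.Ω → Prop, Sub B A →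
      Pe F.p A ≤ K₁ * Pe F.p B → ∃ (V : Type) (z : PtT F → V) (z' : LnT F → V)
        (G : V → MvPolynomial (Option (Fin m)) ℝ), LbP F ((range 1).image c) (c 1) 1 J
          ⌊bl i 1 * J⌋₊ ⌊(pl i 1 - ζ) * J⌋₊ B z z' G) :=
    Bas.all (n + 1) fun i hi => affL_part (hbp i 1 (by omega) le_rfl (by norm_num)).2.2 hζ hK₁
  have f2 : Bas S (fun J F A => ∀ i < n + 1, ∀ B : F.Ω → Prop, Sub B A →
      Pe F.p A ≤ K₁ * Pe F.p B → ∃ (V : Type) (z : PtT F → V) (z' : LnT F → V)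
        (G : V → MvPolynomial (Option (Fin m)) ℝ), LbP F ((range 2).image c) (c 2) 1 J
          ⌊bl i 2 * J⌋₊ ⌊(pl i 2 - ζ) * J⌋₊ B z z' G) :=
    Bas.all (n + 1) fun i hi => affL_part (hbp i 2 (by omega) (by norm_num) le_rfl).2.2 hζ hK₁
  have f3 := affL_part ht3 hζ hK₁
  have hlt : ∀ k ≤ N, ow k < 1 := fun k hk => lt_of_le_of_lt (Y.oΛ k hk) hΛ1'
  have f4 : Bas S (fun J F A => ∀ i < n + 1, ∀ B : F.Ω → Prop, Sub B A →
      Pe F.p A ≤ K₁ * Pe F.p B → OwnJ F c D ⌊ow (ix i) * J⌋₊ ρ (2 ^ (⌈ζ * J⌉₊ + 2)) B) :=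
    Bas.all (n + 1) fun i hi => Pool.GRW.bas_part (own_bas htm c D
      (X.o0 _ (Y.ixN i (by omega)).2) (hlt _ (Y.ixN i (by omega)).2) hρ0 hζ) hK₁
  have f5 := Pool.GRW.bas_part (fre_act hact 2 ζ κf hζ hκf0) hK₁
  have f6 := Pool.GRW.bas_part hkap hK₁
  have f7 : Bas S (fun _ F _ => Gd F) := ⟨1, one_pos, 0, fun J _ F A h => hGd _ J F A h⟩
  obtain ⟨J₁, hJ₁⟩ := exists_nat_ge ((C₀ + cc + N + 40 : ℝ) / ζ)
  refine ⟨c₁ / (K₁ * 1024 ^ (n + 1)), by positivity, ?_⟩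
  refine Bas.mono J₁ ((Pool.GRW.tmc_bas htm one_pos).and ((hfam κ hκ0).and (f1.and (f2.and
    (f3.and (f4.and (f5.and (f6.and f7)))))))) ?_
  rintro J hJ F A ⟨⟨hA0, -⟩, ⟨B, g₀, G, H, hBA, hPB, W⟩, g1, g2, g3, g4, g5, g6, hG⟩
  have hp := F.isLaw
  have hJ0 : (0 : ℝ) ≤ J := Nat.cast_nonneg J
  have hζJ : (C₀ + cc + N + 40 : ℝ) ≤ ζ * J := by
    have h1 := hJ₁.trans (show (J₁ : ℝ) ≤ J by exact_mod_cast hJ)
    rw [div_le_iff₀ hζ] at h1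
    linarith
  obtain ⟨B', hB', hPB', Vk, zk, zk', ka, hKE⟩ := g6 B hBA hPB κ g₀ G H hκκ W
  have hB0 : 0 < Pe F.p B := by
    by_contra h
    have h1 : Pe F.p B = 0 := le_antisymm (not_lt.1 h) (Pe_nonneg hp B)
    rw [h1, mul_zero] at hPB
    linarith
  have hB'0 : 0 < Pe F.p B' := lt_of_lt_of_le (by positivity) hPB'
  have hx2 : ∀ ω i, |F.x ω i| ≤ 2 := fun ω i => by
    have := abs_le.1 (hG.abs_sub_one ω i)
    rw [abs_le]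
    constructor <;> linarith
  have hgn := hgnh W hc (hzz J) X
  have hsd : ∀ k ≤ N, ∀ l ≤ 3, (lv k l - ηm) * J ≤ g₀ k l ∧ (g₀ k l : ℝ) ≤ lv k l * J :=
    fun k hk l hl => ⟨(mul_le_mul_of_nonneg_right (by
      have := (W.hσ k hk).2
      linarith) hJ0).trans (W.sds k hk l hl).1, (W.sds k hk l hl).2⟩
  have hgJ : ∀ k ≤ N, ∀ l ≤ 3, g₀ k l ≤ J := fun k hk l hl => by
    have h1 := (hsd k hk l hl).2
    have h2 := mul_le_mul_of_nonneg_right ((Y.lΛ k hk l hl).trans hΛ1) hJ0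
    have : (g₀ k l : ℝ) ≤ J := by linarith
    exact_mod_cast this
  have hwJ : ∀ k ≤ N, ⌊ow k * J⌋₊ ≤ J := fun k hk =>
    Nat.floor_le_of_le (by
      have := mul_le_mul_of_nonneg_right (hlt k hk).le hJ0
      linarith)
  have hfl : ∀ k ≤ N, ⌊(Eb + σ k + η k) * J⌋₊ ≤ ⌊(Eb + 2 * ηm) * J⌋₊ := fun k hk => by
    refine Nat.floor_le_floor (mul_le_mul_of_nonneg_right ?_ hJ0)
    have h1 := (W.hσ k hk).2
    have h2 := (W.hη k hk).2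
    linarith
  -- the labels of the window `kt`
  obtain ⟨Vt, zt, zt', Gt, hLt⟩ := g3 B hBA hPB
  -- the list
  obtain ⟨Φ, hΦ⟩ : ∃ Φ : ℕ → (F.Ω → Prop) → Prop, Φ = fun i E => ∃ (V₁ : Type) (z₁ : PtT F → V₁)
      (z₁' : LnT F → V₁) (Q : V₁ → MvPolynomial (Option (Fin m)) ℝ),
      LbP F ((range 3).image c) (c 3) 1 J ⌊ow (ix i) * J⌋₊
        ⌊(lv (ix i) 3 - K * ζ - e₀) * J⌋₊ E z₁ z₁' Q ∧ ∀ ω, E ω → ∀ l, l = 1 ∨ l = 2 →
          coe1 (c l) (Q (z₁' (slam F ⌊ow (ix i) * J⌋₊ ω))) = ka (zk (ptr F J ω)) l := ⟨_, rfl⟩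
  obtain ⟨E, hE1, hE2, hE3⟩ := list_ev hp (B := B') (q := 1024) (by norm_num) (Φ := Φ)
    (fun i E E' hEE hi => by
      rw [hΦ] at hi ⊢
      obtain ⟨V₁, z₁, z₁', Q, h1, h2⟩ := hi
      exact ⟨V₁, z₁, z₁', Q, h1.sub hEE, fun ω hω => h2 ω (hEE ω hω)⟩) (n + 1)
    (fun i hi E hE hPE => by
      rw [hΦ]
      have hin : i ≤ n := by omega
      obtain ⟨hki, hiN⟩ := Y.ixN i hin
      obtain ⟨V1, y1, y1', G1, hL1⟩ := g1 i hi B hBA hPB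
      obtain ⟨V2, y2, y2', G2, hL2⟩ := g2 i hi B hBA hPB
      obtain ⟨hb1, hp1, -⟩ := hbp i 1 hin le_rfl (by norm_num)
      obtain ⟨hb2, hp2, -⟩ := hbp i 2 hin (by norm_num) le_rfl
      have hmon : ow kt ≤ ow (ix i) := X.mono hki hiN
      have hl1 := (abs_le.1 (X.l12 1 le_rfl (by norm_num) kt (ix i) hki hiN)).1
      have hl2 := (abs_le.1 (X.l12 2 (by norm_num) le_rfl kt (ix i) hki hiN)).1
      have hso : 0 ≤ s * (ow (ix i) - ow kt) := mul_nonneg X.s0 (by linarith)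
      have hAk := akx_of (J := J) (C₀ := C₀) (g := g₀ (ix i)) (gt := g₀ kt) (lv := lv (ix i))
        (lt := lv kt) (o := ow (ix i)) (ηm := ηm) (ζ := ζ) (e' := ζ) (Eb := Eb) (Λ := Λ)
        (pl1 := pl i 1) (pl2 := pl i 2) (plt := pt) (x1 := x1) (x2 := x2) (X.o0 _ hiN) hη0 hηζ
        hζ.le (hsd _ hiN) (hsd _ hkt) (X.l0 _ hiN) hp1 hp2 ht2 (Y.x1 i hin) (Y.x2 i hin)
        (by linarith) (by linarith) (Y.oΛ _ hiN) (Y.lΛ _ hiN) hΛ1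
        (fun l hl => (Y.lΛ kt hkt l hl).trans hΛ1) hEb0 (by linarith)
      obtain ⟨r1, r2, r3, r4⟩ := fin_real (J := J) (C₀ := C₀) (cc := cc) (Cg := Cg) (N := N)
        (lv3 := lv (ix i) 3) (e₀ := e₀) (γ := g₀ (ix i) 3) hζ hηζ hη0 hEb0 hΛ0 he₀.le hζJ rfl rfl
        rfl rfl rfl rfl rfl rfl hI rfl (by rw [← hK]; exact hEΛ) (by rw [← hK]; exact Y.Cl i hin)
        (hsd _ hiN 3 le_rfl).1
      obtain ⟨q1, q2, q3, q4⟩ := fin_num hC₁ hcc.le r1 r2 r3 r4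
      rw [← hK] at q4
      have hPE' : ρB * Pe F.p B ≤ Pe F.p E := by
        refine le_trans ?_ hPE
        rw [hρB]
        calc c₁ / 1024 ^ (n + 1) * Pe F.p B = 1 / 1024 ^ (n + 1) * (c₁ * Pe F.p B) := by ring
          _ ≤ _ := mul_le_mul_of_nonneg_left hPB' (by positivity)
      have hE0 : 0 < Pe F.p E := lt_of_lt_of_le (by positivity) hPE
      exact hone W (i := ix i) (kt := kt) (I := I) (ρB := ρB) (ρ := ρ) (κf := κf)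
        (R := 2 ^ (⌈ζ * J⌉₊ + 2)) (β := 1 / 2 ^ ⌊ζ * J⌋₊) (L := 2 ^ ⌊ζ * J⌋₊) (B := E)
        hc hDr hiN hkt rfl rfl rfl (hfl _ hiN) (hfl _ hkt) (hfl _ le_rfl) (hgJ N le_rfl)
        (Nat.floor_le_floor (mul_le_mul_of_nonneg_right hmon hJ0)) (hwJ _ hiN)
        (Nat.floor_le_floor (mul_le_mul_of_nonneg_right hmon hJ0)) hAk
        (Pool.NVA91.afp_of hL1 (Nat.floor_le_floor (mul_le_mul_of_nonneg_right hb1 hJ0))
          (hwJ _ hiN) (min_le_left _ _))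
        (Pool.NVA91.afp_of hL2 (Nat.floor_le_floor (mul_le_mul_of_nonneg_right hb2 hJ0))
          (hwJ _ hiN) (min_le_left _ _))
        (Pool.NVA91.afp_of hLt (Nat.floor_le_floor (mul_le_mul_of_nonneg_right ht1 hJ0))
          (hwJ _ hkt) (min_le_left _ _)) hx2 (hgn _ hiN) (g4 i hi B hBA hPB) (g5 B hBA hPB)
        (fun ω hω => hB' ω (hE ω hω)) (hKE.sub hE) hE0 hI1 hκ0.le hκf0.le hPE' hκB hκfB
        (by rw [hρ]; linarith) (one_le_pow₀ (by norm_num)) (by positivity)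
        (by
          rw [div_le_one (by positivity)]
          exact one_le_pow₀ (by norm_num)) (one_le_pow₀ (by norm_num)) q1 q2 q3 q4)
  refine ⟨E, fun ω hω => hBA ω (hB' ω (hE1 ω hω)), ?_, ?_⟩
  · refine le_trans ?_ hE2
    have h1 : Pe F.p A / K₁ ≤ Pe F.p B := by
      rw [div_le_iff₀ hK₁, mul_comm]
      exact hPB
    calc c₁ / (K₁ * 1024 ^ (n + 1)) * Pe F.p A = 1 / 1024 ^ (n + 1) * (c₁ * (Pe F.p A / K₁)) := by
          field_simp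
      _ ≤ 1 / 1024 ^ (n + 1) * (c₁ * Pe F.p B) := by gcongr
      _ ≤ _ := mul_le_mul_of_nonneg_left hPB' (by positivity)
  · have hall : ∀ i, ∃ (V₁ : Type) (z₁ : PtT F → V₁) (z₁' : LnT F → V₁)
        (Q : V₁ → MvPolynomial (Option (Fin m)) ℝ), i ≤ n →
        (LbP F ((range 3).image c) (c 3) 1 J ⌊ow (ix i) * J⌋₊
          ⌊(lv (ix i) 3 - K * ζ - e₀) * J⌋₊ E z₁ z₁' Q ∧ ∀ ω, E ω → ∀ l, l = 1 ∨ l = 2 →
            coe1 (c l) (Q (z₁' (slam F ⌊ow (ix i) * J⌋₊ ω))) = ka (zk (ptr F J ω)) l) := by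
      intro i
      by_cases hi : i ≤ n
      · have h1 := hE3 i (by omega)
        rw [hΦ] at h1
        obtain ⟨V₁, z₁, z₁', Q, h2⟩ := h1
        exact ⟨V₁, z₁, z₁', Q, fun _ => h2⟩
      · exact ⟨Unit, fun _ => (), fun _ => (), fun _ => 0, fun h => absurd h hi⟩
    choose V z z' Q h using hall
    refine ⟨V, z, z', Q, fun i hi => (h i hi).1, fun i hi ω hω l hl => ?_⟩
    rw [(h i hi).2 ω hω l hl, (h 0 (Nat.zero_le _)).2 ω hω l hl]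

end Pool.AFK25
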