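import Pool.Agent.H25.AFK.Win

/-!
# One window: from the natural bounds to the label

`AkW`: the data of a window on an event. `afk_win`: the closed label of degree at most one with the
given slopes, on a part.
-/

set_option autoImplicit false

namespace Pool.AFK25

open Finset Real MvPolynomial
open Pool.Agent.H49.Ent Pool.Agent.H32.Dense Pool.STK Pool.KA Pool.KSAT Pool.K2S Pool.PB Pool.S6C
open Pool.GEN hiding dv
open Pool.CHT Pool.ISO Pool.D2R Pool.NV24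
open Pool.NVA91 (relvN)
open Pool.GRD (LbP)
open Pool.FVL91 (coe1)

variable {m J : ℕ}

/-- The normalised polynomial of a point. -/
noncomputable def qP {F : Fam m J} {Vk : Type} (c : ℕ → Fin m) (w g1 g2 γ : ℕ)
    (U V : PtT F → MvPolynomial (Option (Fin m)) ℝ)
    (G : PtT F → ℕ → MvPolynomial (Option (Fin m)) ℝ) (zk : PtT F → Vk) (ka : Vk → ℕ → ℝ)
    (y : PtT F) : P4 := qn c w g1 g2 γ (τP w y) (U y) (V y) (G y 3) (ka (zk y))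

/-- The normalised polynomial of a line cell. -/
noncomputable def qL {F : Fam m J} {Vk : Type} (c : ℕ → Fin m) (w W0 g1 g2 γ : ℕ)
    (U' V' : LnT F → MvPolynomial (Option (Fin m)) ℝ)
    (H : LnT F → ℕ → MvPolynomial (Option (Fin m)) ℝ) (zk' : LnT F → Vk) (ka : Vk → ℕ → ℝ)
    (s : LnT F) : P4 :=
  qn c w g1 g2 γ (τL s) (U' s) (V' s) (H s 3) (ka (zk' (s.1, s.2.1, s.2.2 / 2 ^ (w - W0))))

/-- The natural position of a sample. -/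
noncomputable def xN (F : Fam m J) (c : ℕ → Fin m) (w g1 g2 : ℕ)
    (U V : PtT F → MvPolynomial (Option (Fin m)) ℝ) (ω : F.Ω) : V4 :=
  nco c w g1 g2 (F.T1 w ω) (U (ptr F J ω)) (V (ptr F J ω)) (bt F ω)

/-- The natural slopes of a sample. -/
noncomputable def dN (F : Fam m J) (c : ℕ → Fin m) (w g1 g2 : ℕ)
    (U V : PtT F → MvPolynomial (Option (Fin m)) ℝ) (ω : F.Ω) : Fin 2 → ℝ :=
  Ddn w g1 g2 c (U (ptr F J ω)) (V (ptr F J ω)) (bd F ω)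

/-- **The data of a window on an event.** `k`: the comparison of the sides; `δ`: the rounding;
`R`: the velocities; `M`: the vertical slopes and the second derivative along the own line;
`S`: the own value. -/
structure AkW (F : Fam m J) {Vk : Type} (c : ℕ → Fin m) (D w W0 e g1 g2 γ k : ℕ) (g : ℕ → ℕ)
    (B : F.Ω → Prop) (G : PtT F → ℕ → MvPolynomial (Option (Fin m)) ℝ)
    (H : LnT F → ℕ → MvPolynomial (Option (Fin m)) ℝ)
    (U V : PtT F → MvPolynomial (Option (Fin m)) ℝ)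
    (U' V' : LnT F → MvPolynomial (Option (Fin m)) ℝ)
    (zk : PtT F → Vk) (zk' : LnT F → Vk) (ka : Vk → ℕ → ℝ) (δ R M S : ℝ) : Prop where
  ch : ChOK F c 4 (fun _ => D) w w e g B G H
  cl : Clsd F 4 w B G H
  u : AfP F c 1 w g1 B U U'
  v : AfP F c 2 w g2 B V V'
  s0 : w ≤ g 0 + k ∧ g 0 ≤ w + k
  s1 : g 1 ≤ g1 + k ∧ g1 ≤ g 1 + k
  s2 : g 2 ≤ g2 + k ∧ g2 ≤ g 2 + k
  b0 : ∀ ω, B ω → ∀ b : Option (Fin m) → ℝ, |b none - F.t ω| ≤ 1 / 2 ^ w →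
    |F.x ω (c 0) - eval b (G (ptr F J ω) 0)| ≤ 2 ^ k / 2 ^ w
  b1 : ∀ ω, B ω → ∀ b, NBx c (G (ptr F J ω)) g w (F.t ω) 1 b →
    |eval b (U (ptr F J ω)) - eval b (G (ptr F J ω) 1)| ≤ 2 ^ k / 2 ^ g1
  b2 : ∀ ω, B ω → ∀ b, NBx c (G (ptr F J ω)) g w (F.t ω) 2 b →
    |eval b (V (ptr F J ω)) - eval b (G (ptr F J ω) 2)| ≤ 2 ^ k / 2 ^ g2
  kc : ∀ ω, B ω → zk (ptr F J ω) = zk' (slam F W0 ω)
  γ3 : γ ≤ g 3
  rnd : ∀ ω, B ω → ∀ o, |xN F c w g1 g2 U V ω o - FPn c w g1 g2 U V (ptr F J ω) o| ≤ δ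
  d1 : ∀ ω, B ω → ∀ j, |dN F c w g1 g2 U V ω j| ≤ R
  v1 : ∀ ω, B ω → ∀ j, |eval (xN F c w g1 g2 U V ω)
    (pderiv (vt j) (qP c w g1 g2 γ U V G zk ka (ptr F J ω)))| ≤ M
  j2 : ∀ ω, B ω → |eval (xN F c w g1 g2 U V ω) (dv (vec 1 (F.d ω (c 0)) (dN F c w g1 g2 U V ω))
    (dv (vec 1 (F.d ω (c 0)) (dN F c w g1 g2 U V ω))
      (qP c w g1 g2 γ U V G zk ka (ptr F J ω))))| ≤ M
  own : ∀ ω, B ω → |eval (xN F c w g1 g2 U V ω) (qP c w g1 g2 γ U V G zk ka (ptr F J ω))| ≤ S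

theorem fre_sub {Ω ζ : Type} [Fintype Ω] {p : Ω → ℝ} {A B : Ω → Prop} {Z : Ω → ζ} {κ : Ω → ℝ}
    {β K : ℝ} {D : ℕ} {κ₀ : ℝ} (hκ₀ : 0 ≤ κ₀) (h : Fre p A Z κ β D κ₀)
    (hB : Sub B A) (hK : Pe p A ≤ K * Pe p B) : Fre p B Z κ β D (K * κ₀) := by
  intro E hE hP
  refine h E (fun ω hω => hB ω (hE ω hω)) (le_trans ?_ hP)
  calc κ₀ * Pe p A ≤ κ₀ * (K * Pe p B) := mul_le_mul_of_nonneg_left hK hκ₀
    _ = K * κ₀ * Pe p B := by ring

/-- **One window.** -/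
theorem afk_win (D : ℕ) : ∃ (C : ℝ) (C₀ : ℕ), 1 ≤ C ∧ ∀ {m J : ℕ} {F : Fam m J} {Vk : Type}
    {c : ℕ → Fin m} {w W0 e g1 g2 γ k h Dr P I : ℕ} {g : ℕ → ℕ} {B₀ B : F.Ω → Prop}
    {G : PtT F → ℕ → MvPolynomial (Option (Fin m)) ℝ}
    {H : LnT F → ℕ → MvPolynomial (Option (Fin m)) ℝ}
    {U V : PtT F → MvPolynomial (Option (Fin m)) ℝ}
    {U' V' : LnT F → MvPolynomial (Option (Fin m)) ℝ}
    {zk : PtT F → Vk} {zk' : LnT F → Vk} {ka : Vk → ℕ → ℝ} {δ R M S κ β L : ℝ},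
    Set.InjOn c (Set.Iio 4) → 1 ≤ D → D ≤ Dr → w ≤ J → W0 ≤ w →
    ChOK F c 4 (fun _ => D) w w e g B₀ G H → RelvF F c 3 w w g Dr h κ B₀ G → Sub B B₀ →
    0 < Pe F.p B → 1 ≤ I → κ * Pe F.p B₀ ≤ 1 / (96 * I) * Pe F.p B →
    AkW F c D w W0 e g1 g2 γ k g B G H U V U' V' zk zk' ka δ R M S →
    Fre F.p B (ptr F J) (fun ω => F.d ω (c 0)) β 2 (1 / (16 * I)) →
    0 ≤ δ → δ ≤ 1 → 0 < M → 1 ≤ R → 0 < S → 0 < β → β ≤ 1 → 1 ≤ L →
    C * 2 ^ (h + C₀ * (k + 1)) * L * δ ≤ β ^ 2 →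
    C * (2 ^ (h + C₀ * (k + 1)) * S) ≤
      L ^ I * (C * (2 ^ (h + C₀ * (k + 1))) ^ 2 * R ^ 2 * M / β ^ 2) →
    (2 : ℝ) ^ P * (2 ^ (C₀ * (k + 1)) *
      (C * (C * (2 ^ (h + C₀ * (k + 1))) ^ 2 * R ^ 2 * M / β ^ 2)) + 1) ≤ 2 ^ γ →
    ∃ B' : F.Ω → Prop, Sub B' B ∧ Pe F.p B / 4 ≤ Pe F.p B' ∧
      ∃ (V₁ : Type) (z : PtT F → V₁) (z' : LnT F → V₁)
        (Q : V₁ → MvPolynomial (Option (Fin m)) ℝ),
        LbP F ((range 3).image c) (c 3) 1 J w P B' z z' Q ∧ ∀ ω, B' ω → ∀ l, l = 1 ∨ l = 2 →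
          coe1 (c l) (Q (z' (slam F w ω))) = ka (zk (ptr F J ω)) l := by
  obtain ⟨C, hC, hafd⟩ := afd D
  obtain ⟨C₁, hlab⟩ := afk_lab D
  obtain ⟨C₂, hrel⟩ := relvN D
  refine ⟨C, C₁ + C₂, hC, ?_⟩
  intro m J F Vk c w W0 e g1 g2 γ k h Dr P I g B₀ B G H U V U' V' zk zk' ka δ R M S κ β L hc hD
    hDr hw hW0 hch₀ hR hB hB0 hI hκ A hfre hδ0 hδ1 hM hRv hS hβ hβ1 hL hLδ hLS hP
  have hp := F.isLaw
  have h0 := hp.nonneg
  obtain ⟨Hh, hHh⟩ : ∃ Hh : ℝ, Hh = 2 ^ (h + (C₁ + C₂) * (k + 1)) := ⟨_, rfl⟩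
  rw [← hHh] at hLδ hLS hP
  have hH1 : 1 ≤ Hh := by
    rw [hHh]
    exact one_le_pow₀ (by norm_num)
  have hI0 : (1 : ℝ) ≤ I := by exact_mod_cast hI
  have hHC : (2 : ℝ) ^ (h + C₂ * (k + 1)) ≤ Hh := by
    rw [hHh]
    refine pow_le_pow_right₀ (by norm_num) ?_
    have : C₂ * (k + 1) ≤ (C₁ + C₂) * (k + 1) := Nat.mul_le_mul_right _ (by omega)
    omega
  have hxx : ∀ ω, xN F c w g1 g2 U V ω = nco c w g1 g2 (F.T1 w ω) (U (ptr F J ω))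
    (V (ptr F J ω)) (bt F ω) := fun ω => rfl
  have hrnd : ∀ ω, B ω → ∀ o, |FPn c w g1 g2 U V (ptr F J ω) o -
      nco c w g1 g2 (F.T1 w ω) (U (ptr F J ω)) (V (ptr F J ω)) (bt F ω) o| ≤ 1 := by
    intro ω hω o
    rw [abs_sub_comm]
    exact (A.rnd ω hω o).trans hδ1
  have hqdeg : ∀ y, (qP c w g1 g2 γ U V G zk ka y).totalDegree ≤ D := fun y =>
    deg_qn hD (A.u.dP _) (A.v.dP _) (A.ch.degG _ 3)
  have hqdegL : ∀ s, (qL c w W0 g1 g2 γ U' V' H zk' ka s).totalDegree ≤ D := fun s =>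
    deg_qn hD (A.u.dL _) (A.v.dL _) (A.ch.degH _ 3)
  have hqcl : ∀ ω, B ω → qP c w g1 g2 γ U V G zk ka (ptr F J ω) =
      qL c w W0 g1 g2 γ U' V' H zk' ka (slam F w ω) := by
    intro ω hω
    have e2 : zk (ptr F J ω) =
        zk' ((slam F w ω).1, (slam F w ω).2.1, (slam F w ω).2.2 / 2 ^ (w - W0)) := by
      rw [A.kc ω hω, slam_coarse F hW0 hw ω]
    have e3 : τP w (ptr F J ω) = τL (slam F w ω) := rfl
    unfold qP qL
    rw [A.u.cls ω hω, A.v.cls ω hω, A.cl ω hω 3 (by norm_num), e2, e3]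
  -- no relation
  have hRB : ∀ B' : F.Ω → Prop, Sub B' B → 1 / (96 * I) * Pe F.p B ≤ Pe F.p B' →
      ∀ (Dx : PtT F → P4) (Dl : LnT F → P4) (M' : ℝ), (∀ y, (Dx y).totalDegree ≤ D) →
      (∀ s, (Dl s).totalDegree ≤ D) → 0 < M' →
      (∀ ω, B' ω → |eval (xN F c w g1 g2 U V ω) (Dx (ptr F J ω))| ≤ M') →
      (∀ ω, B' ω → Dx (ptr F J ω) = Dl (slam F w ω)) →
      ∃ B'' : F.Ω → Prop, Sub B'' B' ∧ Pe F.p B' / 2 ≤ Pe F.p B'' ∧ ∀ ω, B'' ω →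
        ∀ b : V4, (∀ o, |b o - FPn c w g1 g2 U V (ptr F J ω) o| ≤ 1) →
          |eval b (Dx (ptr F J ω))| ≤ Hh * M' := by
    intro B' hB' hPB' Dx Dl M' hDx hDl hM' hown hdc
    obtain ⟨B'', k1, k2, k3⟩ := hrel hc hD hDr hch₀ hR hB hκ A.u A.v A.s0 A.s1 A.s2 A.b0 A.b1
      A.b2 hrnd B' hB' hPB' Dx Dl M' hDx hDl hM' hown (fun ω hω b _ => by
        rw [hdc ω hω, sub_self, abs_zero]
        exact hM'.le)
    exact ⟨B'', k1, k2, fun ω hω b hb => (k3 ω hω b hb).trans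
      (mul_le_mul_of_nonneg_right hHC hM'.le)⟩
  -- the rough bound
  have hI96 : 1 / (96 * (I : ℝ)) ≤ 1 := by
    rw [div_le_one (by positivity)]
    linarith
  obtain ⟨B₁, k1, k2, k3⟩ := hRB B (fun _ h => h) (by nlinarith) (qP c w g1 g2 γ U V G zk ka)
    (qL c w W0 g1 g2 γ U' V' H zk' ka) S hqdeg hqdegL hS A.own hqcl
  have hB10 : 0 < Pe F.p B₁ := lt_of_lt_of_le (by linarith) k2
  have hAf : AfD B₁ (ptr F J) (slam F w) (FPn c w g1 g2 U V) (xN F c w g1 g2 U V)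
      (fun ω => F.d ω (c 0)) (dN F c w g1 g2 U V) (qP c w g1 g2 γ U V G zk ka)
      (qL c w W0 g1 g2 γ U' V' H zk' ka) D δ M R (Hh * S) :=
    { deg := hqdeg
      degL := hqdegL
      cl := fun ω hω => hqcl ω (k1 ω hω)
      xF := fun ω hω => A.rnd ω (k1 ω hω)
      c1 := fun ω hω => F.dir ω (c 0)
      d1 := fun ω hω => A.d1 ω (k1 ω hω)
      v1 := fun ω hω => A.v1 ω (k1 ω hω)
      j2 := fun ω hω => A.j2 ω (k1 ω hω)
      ap := k3 }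
  have hRB1 : RelB F.p B₁ (ptr F J) (slam F w) (FPn c w g1 g2 U V) (xN F c w g1 g2 U V) D
      (1 / (48 * I)) Hh := by
    intro B' hB' hPB' Dx Dl M' hDx hDl hM' hown hdc
    obtain ⟨B'', q1, q2, q3⟩ := hRB B' (fun ω hω => k1 ω (hB' ω hω)) (by
      have e1 : 1 / (96 * (I : ℝ)) = 1 / (48 * I) * (1 / 2) := by
        field_simp
        norm_num
      rw [e1]
      have : 1 / (48 * (I : ℝ)) * (Pe F.p B / 2) ≤ 1 / (48 * I) * Pe F.p B₁ :=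
        mul_le_mul_of_nonneg_left k2 (by positivity)
      linarith) Dx Dl M' hDx hDl hM' hown hdc
    have hB'0 : 0 < Pe F.p B' := lt_of_lt_of_le (by positivity) hPB'
    have hB''0 : 0 < Pe F.p B'' := lt_of_lt_of_le (by linarith) q2
    obtain ⟨ω, hω⟩ : ∃ ω, B'' ω := by
      by_contra hno
      push Not at hno
      have : Pe F.p B'' ≤ 0 := by
        have e1 : B'' = fun _ => False := by
          funext ω
          exact eq_false (hno ω)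
        rw [e1]
        show law F.p (fun _ => False) True ≤ 0
        unfold law
        refine le_of_eq (Finset.sum_eq_zero fun ω _ => ?_)
        simp
      linarith
    exact ⟨ω, q1 ω hω, q3 ω hω⟩
  have hfre1 : Fre F.p B₁ (ptr F J) (fun ω => F.d ω (c 0)) β 2 (1 / (8 * I)) := by
    have h1 := fre_sub (by positivity) hfre k1 (K := 2) (by linarith)
    have e1 : 2 * (1 / (16 * (I : ℝ))) = 1 / (8 * I) := by
      field_simp
      norm_num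
    rwa [e1] at h1
  obtain ⟨B', q1, q2, q3⟩ := hafd (I := I) (κ₂ := 1 / 8) hp hB10 hAf hRB1 hfre1 hδ0 hδ1 hM hRv
    (by positivity) (by positivity) hH1 hβ hβ1 (by norm_num) hI (by
      rw [mul_one_div, div_le_div_iff₀ (by positivity) (by positivity)]
      linarith) (by
      rw [mul_one_div, div_le_div_iff₀ (by positivity) (by positivity)]
      linarith) hL hLδ hLS
  have hB'B : Sub B' B := fun ω hω => k1 ω (q1 ω hω)
  refine ⟨B', hB'B, ?_, ?_⟩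
  · refine le_trans ?_ q2
    have e1 : 1 / (48 * (I : ℝ)) ≤ 1 / 48 :=
      one_div_le_one_div_of_le (by norm_num) (by linarith)
    have e2 : (1 : ℝ) / 2 ≤ 1 - 2 * (1 / (48 * I)) - 1 / 8 := by linarith
    have e3 := mul_le_mul_of_nonneg_right e2 hB10.le
    linarith
  · have hM' : 0 ≤ C * (C * Hh ^ 2 * R ^ 2 * M / β ^ 2) := by positivity
    have hP' : (2 : ℝ) ^ P * (2 ^ (C₁ * (k + 1)) * (C * (C * Hh ^ 2 * R ^ 2 * M / β ^ 2)) + 1) ≤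
        2 ^ γ := by
      refine le_trans (mul_le_mul_of_nonneg_left (add_le_add ?_ le_rfl) (by positivity)) hP
      refine mul_le_mul_of_nonneg_right (pow_le_pow_right₀ (by norm_num) ?_) hM'
      exact Nat.mul_le_mul_right _ (by omega)
    exact hlab hc hD hw hW0 (A.ch.sub hB'B) (fun ω hω => A.cl ω (hB'B ω hω))
      (Pool.NVA91.AfP.sub A.u hB'B) (Pool.NVA91.AfP.sub A.v hB'B)
      (fun ω hω => A.b0 ω (hB'B ω hω)) (fun ω hω => hrnd ω (hB'B ω hω))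
      (fun ω hω => A.kc ω (hB'B ω hω)) A.γ3 hM' q3 hP'

end Pool.AFK25
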