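import Pool.Agent.H25.AFK.Nat

/-!
# The fields of `AkW`

`KapE`: closed slopes of the deep chart, in natural components. `akw_mk`: the data of a window from
the labels, the relative gradient, the closed slopes and the own jets.
-/

set_option autoImplicit false

namespace Pool.AFK25

open Finset Real MvPolynomial
open Pool.Agent.H49.Ent Pool.Agent.H32.Dense Pool.STK Pool.KA Pool.KSAT Pool.K2S Pool.PB Pool.S6C
open Pool.GEN hiding dv
open Pool.CHT Pool.ISO Pool.D2R Pool.NV24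
open Pool.NVA91 (pc_pd aff_ev pc_dep pc_sub sum_pc1 sum_pc2 pos_rnd)
open Pool.LA91 (jet lp eval_alp jet_sub ojet)

variable {m J : ℕ}

/-- **The closed slopes** `ka` of the deep chart `Gn` in the directions of the places `1`, `2`, in
the natural components of the chart `Gt`. -/
def KapE (F : Fam m J) {Vk : Type} (c : ℕ → Fin m) (W0 X1 X2 : ℕ) (B : F.Ω → Prop)
    (Gt Gn : PtT F → ℕ → MvPolynomial (Option (Fin m)) ℝ) (zk : PtT F → Vk) (zk' : LnT F → Vk)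
    (ka : Vk → ℕ → ℝ) : Prop :=
  ∀ ω, B ω → zk (ptr F J ω) = zk' (slam F W0 ω) ∧
    |eval (bt F ω) (pderiv (some (c 2)) (Gn (ptr F J ω) 3)) - ka (zk (ptr F J ω)) 2| ≤
      1 / 2 ^ X2 ∧
    |(eval (bt F ω) (pderiv (some (c 1)) (Gn (ptr F J ω) 3)) - ka (zk (ptr F J ω)) 1) +
      eval (bt F ω) (pderiv (some (c 1)) (Gt (ptr F J ω) 2)) *
      (eval (bt F ω) (pderiv (some (c 2)) (Gn (ptr F J ω) 3)) - ka (zk (ptr F J ω)) 2)| ≤
      1 / 2 ^ X1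

theorem KapE.sub {F : Fam m J} {Vk : Type} {c : ℕ → Fin m} {W0 X1 X2 : ℕ} {A B : F.Ω → Prop}
    {Gt Gn : PtT F → ℕ → MvPolynomial (Option (Fin m)) ℝ} {zk : PtT F → Vk} {zk' : LnT F → Vk}
    {ka : Vk → ℕ → ℝ} (h : KapE F c W0 X1 X2 A Gt Gn zk zk' ka) (hB : Sub B A) :
    KapE F c W0 X1 X2 B Gt Gn zk zk' ka := fun ω hω => h ω (hB ω hω)

theorem nlpa {g : ℕ → ℕ} {l i : ℕ} (h : l ≤ i) : nlp g l i + g i = (Finset.Icc l i).sup g := by
  unfold nlp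
  have h1 : g i ≤ (Finset.Icc l i).sup g := Finset.le_sup (f := g) (Finset.mem_Icc.2 ⟨h, le_rfl⟩)
  omega

/-- Exponents. -/
theorem ex_le {a b : ℕ} {x y : ℝ} (hx : x ≤ y * (2 ^ a / 2 ^ b)) (hy : 0 ≤ y) {k : ℕ}
    (h : a ≤ b + k) : x ≤ y * 2 ^ k := by
  refine hx.trans (mul_le_mul_of_nonneg_left ?_ hy)
  rw [div_le_iff₀ (by positivity), ← pow_add]
  exact pow_le_pow_right₀ (by norm_num) (by omega)

/-- **The vertical derivatives.** -/
theorem v1_le {C : ℝ} (hC : 1 ≤ C) {c : ℕ → Fin m} (hc : Set.InjOn c (Set.Iio 3))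
    {w g1 g2 γ k Y X1 X2 : ℕ} {g : ℕ → ℕ} {τ : ℝ} {U V : MvPolynomial (Option (Fin m)) ℝ}
    {G3 : MvPolynomial (Option (Fin m)) ℝ} {a : ℕ → ℝ} {b : Option (Fin m) → ℝ}
    (hU : DepC c 1 U) (hV : DepC c 2 V) (hQ : DepC c 3 G3) (dU : U.totalDegree ≤ 1)
    (dV : V.totalDegree ≤ 1) {n1 n2 νv ν Ξ : ℝ}
    (s1 : g 1 ≤ g1 + k) (s2 : g 2 ≤ g2 + k) (hγ : γ ≤ g 3)
    (hX1 : γ ≤ g1 + X1 + k) (hX2 : γ ≤ g2 + X2 + k)
    (hΞ : 2 ^ γ * Ξ ≤ 2 ^ (g1 + X2 + k))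
    (k2 : |n2 - eval b (pderiv (some (c 2)) G3)| ≤ 2 ^ Y * (2 ^ g 2 / 2 ^ g 3))
    (k1 : |(n1 - eval b (pderiv (some (c 1)) G3)) +
      νv * (n2 - eval b (pderiv (some (c 2)) G3))| ≤ 2 ^ Y * (2 ^ g 1 / 2 ^ g 3))
    (p2 : |pc V (some (c 1)) - νv| ≤ C * (2 ^ k / 2 ^ g2) * 2 ^ g 1)
    (p1 : |pc V (some (c 1)) - ν| ≤ Ξ)
    (q2 : |n2 - a 2| ≤ 1 / 2 ^ X2) (q1 : |(n1 - a 1) + ν * (n2 - a 2)| ≤ 1 / 2 ^ X1) (j : Fin 2) :
    |eval (nco c w g1 g2 τ U V b) (pderiv (vt j) (qn c w g1 g2 γ τ U V G3 a))| ≤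
      (C + 3) * 2 ^ (Y + 3 * k) := by
  have hY : (1 : ℝ) ≤ 2 ^ Y := one_le_pow₀ (by norm_num)
  have hk : (1 : ℝ) ≤ 2 ^ k := one_le_pow₀ (by norm_num)
  have hYk : (2 : ℝ) ^ (Y + 3 * k) = 2 ^ Y * (2 ^ k * 2 ^ k * 2 ^ k) := by
    rw [pow_add, show 3 * k = k + k + k by ring, pow_add, pow_add]
  have hkk : (2 : ℝ) ^ k ≤ 2 ^ k * 2 ^ k * 2 ^ k := by nlinarith
  have hYk1 : (2 : ℝ) ^ Y * 2 ^ k ≤ 2 ^ (Y + 3 * k) := by
    rw [hYk]
    exact mul_le_mul_of_nonneg_left hkk (by positivity)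
  have hk1 : (2 : ℝ) ^ k ≤ 2 ^ (Y + 3 * k) := by
    refine le_trans ?_ hYk1
    nlinarith
  have hY3 : (0 : ℝ) < 2 ^ (Y + 3 * k) := by positivity
  have hdiv : ∀ {p q : ℕ} (r : ℕ), p ≤ q + r → (2 : ℝ) ^ p / 2 ^ q ≤ 2 ^ r := fun {p q} r h => by
    rw [div_le_iff₀ (by positivity), ← pow_add]
    exact pow_le_pow_right₀ (by norm_num) (by omega)
  fin_cases j
  · show |eval (nco c w g1 g2 τ U V b) (pderiv (vt 0) (qn c w g1 g2 γ τ U V G3 a))| ≤ _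
    rw [qn_v0 hc w g1 g2 γ τ hU hV hQ dU dV a b]
    obtain ⟨d1, hd1⟩ : ∃ d1, d1 = eval b (pderiv (some (c 1)) G3) := ⟨_, rfl⟩
    obtain ⟨d2, hd2⟩ : ∃ d2, d2 = eval b (pderiv (some (c 2)) G3) := ⟨_, rfl⟩
    obtain ⟨μ, hμ⟩ : ∃ μ, μ = pc V (some (c 1)) := ⟨_, rfl⟩
    rw [← hd1, ← hd2] at k1
    rw [← hd2] at k2
    rw [← hμ] at p1 p2
    rw [← hd1, ← hd2, ← hμ]
    have e : 2 ^ γ / 2 ^ g1 * ((d1 - a 1) + μ * (d2 - a 2)) =
        -(2 ^ γ / 2 ^ g1 * ((n1 - d1) + νv * (n2 - d2))) -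
          2 ^ γ / 2 ^ g1 * ((μ - νv) * (n2 - d2)) +
          2 ^ γ / 2 ^ g1 * ((n1 - a 1) + ν * (n2 - a 2)) +
          2 ^ γ / 2 ^ g1 * ((μ - ν) * (n2 - a 2)) := by ring
    have hg : (0 : ℝ) < 2 ^ γ / 2 ^ g1 := by positivity
    have t1 : |2 ^ γ / 2 ^ g1 * ((n1 - d1) + νv * (n2 - d2))| ≤ 2 ^ (Y + 3 * k) := by
      rw [abs_mul, abs_of_pos hg]
      calc (2 : ℝ) ^ γ / 2 ^ g1 * |(n1 - d1) + νv * (n2 - d2)| ≤
            2 ^ γ / 2 ^ g1 * (2 ^ Y * (2 ^ g 1 / 2 ^ g 3)) := mul_le_mul_of_nonneg_left k1 hg.le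
        _ = 2 ^ Y * ((2 ^ γ / 2 ^ g 3) * (2 ^ g 1 / 2 ^ g1)) := by field_simp
        _ ≤ 2 ^ Y * (1 * 2 ^ k) := by
            refine mul_le_mul_of_nonneg_left (mul_le_mul ?_ (hdiv k s1) (by positivity)
              (by norm_num)) (by positivity)
            have := hdiv (p := γ) (q := g 3) 0 (by omega)
            rwa [pow_zero] at this
        _ ≤ _ := by rw [one_mul]; exact hYk1
    have t2 : |2 ^ γ / 2 ^ g1 * ((μ - νv) * (n2 - d2))| ≤ C * 2 ^ (Y + 3 * k) := by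
      rw [abs_mul, abs_of_pos hg, abs_mul]
      calc (2 : ℝ) ^ γ / 2 ^ g1 * (|μ - νv| * |n2 - d2|) ≤
            2 ^ γ / 2 ^ g1 * ((C * (2 ^ k / 2 ^ g2) * 2 ^ g 1) * (2 ^ Y * (2 ^ g 2 / 2 ^ g 3))) :=
          mul_le_mul_of_nonneg_left (mul_le_mul p2 k2 (abs_nonneg _) (by positivity)) hg.le
        _ = C * (2 ^ Y * (2 ^ k * ((2 ^ γ / 2 ^ g 3) * (2 ^ g 1 / 2 ^ g1) *
              (2 ^ g 2 / 2 ^ g2)))) := by field_simp
        _ ≤ C * (2 ^ Y * (2 ^ k * (1 * 2 ^ k * 2 ^ k))) := by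
            refine mul_le_mul_of_nonneg_left (mul_le_mul_of_nonneg_left
              (mul_le_mul_of_nonneg_left (mul_le_mul (mul_le_mul ?_ (hdiv k s1) (by positivity)
              (by norm_num)) (hdiv k s2) (by positivity) (by positivity)) (by positivity))
              (by positivity)) (by linarith)
            have := hdiv (p := γ) (q := g 3) 0 (by omega)
            rwa [pow_zero] at this
        _ = C * 2 ^ (Y + 3 * k) := by rw [hYk]; ring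
    have t3 : |2 ^ γ / 2 ^ g1 * ((n1 - a 1) + ν * (n2 - a 2))| ≤ 2 ^ (Y + 3 * k) := by
      rw [abs_mul, abs_of_pos hg]
      calc (2 : ℝ) ^ γ / 2 ^ g1 * |(n1 - a 1) + ν * (n2 - a 2)| ≤
            2 ^ γ / 2 ^ g1 * (1 / 2 ^ X1) := mul_le_mul_of_nonneg_left q1 hg.le
        _ = 2 ^ γ / 2 ^ (g1 + X1) := by rw [pow_add]; field_simp
        _ ≤ 2 ^ k := hdiv k hX1
        _ ≤ _ := hk1
    have t4 : |2 ^ γ / 2 ^ g1 * ((μ - ν) * (n2 - a 2))| ≤ 2 ^ (Y + 3 * k) := by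
      rw [abs_mul, abs_of_pos hg, abs_mul]
      have hΞ0 : 0 ≤ Ξ := (abs_nonneg _).trans p1
      calc (2 : ℝ) ^ γ / 2 ^ g1 * (|μ - ν| * |n2 - a 2|) ≤
            2 ^ γ / 2 ^ g1 * (Ξ * (1 / 2 ^ X2)) :=
          mul_le_mul_of_nonneg_left (mul_le_mul p1 q2 (abs_nonneg _) hΞ0) hg.le
        _ = (2 ^ γ * Ξ) / 2 ^ (g1 + X2) := by rw [pow_add]; field_simp
        _ ≤ 2 ^ (g1 + X2 + k) / 2 ^ (g1 + X2) := div_le_div_of_nonneg_right hΞ (by positivity)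
        _ ≤ 2 ^ k := hdiv k le_rfl
        _ ≤ _ := hk1
    rw [e]
    have a1 := abs_le.1 t1
    have a2 := abs_le.1 t2
    have a3 := abs_le.1 t3
    have a4 := abs_le.1 t4
    rw [abs_le]
    constructor <;> nlinarith [a1.1, a1.2, a2.1, a2.2, a3.1, a3.2, a4.1, a4.2]
  · show |eval (nco c w g1 g2 τ U V b) (pderiv (vt 1) (qn c w g1 g2 γ τ U V G3 a))| ≤ _
    rw [qn_v1 hc w g1 g2 γ τ hU hV hQ dU dV a b]
    obtain ⟨d2, hd2⟩ : ∃ d2, d2 = eval b (pderiv (some (c 2)) G3) := ⟨_, rfl⟩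
    rw [← hd2] at k2
    rw [← hd2]
    have e : 2 ^ γ / 2 ^ g2 * (d2 - a 2) =
        -(2 ^ γ / 2 ^ g2 * (n2 - d2)) + 2 ^ γ / 2 ^ g2 * (n2 - a 2) := by ring
    have hg : (0 : ℝ) < 2 ^ γ / 2 ^ g2 := by positivity
    have t1 : |2 ^ γ / 2 ^ g2 * (n2 - d2)| ≤ 2 ^ (Y + 3 * k) := by
      rw [abs_mul, abs_of_pos hg]
      calc (2 : ℝ) ^ γ / 2 ^ g2 * |n2 - d2| ≤
            2 ^ γ / 2 ^ g2 * (2 ^ Y * (2 ^ g 2 / 2 ^ g 3)) := mul_le_mul_of_nonneg_left k2 hg.le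
        _ = 2 ^ Y * ((2 ^ γ / 2 ^ g 3) * (2 ^ g 2 / 2 ^ g2)) := by field_simp
        _ ≤ 2 ^ Y * (1 * 2 ^ k) := by
            refine mul_le_mul_of_nonneg_left (mul_le_mul ?_ (hdiv k s2) (by positivity)
              (by norm_num)) (by positivity)
            have := hdiv (p := γ) (q := g 3) 0 (by omega)
            rwa [pow_zero] at this
        _ ≤ _ := by rw [one_mul]; exact hYk1
    have t3 : |2 ^ γ / 2 ^ g2 * (n2 - a 2)| ≤ 2 ^ (Y + 3 * k) := by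
      rw [abs_mul, abs_of_pos hg]
      calc (2 : ℝ) ^ γ / 2 ^ g2 * |n2 - a 2| ≤
            2 ^ γ / 2 ^ g2 * (1 / 2 ^ X2) := mul_le_mul_of_nonneg_left q2 hg.le
        _ = 2 ^ γ / 2 ^ (g2 + X2) := by rw [pow_add]; field_simp
        _ ≤ 2 ^ k := hdiv k hX2
        _ ≤ _ := hk1
    rw [e]
    have a1 := abs_le.1 t1
    have a3 := abs_le.1 t3
    rw [abs_le]
    constructor <;> nlinarith [a1.1, a1.2, a3.1, a3.2]

/-- The own jet of order one over an affine label. -/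
theorem ojet_one {F : Fam m J} {k : Fin m} {U : MvPolynomial (Option (Fin m)) ℝ}
    (dU : U.totalDegree ≤ 1) (ω : F.Ω) :
    ojet F k 1 U ω = F.d ω k - ∑ o, bd F ω o * pc U o := by
  classical
  unfold ojet
  rw [jet_one]
  have h1 : ∀ o, bd F ω o * eval (bt F ω) (pderiv o (X (some k) - U)) =
      bd F ω o * (if o = some k then 1 else 0) - bd F ω o * pc U o := by
    intro o
    rw [map_sub, map_sub, pc_pd dU, pderiv_X, mul_sub]
    congr 2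
    by_cases h : o = some k
    · rw [h, Pi.single_eq_same, if_pos rfl, map_one]
    · rw [if_neg h, Pi.single_eq_of_ne (Ne.symm h), map_zero]
  rw [Finset.sum_congr rfl fun o _ => h1 o, Finset.sum_sub_distrib]
  congr 1
  rw [Finset.sum_eq_single (some k)]
  · rw [if_pos rfl, mul_one]
    rfl
  · intro o _ ho
    rw [if_neg ho, mul_zero]
  · intro h
    exact (h (mem_univ _)).elim

/-- **The natural slopes of the own line.** -/
theorem d1_le {F : Fam m J} {c : ℕ → Fin m} {w g1 g2 : ℕ}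
    {U V : PtT F → MvPolynomial (Option (Fin m)) ℝ} {R : ℝ} {ω : F.Ω}
    (dU : (U (ptr F J ω)).totalDegree ≤ 1) (dV : (V (ptr F J ω)).totalDegree ≤ 1)
    (h1 : |ojet F (c 1) 1 (U (ptr F J ω)) ω| ≤ R * 2 ^ w * (1 / 2 ^ g1))
    (h2 : |ojet F (c 2) 1 (V (ptr F J ω)) ω| ≤ R * 2 ^ w * (1 / 2 ^ g2)) (j : Fin 2) :
    |dN F c w g1 g2 U V ω j| ≤ R := by
  rw [ojet_one dU] at h1
  rw [ojet_one dV] at h2
  have key : ∀ (g : ℕ) (y : ℝ), |y| ≤ R * 2 ^ w * (1 / 2 ^ g) → |2 ^ g / 2 ^ w * y| ≤ R := by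
    intro g y hy
    have hg : (0 : ℝ) < 2 ^ g / 2 ^ w := by positivity
    rw [abs_mul, abs_of_pos hg]
    calc (2 : ℝ) ^ g / 2 ^ w * |y| ≤ 2 ^ g / 2 ^ w * (R * 2 ^ w * (1 / 2 ^ g)) :=
          mul_le_mul_of_nonneg_left hy hg.le
      _ = R := by field_simp
  fin_cases j
  · exact key g1 _ h1
  · exact key g2 _ h2

/-- **The second derivative along the own line.** -/
theorem j2_le {F : Fam m J} {Vk : Type} {c : ℕ → Fin m} (hc : Set.InjOn c (Set.Iio 3))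
    {w g1 g2 γ : ℕ} {g : ℕ → ℕ} {U V : PtT F → MvPolynomial (Option (Fin m)) ℝ}
    {G : PtT F → ℕ → MvPolynomial (Option (Fin m)) ℝ} {zk : PtT F → Vk} {ka : Vk → ℕ → ℝ}
    {R : ℝ} {ω : F.Ω}
    (hU : DepC c 1 (U (ptr F J ω))) (hV : DepC c 2 (V (ptr F J ω)))
    (hQ : DepC c 3 (G (ptr F J ω) 3)) (dU : (U (ptr F J ω)).totalDegree ≤ 1)
    (dV : (V (ptr F J ω)).totalDegree ≤ 1) (hγ : γ ≤ g 3) (hR : 0 ≤ R)
    (h : |ojet F (c 3) 2 (G (ptr F J ω) 3) ω| ≤ R * (2 ^ w) ^ 2 * (1 / 2 ^ g 3)) :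
    |eval (xN F c w g1 g2 U V ω) (Pool.NV24.dv (vec 1 (F.d ω (c 0)) (dN F c w g1 g2 U V ω))
      (Pool.NV24.dv (vec 1 (F.d ω (c 0)) (dN F c w g1 g2 U V ω))
        (qP c w g1 g2 γ U V G zk ka (ptr F J ω))))| ≤ R := by
  have h1 : ojet F (c 3) 2 (G (ptr F J ω) 3) ω = -jet 2 (G (ptr F J ω) 3) (bt F ω) (bd F ω) := by
    unfold ojet
    rw [jet_sub, jet_two_lin (by rw [totalDegree_X]), zero_sub]
  rw [h1, abs_neg] at h
  have h2 := qn_j2 hc w g1 g2 γ (F.T1 w ω) hU hV hQ dU dV (ka (zk (ptr F J ω))) (bt F ω) (bd F ω)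
    rfl
  show |eval (nco c w g1 g2 (F.T1 w ω) (U (ptr F J ω)) (V (ptr F J ω)) (bt F ω))
    (Pool.NV24.dv (vec 1 (bd F ω (some (c 0))) (Ddn w g1 g2 c (U (ptr F J ω)) (V (ptr F J ω))
      (bd F ω))) (Pool.NV24.dv (vec 1 (bd F ω (some (c 0))) (Ddn w g1 g2 c (U (ptr F J ω))
        (V (ptr F J ω)) (bd F ω))) (qn c w g1 g2 γ (F.T1 w ω) (U (ptr F J ω)) (V (ptr F J ω))
          (G (ptr F J ω) 3) (ka (zk (ptr F J ω))))))| ≤ R
  rw [h2, abs_mul, abs_of_pos (show (0 : ℝ) < 2 ^ γ / (2 ^ w) ^ 2 by positivity)]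
  calc (2 : ℝ) ^ γ / (2 ^ w) ^ 2 * |jet 2 (G (ptr F J ω) 3) (bt F ω) (bd F ω)| ≤
        2 ^ γ / (2 ^ w) ^ 2 * (R * (2 ^ w) ^ 2 * (1 / 2 ^ g 3)) :=
      mul_le_mul_of_nonneg_left h (by positivity)
    _ = R * (2 ^ γ / 2 ^ g 3) := by field_simp
    _ ≤ R * 1 := by
        refine mul_le_mul_of_nonneg_left ?_ hR
        rw [div_le_one (by positivity)]
        exact pow_le_pow_right₀ (by norm_num) hγ
    _ = R := mul_one R

/-- **The own value.** -/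
theorem own_le {F : Fam m J} {Vk : Type} {c : ℕ → Fin m} (hc : Set.InjOn c (Set.Iio 3))
    {w g1 g2 γ g3 E X1 X2 : ℕ} {U V : PtT F → MvPolynomial (Option (Fin m)) ℝ}
    {G : PtT F → ℕ → MvPolynomial (Option (Fin m)) ℝ} {zk : PtT F → Vk} {ka : Vk → ℕ → ℝ}
    {ω : F.Ω} {n1 n2 ν : ℝ}
    (hU : DepC c 1 (U (ptr F J ω))) (hV : DepC c 2 (V (ptr F J ω)))
    (hQ : DepC c 3 (G (ptr F J ω) 3)) (hx : ∀ i, |F.x ω i| ≤ 2)
    (hp : |F.x ω (c 3) - eval (bt F ω) (G (ptr F J ω) 3)| ≤ 1 / 2 ^ g3)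
    (l1 : |n1| ≤ 2 ^ E) (l2 : |n2| ≤ 2 ^ E) (l3 : |ν| ≤ 2 ^ E)
    (q2 : |n2 - ka (zk (ptr F J ω)) 2| ≤ 1 / 2 ^ X2)
    (q1 : |(n1 - ka (zk (ptr F J ω)) 1) + ν * (n2 - ka (zk (ptr F J ω)) 2)| ≤ 1 / 2 ^ X1) :
    |eval (xN F c w g1 g2 U V ω) (qP c w g1 g2 γ U V G zk ka (ptr F J ω))| ≤
      2 ^ (γ + E + 4) := by
  have h1 : ∀ X : ℕ, (1 : ℝ) / 2 ^ X ≤ 1 := fun X => by
    rw [div_le_one (by positivity)]
    exact one_le_pow₀ (by norm_num)
  have h2 := qn_ev hc w g1 g2 γ (F.T1 w ω) hU hV hQ (ka (zk (ptr F J ω))) (bt F ω)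
  obtain ⟨a1, ha1⟩ : ∃ a1, a1 = ka (zk (ptr F J ω)) 1 := ⟨_, rfl⟩
  obtain ⟨a2, ha2⟩ : ∃ a2, a2 = ka (zk (ptr F J ω)) 2 := ⟨_, rfl⟩
  rw [← ha1, ← ha2] at h2 q1
  rw [← ha2] at q2
  have hE : (1 : ℝ) ≤ 2 ^ E := one_le_pow₀ (by norm_num)
  have q2' := q2.trans (h1 X2)
  have q1' := q1.trans (h1 X1)
  have b2 : |a2| ≤ 2 * 2 ^ E := by
    rw [abs_le] at l2 q2' ⊢
    constructor <;> linarith [l2.1, l2.2, q2'.1, q2'.2]
  have b1' : |ν * (n2 - a2)| ≤ 2 ^ E := by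
    rw [abs_mul]
    calc |ν| * |n2 - a2| ≤ 2 ^ E * 1 := mul_le_mul l3 q2' (abs_nonneg _) (by positivity)
      _ = 2 ^ E := mul_one _
  have b1 : |a1| ≤ 3 * 2 ^ E := by
    rw [abs_le] at l1 q1' b1' ⊢
    constructor <;> linarith [l1.1, l1.2, q1'.1, q1'.2, b1'.1, b1'.2]
  have b3 : |eval (bt F ω) (G (ptr F J ω) 3)| ≤ 3 := by
    have c1 := hp.trans (h1 g3)
    have c2 := hx (c 3)
    rw [abs_le] at c1 c2 ⊢
    constructor <;> linarith [c1.1, c1.2, c2.1, c2.2]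
  have b4 : |a1 * F.x ω (c 1)| ≤ 6 * 2 ^ E := by
    rw [abs_mul]
    calc |a1| * |F.x ω (c 1)| ≤ 3 * 2 ^ E * 2 := mul_le_mul b1 (hx _) (abs_nonneg _) (by positivity)
      _ = _ := by ring
  have b5 : |a2 * F.x ω (c 2)| ≤ 4 * 2 ^ E := by
    rw [abs_mul]
    calc |a2| * |F.x ω (c 2)| ≤ 2 * 2 ^ E * 2 := mul_le_mul b2 (hx _) (abs_nonneg _) (by positivity)
      _ = _ := by ring
  show |eval (nco c w g1 g2 (F.T1 w ω) (U (ptr F J ω)) (V (ptr F J ω)) (bt F ω))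
    (qn c w g1 g2 γ (F.T1 w ω) (U (ptr F J ω)) (V (ptr F J ω))
          (G (ptr F J ω) 3) (ka (zk (ptr F J ω))))| ≤ _
  rw [h2, abs_mul, abs_of_pos (show (0 : ℝ) < 2 ^ γ by positivity)]
  have e1 : (2 : ℝ) ^ (γ + E + 4) = 2 ^ γ * (16 * 2 ^ E) := by
    rw [pow_add, pow_add]
    ring
  rw [e1]
  refine mul_le_mul_of_nonneg_left ?_ (by positivity)
  have e2 : (bt F ω (some (c 1)) : ℝ) = F.x ω (c 1) := rfl
  have e3 : (bt F ω (some (c 2)) : ℝ) = F.x ω (c 2) := rfl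
  rw [e2, e3]
  rw [abs_le] at b3 b4 b5 ⊢
  constructor <;> linarith [b3.1, b3.2, b4.1, b4.2, b5.1, b5.2]

/-- **The rounding of the natural position.** -/
theorem rnd_le {F : Fam m J} {c : ℕ → Fin m} (hc : Set.InjOn c (Set.Iio 4)) {w g1 g2 k e Gm : ℕ}
    {g : ℕ → ℕ} {C : ℝ} (hC : 1 ≤ C)
    {U V : PtT F → MvPolynomial (Option (Fin m)) ℝ} {ω : F.Ω} {d01 d02 d12 : ℝ}
    (hU : DepC c 1 (U (ptr F J ω))) (hV : DepC c 2 (V (ptr F J ω)))
    (dU : (U (ptr F J ω)).totalDegree ≤ 1) (dV : (V (ptr F J ω)).totalDegree ≤ 1)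
    (hw : w ≤ Gm) (hg : ∀ l < 3, g l ≤ Gm) (s1 : g1 ≤ g 1 + k) (s2 : g2 ≤ g 2 + k)
    (l01 : |d01| ≤ 2 ^ (e + nlp g 0 1)) (l02 : |d02| ≤ 2 ^ (e + nlp g 0 2))
    (l12 : |d12| ≤ 2 ^ (e + nlp g 1 2))
    (p01 : |pc (U (ptr F J ω)) (some (c 0)) - d01| ≤ C * (2 ^ k / 2 ^ g1) * 2 ^ g 0)
    (p12 : |pc (V (ptr F J ω)) (some (c 1)) - d12| ≤ C * (2 ^ k / 2 ^ g2) * 2 ^ g 1)
    (p02 : |(pc (V (ptr F J ω)) (some (c 0)) - d02) +
      d01 * (pc (V (ptr F J ω)) (some (c 1)) - d12)| ≤ C * (2 ^ k / 2 ^ g2) * 2 ^ g 0)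
    (o : Option (Fin 3)) :
    |xN F c w g1 g2 U V ω o - FPn c w g1 g2 U V (ptr F J ω) o| ≤
      (3 * C + 4) * (2 ^ (k + e + Gm) / 2 ^ J) := by
  have n01 := ne4 hc (i := 0) (l := 1) (by norm_num) (by norm_num) (by norm_num)
  have hK : (2 : ℝ) ^ (k + e + Gm) = 2 ^ k * 2 ^ (e + Gm) := by
    rw [add_assoc, pow_add]
  have hk1 : (1 : ℝ) ≤ 2 ^ k := one_le_pow₀ (by norm_num)
  have hGe : (2 : ℝ) ^ Gm ≤ 2 ^ (e + Gm) := pow_le_pow_right₀ (by norm_num) (by omega)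
  have hGK : (2 : ℝ) ^ Gm ≤ 2 ^ (k + e + Gm) := pow_le_pow_right₀ (by norm_num) (by omega)
  have hsup : ∀ l i, i < 3 → nlp g l i + g i ≤ Gm ∨ i < l := by
    intro l i hi
    by_cases h : l ≤ i
    · left
      rw [nlpa h]
      exact Finset.sup_le fun j hj => hg j (by
        rw [Finset.mem_Icc] at hj
        omega)
    · right
      omega
  have h01 : nlp g 0 1 + g 1 ≤ Gm := by
    rcases hsup 0 1 (by norm_num) with h | h
    · exact h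
    · omega
  have h02 : nlp g 0 2 + g 2 ≤ Gm := by
    rcases hsup 0 2 (by norm_num) with h | h
    · exact h
    · omega
  have h12 : nlp g 1 2 + g 2 ≤ Gm := by
    rcases hsup 1 2 (by norm_num) with h | h
    · exact h
    · omega
  have hJ : (0 : ℝ) < 2 ^ J := by positivity
  -- the rounding of a coordinate
  have hr : ∀ k' : Fin m, |F.x ω k' - bP (ptr F J ω) (some k')| ≤ 1 / 2 ^ J := fun k' =>
    pos_rnd F ω k'
  have ht : bt F ω none - bP (ptr F J ω) none = 0 := by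
    show F.t ω - (F.T ω : ℝ) / 2 ^ J = 0
    exact sub_self _
  obtain ⟨v, hv⟩ : ∃ v : Option (Fin m) → ℝ, v = fun o => bt F ω o - bP (ptr F J ω) o := ⟨_, rfl⟩
  have hvn : v none = 0 := by rw [hv]; exact ht
  have hvk : ∀ k', |v (some k')| ≤ 1 / 2 ^ J := fun k' => by rw [hv]; exact hr k'
  have evU : eval (bt F ω) (U (ptr F J ω)) - eval (bP (ptr F J ω)) (U (ptr F J ω)) =
      v (some (c 0)) * pc (U (ptr F J ω)) (some (c 0)) := by
    rw [aff_ev dU (bP (ptr F J ω)) (bt F ω)]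
    have h1 := sum_pc1 dU hU v
    rw [hvn, zero_mul, zero_add] at h1
    rw [← h1, hv]
  have evV : eval (bt F ω) (V (ptr F J ω)) - eval (bP (ptr F J ω)) (V (ptr F J ω)) =
      v (some (c 0)) * pc (V (ptr F J ω)) (some (c 0)) +
        v (some (c 1)) * pc (V (ptr F J ω)) (some (c 1)) := by
    rw [aff_ev dV (bP (ptr F J ω)) (bt F ω)]
    have h1 := sum_pc2 n01 dV hV v
    rw [hvn, zero_mul, zero_add] at h1
    rw [← h1, hv]
  -- the slopes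
  have hlip : ∀ {d : ℝ} {g' l i : ℕ}, |d| ≤ 2 ^ (e + nlp g l i) → nlp g l i + g i ≤ Gm →
      g' ≤ g i + k → 2 ^ g' * |d| ≤ 2 ^ (k + e + Gm) := by
    intro d g' l i h1 h2 h3
    calc (2 : ℝ) ^ g' * |d| ≤ 2 ^ g' * 2 ^ (e + nlp g l i) :=
          mul_le_mul_of_nonneg_left h1 (by positivity)
      _ = 2 ^ (g' + (e + nlp g l i)) := (pow_add _ _ _).symm
      _ ≤ _ := pow_le_pow_right₀ (by norm_num) (by omega)
  have hbx : ∀ {y : ℝ} {g' l : ℕ}, |y| ≤ C * (2 ^ k / 2 ^ g') * 2 ^ g l → l < 3 →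
      2 ^ g' * |y| ≤ C * 2 ^ (k + e + Gm) := by
    intro y g' l h1 h2
    calc (2 : ℝ) ^ g' * |y| ≤ 2 ^ g' * (C * (2 ^ k / 2 ^ g') * 2 ^ g l) :=
          mul_le_mul_of_nonneg_left h1 (by positivity)
      _ = C * 2 ^ (k + g l) := by rw [pow_add]; field_simp
      _ ≤ C * 2 ^ (k + e + Gm) := by
          refine mul_le_mul_of_nonneg_left (pow_le_pow_right₀ (by norm_num) ?_) (by linarith)
          have := hg l h2
          omega
  obtain ⟨K, hKd⟩ : ∃ K : ℝ, K = 2 ^ (k + e + Gm) := ⟨_, rfl⟩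
  rw [← hKd] at hGK
  have hK0 : 0 < K := by rw [hKd]; positivity
  have u0 : 2 ^ g1 * |pc (U (ptr F J ω)) (some (c 0))| ≤ (C + 1) * K := by
    have a1 := hlip l01 h01 s1
    have a2 := hbx p01 (by norm_num)
    rw [← hKd] at a1 a2
    have a3 : |pc (U (ptr F J ω)) (some (c 0))| ≤ |pc (U (ptr F J ω)) (some (c 0)) - d01| +
        |d01| := by
      have := abs_add_le (pc (U (ptr F J ω)) (some (c 0)) - d01) d01
      rwa [sub_add_cancel] at this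
    have := mul_le_mul_of_nonneg_left a3 (show (0 : ℝ) ≤ 2 ^ g1 by positivity)
    linarith
  have w1 : 2 ^ g2 * |pc (V (ptr F J ω)) (some (c 1))| ≤ (C + 1) * K := by
    have a1 := hlip l12 h12 s2
    have a2 := hbx p12 (by norm_num)
    rw [← hKd] at a1 a2
    have a3 : |pc (V (ptr F J ω)) (some (c 1))| ≤ |pc (V (ptr F J ω)) (some (c 1)) - d12| +
        |d12| := by
      have := abs_add_le (pc (V (ptr F J ω)) (some (c 1)) - d12) d12
      rwa [sub_add_cancel] at this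
    have := mul_le_mul_of_nonneg_left a3 (show (0 : ℝ) ≤ 2 ^ g2 by positivity)
    linarith
  have w0 : 2 ^ g2 * |pc (V (ptr F J ω)) (some (c 0))| ≤ (2 * C + 1) * K := by
    have a1 := hlip l02 h02 s2
    have a2 := hbx p02 (by norm_num)
    rw [← hKd] at a1 a2
    have a4 : 2 ^ g2 * |d01 * (pc (V (ptr F J ω)) (some (c 1)) - d12)| ≤ C * K := by
      rw [abs_mul]
      calc (2 : ℝ) ^ g2 * (|d01| * |pc (V (ptr F J ω)) (some (c 1)) - d12|) ≤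
            2 ^ g2 * (2 ^ (e + nlp g 0 1) * (C * (2 ^ k / 2 ^ g2) * 2 ^ g 1)) :=
          mul_le_mul_of_nonneg_left (mul_le_mul l01 p12 (abs_nonneg _) (by positivity))
            (by positivity)
        _ = C * 2 ^ (k + (e + (nlp g 0 1 + g 1))) := by
            have ee : (2 : ℝ) ^ (k + (e + (nlp g 0 1 + g 1))) =
                2 ^ k * (2 ^ e * (2 ^ (nlp g 0 1) * 2 ^ (g 1))) := by
              rw [pow_add, pow_add, pow_add]
            rw [ee, pow_add]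
            field_simp
        _ ≤ C * K := by
            rw [hKd]
            exact mul_le_mul_of_nonneg_left (pow_le_pow_right₀ (by norm_num) (by omega))
              (by linarith)
    have a3 : |pc (V (ptr F J ω)) (some (c 0))| ≤ |(pc (V (ptr F J ω)) (some (c 0)) - d02) +
        d01 * (pc (V (ptr F J ω)) (some (c 1)) - d12)| +
        |d01 * (pc (V (ptr F J ω)) (some (c 1)) - d12)| + |d02| := by
      have e1 : pc (V (ptr F J ω)) (some (c 0)) = ((pc (V (ptr F J ω)) (some (c 0)) - d02) +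
        d01 * (pc (V (ptr F J ω)) (some (c 1)) - d12)) -
        d01 * (pc (V (ptr F J ω)) (some (c 1)) - d12) + d02 := by ring
      calc |pc (V (ptr F J ω)) (some (c 0))| = |((pc (V (ptr F J ω)) (some (c 0)) - d02) +
            d01 * (pc (V (ptr F J ω)) (some (c 1)) - d12)) -
            d01 * (pc (V (ptr F J ω)) (some (c 1)) - d12) + d02| := congrArg _ e1
        _ ≤ _ := (abs_add_le _ _).trans (add_le_add (abs_sub _ _) le_rfl)
    have := mul_le_mul_of_nonneg_left a3 (show (0 : ℝ) ≤ 2 ^ g2 by positivity)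
    linarith
  have hfin : ∀ {y : ℝ}, |y| ≤ (3 * C + 4) * K * (1 / 2 ^ J) →
      |y| ≤ (3 * C + 4) * (2 ^ (k + e + Gm) / 2 ^ J) := by
    intro y hy
    rw [← hKd]
    refine hy.trans (le_of_eq (by ring))
  have hKC : K ≤ (3 * C + 4) * K := by nlinarith
  revert o
  refine cases4 ?_ ?_ fun j => ?_
  · apply hfin
    show |(2 ^ w * F.t ω - F.T1 w ω) - (2 ^ w * bP (ptr F J ω) none - τP w (ptr F J ω))| ≤ _
    have e1 : (2 ^ w * F.t ω - F.T1 w ω) - (2 ^ w * bP (ptr F J ω) none - τP w (ptr F J ω)) =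
        2 ^ w * (bt F ω none - bP (ptr F J ω) none) := by
      show (2 ^ w * F.t ω - F.T1 w ω) - (2 ^ w * bP (ptr F J ω) none - F.T1 w ω) =
        2 ^ w * (F.t ω - bP (ptr F J ω) none)
      ring
    rw [e1, ht, mul_zero, abs_zero]
    positivity
  · apply hfin
    show |2 ^ w * F.x ω (c 0) - 2 ^ w * bP (ptr F J ω) (some (c 0))| ≤ _
    rw [← mul_sub, abs_mul, abs_of_pos (show (0 : ℝ) < 2 ^ w by positivity)]
    refine mul_le_mul (le_trans ?_ hKC) (hr _) (abs_nonneg _) (by positivity)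
    exact (pow_le_pow_right₀ (by norm_num) hw).trans hGK
  · apply hfin
    have g1K : (2 : ℝ) ^ g1 ≤ K := by
      rw [hKd]
      refine pow_le_pow_right₀ (by norm_num) ?_
      have := hg 1 (by norm_num)
      omega
    have g2K : (2 : ℝ) ^ g2 ≤ K := by
      rw [hKd]
      refine pow_le_pow_right₀ (by norm_num) ?_
      have := hg 2 (by norm_num)
      omega
    have hJ1 : (0 : ℝ) < 1 / 2 ^ J := by positivity
    fin_cases j
    · show |2 ^ g1 * (F.x ω (c 1) - eval (bt F ω) (U (ptr F J ω))) -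
        2 ^ g1 * (bP (ptr F J ω) (some (c 1)) - eval (bP (ptr F J ω)) (U (ptr F J ω)))| ≤ _
      have e1 : 2 ^ g1 * (F.x ω (c 1) - eval (bt F ω) (U (ptr F J ω))) -
          2 ^ g1 * (bP (ptr F J ω) (some (c 1)) - eval (bP (ptr F J ω)) (U (ptr F J ω))) =
          2 ^ g1 * (F.x ω (c 1) - bP (ptr F J ω) (some (c 1))) -
            2 ^ g1 * (v (some (c 0)) * pc (U (ptr F J ω)) (some (c 0))) := by
        rw [← evU]
        ring
      rw [e1]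
      refine (abs_sub _ _).trans ?_
      rw [abs_mul, abs_mul, abs_of_pos (show (0 : ℝ) < 2 ^ g1 by positivity), abs_mul]
      have t1 : (2 : ℝ) ^ g1 * |F.x ω (c 1) - bP (ptr F J ω) (some (c 1))| ≤ K * (1 / 2 ^ J) :=
        mul_le_mul g1K (hr _) (abs_nonneg _) hK0.le
      have t2 : (2 : ℝ) ^ g1 * (|v (some (c 0))| * |pc (U (ptr F J ω)) (some (c 0))|) ≤
          (C + 1) * K * (1 / 2 ^ J) := by
        calc (2 : ℝ) ^ g1 * (|v (some (c 0))| * |pc (U (ptr F J ω)) (some (c 0))|) =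
              2 ^ g1 * |pc (U (ptr F J ω)) (some (c 0))| * |v (some (c 0))| := by ring
          _ ≤ _ := mul_le_mul u0 (hvk _) (abs_nonneg _) (by positivity)
      obtain ⟨Z, hZ⟩ : ∃ Z : ℝ, Z = K * (1 / 2 ^ J) := ⟨_, rfl⟩
      have hZ0 : 0 < Z := by rw [hZ]; positivity
      rw [mul_assoc, ← hZ] at t2 ⊢
      rw [← hZ] at t1
      nlinarith
    · show |2 ^ g2 * (F.x ω (c 2) - eval (bt F ω) (V (ptr F J ω))) -
        2 ^ g2 * (bP (ptr F J ω) (some (c 2)) - eval (bP (ptr F J ω)) (V (ptr F J ω)))| ≤ _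
      have e1 : 2 ^ g2 * (F.x ω (c 2) - eval (bt F ω) (V (ptr F J ω))) -
          2 ^ g2 * (bP (ptr F J ω) (some (c 2)) - eval (bP (ptr F J ω)) (V (ptr F J ω))) =
          2 ^ g2 * (F.x ω (c 2) - bP (ptr F J ω) (some (c 2))) -
            (2 ^ g2 * (v (some (c 0)) * pc (V (ptr F J ω)) (some (c 0))) +
            2 ^ g2 * (v (some (c 1)) * pc (V (ptr F J ω)) (some (c 1)))) := by
        rw [← mul_add, ← evV]
        ring
      rw [e1]
      refine (abs_sub _ _).trans ((add_le_add le_rfl (abs_add_le _ _)).trans ?_)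
      simp only [abs_mul, abs_of_pos (show (0 : ℝ) < 2 ^ g2 by positivity)]
      have t1 : (2 : ℝ) ^ g2 * |F.x ω (c 2) - bP (ptr F J ω) (some (c 2))| ≤ K * (1 / 2 ^ J) :=
        mul_le_mul g2K (hr _) (abs_nonneg _) hK0.le
      have t2 : (2 : ℝ) ^ g2 * (|v (some (c 0))| * |pc (V (ptr F J ω)) (some (c 0))|) ≤
          (2 * C + 1) * K * (1 / 2 ^ J) := by
        calc (2 : ℝ) ^ g2 * (|v (some (c 0))| * |pc (V (ptr F J ω)) (some (c 0))|) =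
              2 ^ g2 * |pc (V (ptr F J ω)) (some (c 0))| * |v (some (c 0))| := by ring
          _ ≤ _ := mul_le_mul w0 (hvk _) (abs_nonneg _) (by positivity)
      have t3 : (2 : ℝ) ^ g2 * (|v (some (c 1))| * |pc (V (ptr F J ω)) (some (c 1))|) ≤
          (C + 1) * K * (1 / 2 ^ J) := by
        calc (2 : ℝ) ^ g2 * (|v (some (c 1))| * |pc (V (ptr F J ω)) (some (c 1))|) =
              2 ^ g2 * |pc (V (ptr F J ω)) (some (c 1))| * |v (some (c 1))| := by ring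
          _ ≤ _ := mul_le_mul w1 (hvk _) (abs_nonneg _) (by positivity)
      obtain ⟨Z, hZ⟩ : ∃ Z : ℝ, Z = K * (1 / 2 ^ J) := ⟨_, rfl⟩
      have hZ0 : 0 < Z := by rw [hZ]; positivity
      have z2 : (2 * C + 1) * K * (1 / 2 ^ J) = (2 * C + 1) * Z := by rw [hZ]; ring
      have z3 : (C + 1) * K * (1 / 2 ^ J) = (C + 1) * Z := by rw [hZ]; ring
      have z4 : (3 * C + 4) * K * (1 / 2 ^ J) = (3 * C + 4) * Z := by rw [hZ]; ring
      rw [z2] at t2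
      rw [z3] at t3
      rw [← hZ] at t1
      rw [z4]
      nlinarith

end Pool.AFK25
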