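import Pool.Agent.H25.AFK.Box
import Pool.Agent.H24.NV.S
import Pool.Agent.H97.T4.Evt

/-!
# The law lemma for the affine label with given slopes

`AfD`: a closed polynomial with small vertical derivatives and a small second derivative along the
own line, at the samples. `RelB`: no relation. `afd`: off a small mass the polynomial is near its
horizontal linear part on the unit box.
-/

set_option autoImplicit false

namespace Pool.AFK25

open Finset Real MvPolynomial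
open Pool.Agent.H49.Ent Pool.Agent.H32.Dense Pool.STK Pool.KA Pool.KSAT Pool.K2S Pool.PB Pool.S6C
open Pool.NV24
open Pool.T4H (Pe_mo Pe_le_sum)

/-- **The data.** `δ`: the rounding of the position; `M`: the vertical slopes and the second
derivative along the own line; `R`: the velocities; `S`: a rough bound of the polynomial. -/
structure AfD {Ω Ψ Λ : Type} (B : Ω → Prop) (Pt : Ω → Ψ) (Ln : Ω → Λ)
    (FP : Ψ → V4) (x : Ω → V4) (c : Ω → ℝ) (dL : Ω → Fin 2 → ℝ) (qP : Ψ → P4) (qL : Λ → P4)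
    (D : ℕ) (δ M R S : ℝ) : Prop where
  deg : ∀ y, (qP y).totalDegree ≤ D
  degL : ∀ s, (qL s).totalDegree ≤ D
  cl : ∀ ω, B ω → qP (Pt ω) = qL (Ln ω)
  xF : ∀ ω, B ω → ∀ o, |x ω o - FP (Pt ω) o| ≤ δ
  c1 : ∀ ω, B ω → |c ω| ≤ 1
  d1 : ∀ ω, B ω → ∀ j, |dL ω j| ≤ R
  v1 : ∀ ω, B ω → ∀ j, |eval (x ω) (pderiv (vt j) (qP (Pt ω)))| ≤ M
  j2 : ∀ ω, B ω → |eval (x ω) (dv (vec 1 (c ω) (dL ω)) (dv (vec 1 (c ω) (dL ω)) (qP (Pt ω))))| ≤ M
  ap : ∀ ω, B ω → ∀ b : V4, (∀ o, |b o - FP (Pt ω) o| ≤ 1) → |eval b (qP (Pt ω))| ≤ S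

/-- **No relation**, for closed polynomials. -/
def RelB {Ω Ψ Λ : Type} [Fintype Ω] (p : Ω → ℝ) (B : Ω → Prop) (Pt : Ω → Ψ) (Ln : Ω → Λ)
    (FP : Ψ → V4) (x : Ω → V4) (D : ℕ) (κ H : ℝ) : Prop :=
  ∀ B' : Ω → Prop, Sub B' B → κ * Pe p B ≤ Pe p B' → ∀ (Dx : Ψ → P4) (Dl : Λ → P4) (M : ℝ),
    (∀ y, (Dx y).totalDegree ≤ D) → (∀ s, (Dl s).totalDegree ≤ D) → 0 < M →
    (∀ ω, B' ω → |eval (x ω) (Dx (Pt ω))| ≤ M) → (∀ ω, B' ω → Dx (Pt ω) = Dl (Ln ω)) →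
    ∃ ω, B' ω ∧ ∀ b : V4, (∀ o, |b o - FP (Pt ω) o| ≤ 1) → |eval b (Dx (Pt ω))| ≤ H * M

/-- The three horizontal second derivatives. -/
noncomputable def h2 (k : Fin 3) (q : P4) : P4 :=
  if k = 0 then pderiv none (pderiv none q) else
    if k = 1 then pderiv none (pderiv (some 0) q) else pderiv (some 0) (pderiv (some 0) q)

theorem h2_deg {q : P4} {D : ℕ} (h : q.totalDegree ≤ D) (k : Fin 3) :
    (h2 k q).totalDegree ≤ D := by
  unfold h2
  split_ifs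
  · exact pd_deg _ (pd_deg _ h)
  · exact pd_deg _ (pd_deg _ h)
  · exact pd_deg _ (pd_deg _ h)

theorem h2_hz {q : P4} {b : V4} {s : ℝ} (h : ∀ k, |eval b (h2 k q)| ≤ s) (i k : Fin 2) :
    |eval b (pderiv (hz i) (pderiv (hz k) q))| ≤ s := by
  have h0 := h 0
  have h1 := h 1
  have h3 := h 2
  unfold h2 at h0 h1 h3
  simp only [if_true, show (1 : Fin 3) ≠ 0 by decide, show (2 : Fin 3) ≠ 0 by decide,
    show (2 : Fin 3) ≠ 1 by decide, if_false] at h0 h1 h3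
  unfold hz
  fin_cases i <;> fin_cases k <;>
    simp only [Fin.zero_eta, Fin.mk_one, if_true, show (1 : Fin 2) ≠ 0 by decide, if_false]
  · exact h0
  · exact h1
  · rw [pd_comm4]
    exact h1
  · exact h3

/-- **One point**: three own lines give the horizontal second derivatives. -/
theorem val_pt (D : ℕ) : ∃ C₂ C₃ : ℝ, 1 ≤ C₂ ∧ 1 ≤ C₃ ∧ ∀ {q : P4} {F y : V4} {x : Fin 3 → V4}
    {c : Fin 3 → ℝ} {d : Fin 3 → Fin 2 → ℝ} {M R H β δ T : ℝ}, q.totalDegree ≤ D → 0 ≤ δ → δ ≤ 1 →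
    0 < M → 1 ≤ R → 1 ≤ H → 0 < β → β ≤ 1 → 0 ≤ T → (∀ i, |c i| ≤ 1) → (∀ i j, |d i j| ≤ R) →
    (∀ i o, |x i o - F o| ≤ δ) → (∀ o, |y o - F o| ≤ δ) →
    (∀ b : V4, (∀ o, |b o - F o| ≤ 1) → ∀ j, |eval b (pderiv (vt j) q)| ≤ H * M) →
    (∀ b : V4, (∀ o, |b o - F o| ≤ 1) → ∀ k, |eval b (h2 k q)| ≤ T) →
    (∀ i, |eval (x i) (dv (vec 1 (c i) (d i)) (dv (vec 1 (c i) (d i)) q))| ≤ M) →
    (∀ i j, i ≠ j → β ≤ |c i - c j|) → ∀ k, |eval y (h2 k q)| ≤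
      13 * (2 * (C₂ * R ^ 2 * (H * M)) + 4 * (C₃ * T * δ)) / β ^ 2 := by
  obtain ⟨C₂, hC₂, hhor⟩ := hor_two D
  obtain ⟨C₃, hC₃, hlip⟩ := bx_lip D
  refine ⟨C₂, C₃, hC₂, hC₃, ?_⟩
  intro q F y x c d M R H β δ T hq hδ0 hδ1 hM hR hH hβ hβ1 hT hc hd hx hy hv hup hj hs k
  have hb2 : 0 < β ^ 2 := by positivity
  have hb21 : β ^ 2 ≤ 1 := by nlinarith
  obtain ⟨R₃, hR₃⟩ : ∃ R₃ : ℝ, R₃ = 2 * (C₂ * R ^ 2 * (H * M)) + 4 * (C₃ * T * δ) := ⟨_, rfl⟩
  have hR₃0 : 0 ≤ R₃ := by rw [hR₃]; positivity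
  rw [← hR₃]
  have hFF : ∀ o, |F o - F o| ≤ 1 := fun o => by
    rw [sub_self, abs_zero]
    exact zero_le_one
  have key : ∀ i : Fin 3, |eval F (pderiv none (pderiv none q)) +
      2 * c i * eval F (pderiv none (pderiv (some 0) q)) +
      c i ^ 2 * eval F (pderiv (some 0) (pderiv (some 0) q))| ≤ R₃ := by
    intro i
    have k1 := hhor q F (x i) (H * M) R (c i) (d i) hq (by positivity) hR (hc i) (hd i)
      (fun o => (hx i o).trans hδ1) hv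
    have k2 := hj i
    have hl : ∀ k, |eval (x i) (h2 k q) - eval F (h2 k q)| ≤ C₃ * T * δ := fun k =>
      hlip (h2 k q) F _ _ T δ (h2_deg hq k) hT hδ0 (fun b hb => hup b hb k)
        (fun o => (hx i o).trans hδ1) hFF (hx i)
    have l0 := hl 0
    have l1 := hl 1
    have l2 := hl 2
    unfold h2 at l0 l1 l2
    simp only [if_true, show (1 : Fin 3) ≠ 0 by decide, show (2 : Fin 3) ≠ 0 by decide,
      show (2 : Fin 3) ≠ 1 by decide, if_false] at l0 l1 l2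
    have hc2 : c i ^ 2 ≤ 1 := by
      have := pow_le_one₀ (n := 2) (abs_nonneg _) (hc i)
      rwa [sq_abs] at this
    have m1 : |2 * c i * (eval (x i) (pderiv none (pderiv (some 0) q)) -
        eval F (pderiv none (pderiv (some 0) q)))| ≤ 2 * (C₃ * T * δ) := by
      rw [abs_mul, abs_mul, abs_of_pos (by norm_num : (0 : ℝ) < 2)]
      have := mul_le_mul (hc i) l1 (abs_nonneg _) zero_le_one
      linarith
    have m2 : |c i ^ 2 * (eval (x i) (pderiv (some 0) (pderiv (some 0) q)) -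
        eval F (pderiv (some 0) (pderiv (some 0) q)))| ≤ C₃ * T * δ := by
      rw [abs_mul, abs_of_nonneg (sq_nonneg _)]
      have := mul_le_mul hc2 l2 (abs_nonneg _) zero_le_one
      linarith
    have k3 : M ≤ C₂ * R ^ 2 * (H * M) := by
      have a1 : 1 ≤ C₂ * R ^ 2 * H := one_le_mul_of_one_le_of_one_le
        (one_le_mul_of_one_le_of_one_le hC₂ (one_le_pow₀ hR)) hH
      calc M ≤ C₂ * R ^ 2 * H * M := le_mul_of_one_le_left hM.le a1
        _ = _ := by ring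
    have e1 : C₂ * R ^ 2 * (H * M) = C₂ * R ^ 2 * (H * M) := rfl
    rw [mul_sub] at m1 m2
    rw [hR₃, abs_le]
    have k1' := abs_le.1 k1
    have k2' := abs_le.1 k2
    have l0' := abs_le.1 l0
    have m1' := abs_le.1 m1
    have m2' := abs_le.1 m2
    constructor <;> linarith [k1'.1, k1'.2, k2'.1, k2'.2, l0'.1, l0'.2, m1'.1, m1'.2, m2'.1,
      m2'.2, k3]
  have h3 := three_q hβ hβ1 hR₃0 hc hs key
  have h4 : |eval F (h2 k q)| ≤ 12 * R₃ / β ^ 2 := by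
    have d1 : 4 * R₃ / β ^ 2 ≤ 12 * R₃ / β ^ 2 :=
      div_le_div_of_nonneg_right (by linarith) hb2.le
    have d2 : 3 * R₃ / β ^ 2 ≤ 12 * R₃ / β ^ 2 :=
      div_le_div_of_nonneg_right (by linarith) hb2.le
    unfold h2
    split_ifs
    · exact h3.1
    · exact h3.2.1.trans d1
    · exact h3.2.2.trans d2
  have h5 := hlip (h2 k q) F y F T δ (h2_deg hq k) hT hδ0 (fun b hb => hup b hb k)
    (fun o => (hy o).trans hδ1) hFF hy
  have h6 : C₃ * T * δ ≤ R₃ / β ^ 2 := by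
    have a1 : C₃ * T * δ ≤ R₃ := by
      rw [hR₃]
      have : 0 ≤ C₂ * R ^ 2 * (H * M) := by positivity
      have : 0 ≤ C₃ * T * δ := by positivity
      linarith
    refine a1.trans ?_
    rw [le_div_iff₀ hb2]
    nlinarith
  have h7 : |eval y (h2 k q)| ≤ |eval F (h2 k q)| + |eval y (h2 k q) - eval F (h2 k q)| := by
    have := abs_add_le (eval F (h2 k q)) (eval y (h2 k q) - eval F (h2 k q))
    rwa [add_sub_cancel] at this
  have e1 : 13 * R₃ / β ^ 2 = 12 * R₃ / β ^ 2 + R₃ / β ^ 2 := by ring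
  rw [e1]
  linarith

/-- The numbers of one scale. -/
theorem scale_num {C C₂ C₃ H R M β L δ si s₀ : ℝ} (c3 : 104 * C₂ ≤ C) (c4 : 104 * C₃ ≤ C)
    (hH : 0 < H) (hR : 0 < R) (hM : 0 < M) (hβ : 0 < β) (hL : 0 ≤ L)
    (hδ : 0 ≤ δ) (hsi : 0 < si) (hs : s₀ ≤ si) (hs₀ : s₀ = C * H ^ 2 * R ^ 2 * M / β ^ 2)
    (hLδ : C * H * L * δ ≤ β ^ 2)
    (h : si < H * (13 * (2 * (C₂ * R ^ 2 * (H * M)) + 4 * (C₃ * (L * si) * δ)) / β ^ 2)) :
    False := by
  have hb2 : 0 < β ^ 2 := by positivity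
  obtain ⟨X, hX⟩ : ∃ X : ℝ, X = H ^ 2 * R ^ 2 * M / β ^ 2 := ⟨_, rfl⟩
  have hX0 : 0 ≤ X := by rw [hX]; positivity
  have e1 : H * (13 * (2 * (C₂ * R ^ 2 * (H * M)) + 4 * (C₃ * (L * si) * δ)) / β ^ 2) =
      26 * C₂ * X + 52 * C₃ * H * L * δ / β ^ 2 * si := by
    rw [hX]
    field_simp
    ring
  have e2 : s₀ = C * X := by rw [hs₀, hX]; ring
  have g1 : 52 * C₃ * H * L * δ / β ^ 2 ≤ 1 / 2 := by
    rw [div_le_iff₀ hb2]
    have : 104 * C₃ * (H * L * δ) ≤ C * (H * L * δ) :=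
      mul_le_mul_of_nonneg_right c4 (by positivity)
    nlinarith
  have g2 : 26 * C₂ * X ≤ si / 4 := by
    have : 104 * C₂ * X ≤ C * X := mul_le_mul_of_nonneg_right c3 hX0
    linarith
  have g3 := mul_le_mul_of_nonneg_right g1 hsi.le
  rw [e1] at h
  linarith

/-- **The law lemma.** -/
theorem afd (D : ℕ) : ∃ C : ℝ, 1 ≤ C ∧ ∀ {Ω Ψ Λ : Type} [Fintype Ω] {p : Ω → ℝ} {B : Ω → Prop}
    {Pt : Ω → Ψ} {Ln : Ω → Λ} {FP : Ψ → V4} {x : Ω → V4} {c : Ω → ℝ} {dL : Ω → Fin 2 → ℝ}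
    {qP : Ψ → P4} {qL : Λ → P4} {δ M R S κ H β κ₀ κ₂ L : ℝ} {I : ℕ},
    IsLaw p → 0 < Pe p B → AfD B Pt Ln FP x c dL qP qL D δ M R S →
    RelB p B Pt Ln FP x D κ H → Fre p B Pt c β 2 κ₀ →
    0 ≤ δ → δ ≤ 1 → 0 < M → 1 ≤ R → 0 < S → 0 < κ → 1 ≤ H → 0 < β → β ≤ 1 → 0 < κ₂ → 1 ≤ I →
    6 * I * κ ≤ κ₂ → I * κ₀ ≤ κ₂ → 1 ≤ L → C * H * L * δ ≤ β ^ 2 →
    C * S ≤ L ^ I * (C * H ^ 2 * R ^ 2 * M / β ^ 2) →
    ∃ B' : Ω → Prop, Sub B' B ∧ (1 - 2 * κ - κ₂) * Pe p B ≤ Pe p B' ∧ ∀ ω, B' ω → ∀ b : V4,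
      (∀ o, |b o - FP (Pt ω) o| ≤ 1) → |eval b (qP (Pt ω)) - (eval (FP (Pt ω)) (qP (Pt ω)) +
        (b none - FP (Pt ω) none) * eval (FP (Pt ω)) (pderiv none (qP (Pt ω))) +
        (b (some 0) - FP (Pt ω) (some 0)) * eval (FP (Pt ω)) (pderiv (some 0) (qP (Pt ω))))| ≤
          C * (C * H ^ 2 * R ^ 2 * M / β ^ 2) := by
  classical
  obtain ⟨C₁, hC₁, hmk⟩ := bx_pd D
  obtain ⟨C₂, C₃, hC₂, hC₃, hvp⟩ := val_pt D
  obtain ⟨C₄, hC₄, htay⟩ := bx_aff D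
  obtain ⟨C, hC⟩ : ∃ C : ℝ, C = 104 * (C₁ ^ 2 + C₂ + C₃ + C₄) := ⟨_, rfl⟩
  have hC₁2 : 1 ≤ C₁ ^ 2 := one_le_pow₀ hC₁
  have c1 : 1 ≤ C := by rw [hC]; linarith
  have c2 : C₁ ^ 2 ≤ C := by rw [hC]; linarith
  have c3 : 104 * C₂ ≤ C := by rw [hC]; linarith
  have c4 : 104 * C₃ ≤ C := by rw [hC]; linarith
  have c5 : C₄ ≤ C := by rw [hC]; linarith
  refine ⟨C, c1, ?_⟩
  intro Ω Ψ Λ _ p B Pt Ln FP x c dL qP qL δ M R S κ H β κ₀ κ₂ L I hp hB A hrel hfre hδ0 hδ1 hM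
    hR hS hκ hH hβ hβ1 hκ₂ hI hIκ hIκ₀ hL hLδ hLS
  have h0 := hp.nonneg
  have hb2 : 0 < β ^ 2 := by positivity
  have hb21 : β ^ 2 ≤ 1 := by nlinarith
  have hI0 : (1 : ℝ) ≤ I := by exact_mod_cast hI
  have hH0 : 0 < H := by linarith
  have hR0 : 0 < R := by linarith
  obtain ⟨s₀, hs₀⟩ : ∃ s₀ : ℝ, s₀ = C * H ^ 2 * R ^ 2 * M / β ^ 2 := ⟨_, rfl⟩
  have hs00 : 0 < s₀ := by rw [hs₀]; positivity
  rw [← hs₀] at hLS ⊢
  have hHM : H * M ≤ s₀ := by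
    rw [hs₀, le_div_iff₀ hb2]
    have k1 : H * M * β ^ 2 ≤ H * M := by
      have : 0 ≤ H * M := by positivity
      nlinarith
    have k2 : 1 ≤ C * H * R ^ 2 := by
      have a1 : 1 ≤ R ^ 2 := one_le_pow₀ hR
      have a2 : 1 ≤ C * H := one_le_mul_of_one_le_of_one_le c1 hH
      exact one_le_mul_of_one_le_of_one_le a2 a1
    have k3 : H * M ≤ C * H * R ^ 2 * (H * M) := le_mul_of_one_le_left (by positivity) k2
    calc H * M * β ^ 2 ≤ H * M := k1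
      _ ≤ C * H * R ^ 2 * (H * M) := k3
      _ = _ := by ring
  -- the vertical derivatives
  obtain ⟨Bv, hBv⟩ : ∃ Bv : Fin 2 → Ω → Prop, Bv = fun j ω => B ω ∧
      ∃ b : V4, (∀ o, |b o - FP (Pt ω) o| ≤ 1) ∧ H * M < |eval b (pderiv (vt j) (qP (Pt ω)))| :=
    ⟨_, rfl⟩
  have hBvm : ∀ j, Pe p (Bv j) ≤ κ * Pe p B := by
    intro j
    by_contra hcon
    push Not at hcon
    obtain ⟨ω, h1, h2⟩ := hrel (Bv j) (fun ω h => by rw [hBv] at h; exact h.1) hcon.le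
      (fun y => pderiv (vt j) (qP y)) (fun s => pderiv (vt j) (qL s)) M
      (fun y => pd_deg _ (A.deg y)) (fun s => pd_deg _ (A.degL s)) hM
      (fun ω h => A.v1 ω (by rw [hBv] at h; exact h.1) j)
      (fun ω h => by rw [A.cl ω (by rw [hBv] at h; exact h.1)])
    rw [hBv] at h1
    obtain ⟨-, b, hb, hb'⟩ := h1
    exact absurd (h2 b hb) (not_le.2 hb')
  obtain ⟨G1, hG1⟩ : ∃ G1 : Ω → Prop, G1 = fun ω => B ω ∧ ∀ j, ¬ Bv j ω := ⟨_, rfl⟩
  have hG1v : ∀ ω, G1 ω → ∀ b : V4, (∀ o, |b o - FP (Pt ω) o| ≤ 1) → ∀ j,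
      |eval b (pderiv (vt j) (qP (Pt ω)))| ≤ H * M := by
    intro ω h b hb j
    rw [hG1] at h
    by_contra hcon
    push Not at hcon
    exact h.2 j (by rw [hBv]; exact ⟨h.1, b, hb, hcon⟩)
  have hG1B : Sub G1 B := fun ω h => by rw [hG1] at h; exact h.1
  -- the horizontal second derivatives
  obtain ⟨Bd, hBd⟩ : ∃ Bd : ℝ → Ω → Prop, Bd = fun s ω => G1 ω ∧ ∃ (b : V4) (k : Fin 3),
      (∀ o, |b o - FP (Pt ω) o| ≤ 1) ∧ s < |eval b (h2 k (qP (Pt ω)))| := ⟨_, rfl⟩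
  have hBdB : ∀ s, Sub (Bd s) B := fun s ω h => by rw [hBd] at h; exact hG1B ω h.1
  -- the largest scale
  have hTop : ∀ ω, ¬ Bd (L ^ I * s₀) ω := by
    intro ω h
    rw [hBd] at h
    obtain ⟨h1, b, k, hb, hb'⟩ := h
    have h2 : ∀ (q : P4), q.totalDegree ≤ D → ∀ T : ℝ, (∀ b : V4, (∀ o, |b o - FP (Pt ω) o| ≤ 1) →
        |eval b q| ≤ T) → ∀ o o', |eval b (pderiv o (pderiv o' q))| ≤ C₁ * (C₁ * T) := fun q hq T hT
      o o' => hmk (pderiv o' q) (FP (Pt ω)) _ (pd_deg _ hq)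
        (fun b' hb' => hmk q (FP (Pt ω)) T hq hT b' hb' o') b hb o
    have h3 := h2 (qP (Pt ω)) (A.deg _) S (A.ap ω (hG1B ω h1))
    have h4 : |eval b (AFK25.h2 k (qP (Pt ω)))| ≤ C₁ * (C₁ * S) := by
      unfold AFK25.h2
      split_ifs
      · exact h3 _ _
      · exact h3 _ _
      · exact h3 _ _
    have h5 : C₁ * (C₁ * S) ≤ C * S := by
      have := mul_le_mul_of_nonneg_right c2 hS.le
      linarith
    linarith
  -- one scale
  have hscale : ∀ i < I, Pe p (fun ω => Bd (L ^ i * s₀) ω ∧ ¬ Bd (L ^ (i + 1) * s₀) ω) ≤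
      κ₂ / I * Pe p B := by
    intro i hi
    by_contra hcon
    push Not at hcon
    obtain ⟨E, hE⟩ : ∃ E : Ω → Prop, E = fun ω => Bd (L ^ i * s₀) ω ∧ ¬ Bd (L ^ (i + 1) * s₀) ω :=
      ⟨_, rfl⟩
    rw [← hE] at hcon
    have hEB : Sub E B := fun ω h => by rw [hE] at h; exact hBdB _ ω h.1
    obtain ⟨si, hsi⟩ : ∃ si : ℝ, si = L ^ i * s₀ := ⟨_, rfl⟩
    have hLi : 1 ≤ L ^ i := one_le_pow₀ hL
    have hsi0 : s₀ ≤ si := by
      rw [hsi]
      exact le_mul_of_one_le_left hs00.le hLi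
    have hsip : 0 < si := by linarith
    have hL0 : 0 < L := by linarith
    -- the upper bound on the box
    have hup : ∀ ω, E ω → ∀ b : V4, (∀ o, |b o - FP (Pt ω) o| ≤ 1) → ∀ k,
        |eval b (h2 k (qP (Pt ω)))| ≤ L * si := by
      intro ω h b hb k
      rw [hE] at h
      by_contra hc2
      push Not at hc2
      refine h.2 ?_
      have h1 := h.1
      rw [hBd] at h1 ⊢
      refine ⟨h1.1, b, k, hb, ?_⟩
      rw [pow_succ, mul_comm (L ^ i) L, mul_assoc, ← hsi]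
      exact hc2
    -- the values at the three samples
    obtain ⟨B1, hB1, hB1m, hB1f⟩ := hfre E hEB (by
      refine le_trans ?_ hcon.le
      refine mul_le_mul_of_nonneg_right ?_ hB.le
      rw [le_div_iff₀ (by linarith)]
      linarith)
    obtain ⟨R₃, hR₃⟩ : ∃ R₃ : ℝ, R₃ = 2 * (C₂ * R ^ 2 * (H * M)) + 4 * (C₃ * (L * si) * δ) :=
      ⟨_, rfl⟩
    have hval : ∀ ω, B1 ω → ∀ k, |eval (x ω) (h2 k (qP (Pt ω)))| ≤ 13 * R₃ / β ^ 2 := by
      intro ω hω k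
      obtain ⟨ν, hν, hsep⟩ := hB1f ω hω
      have hωE := hB1 ω hω
      have hνB : ∀ i : Fin 3, B (ν i) := fun i => hEB _ (hν i (by omega)).1
      have hνP : ∀ i : Fin 3, Pt (ν i) = Pt ω := fun i => (hν i (by omega)).2
      have hG : G1 ω := by
        rw [hE] at hωE
        have := hωE.1
        rw [hBd] at this
        exact this.1
      rw [hR₃]
      exact hvp (A.deg (Pt ω)) hδ0 hδ1 hM hR hH hβ hβ1 (by positivity)
        (x := fun i : Fin 3 => x (ν i)) (c := fun i : Fin 3 => c (ν i))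
        (d := fun i : Fin 3 => dL (ν i)) (fun i => A.c1 _ (hνB i)) (fun i j => A.d1 _ (hνB i) j)
        (fun i o => by
          have := A.xF _ (hνB i) o
          rwa [hνP i] at this) (A.xF ω (hEB _ hωE)) (hG1v ω hG) (fun b hb k => hup ω hωE b hb k)
        (fun i => by
          have := A.j2 _ (hνB i)
          rwa [hνP i] at this)
        (fun i j hij => hsep i (by omega) j (by omega) fun h => hij (Fin.ext h)) k
    -- the part where one derivative is large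
    obtain ⟨Ek, hEk⟩ : ∃ Ek : Fin 3 → Ω → Prop, Ek = fun k ω => B1 ω ∧
        ∃ b : V4, (∀ o, |b o - FP (Pt ω) o| ≤ 1) ∧ si < |eval b (h2 k (qP (Pt ω)))| := ⟨_, rfl⟩
    have hsum := Pe_le_sum h0 (n := 3) (E := B1) (F := Ek) (fun ω _ hω => by
      have h1 := hB1 ω hω
      rw [hE] at h1
      have h3 := h1.1
      rw [hBd] at h3
      obtain ⟨-, b, k, hb, hb'⟩ := h3
      refine ⟨k, ?_⟩
      rw [hEk]
      refine ⟨hω, b, hb, ?_⟩
      rw [hsi]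
      exact hb')
    obtain ⟨k, hk⟩ : ∃ k, Pe p B1 / 3 ≤ Pe p (Ek k) := by
      by_contra hc2
      push Not at hc2
      rw [Fin.sum_univ_three] at hsum
      have := hc2 0
      have := hc2 1
      have := hc2 2
      linarith
    have hEkB : Sub (Ek k) B := fun ω h => by
      rw [hEk] at h
      exact hEB ω (hB1 ω h.1)
    obtain ⟨ω, h1, h3⟩ := hrel (Ek k) hEkB (by
      have a1 : κ ≤ κ₂ / I / 6 := by
        rw [le_div_iff₀ (by norm_num), le_div_iff₀ (by linarith)]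
        linarith
      have a2 := mul_le_mul_of_nonneg_right a1 hB.le
      have a3 : κ₂ / I / 6 * Pe p B = κ₂ / I * Pe p B / 6 := by ring
      linarith) (fun y => h2 k (qP y)) (fun s => h2 k (qL s)) (13 * R₃ / β ^ 2)
      (fun y => h2_deg (A.deg y) k) (fun s => h2_deg (A.degL s) k) (by
        have : 0 < C₂ * R ^ 2 * (H * M) := by positivity
        have : 0 ≤ C₃ * (L * si) * δ := by positivity
        have : 0 < R₃ := by rw [hR₃]; linarith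
        positivity)
      (fun ω h => by
        rw [hEk] at h
        exact hval ω h.1 k)
      (fun ω h => by rw [A.cl ω (hEkB ω h)])
    rw [hEk] at h1
    obtain ⟨-, b, hb, hb'⟩ := h1
    have h5 := h3 b hb
    rw [hR₃] at h5
    exact scale_num c3 c4 hH0 hR0 hM hβ hL0.le hδ0 hsip hsi0 hs₀ hLδ
      (lt_of_lt_of_le hb' h5)
  have hBd0 : Pe p (Bd s₀) ≤ κ₂ * Pe p B := by
    have h1 := Pe_le_sum h0 (n := I) (E := Bd s₀)
      (F := fun i ω => Bd (L ^ (i : ℕ) * s₀) ω ∧ ¬ Bd (L ^ ((i : ℕ) + 1) * s₀) ω)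
      (fun ω _ hω => by
        have hex : ∃ i, ¬ Bd (L ^ i * s₀) ω := ⟨I, hTop ω⟩
        have h2 := Nat.find_spec hex
        have h3 : Nat.find hex ≠ 0 := fun h4 => by
          rw [h4, pow_zero, one_mul] at h2
          exact h2 hω
        obtain ⟨n, hn⟩ := Nat.exists_eq_succ_of_ne_zero h3
        have h4 : Nat.find hex ≤ I := Nat.find_min' hex (hTop ω)
        have h5 := Nat.find_min hex (m := n) (by omega)
        refine ⟨⟨n, by omega⟩, not_not.1 h5, ?_⟩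
        rw [hn] at h2
        exact h2)
    refine h1.trans ((Finset.sum_le_sum fun (i : Fin I) _ => hscale (i : ℕ) i.2).trans (le_of_eq ?_))
    rw [Finset.sum_const, Finset.card_univ, Fintype.card_fin, nsmul_eq_mul]
    have : (I : ℝ) ≠ 0 := by linarith
    field_simp
  refine ⟨fun ω => G1 ω ∧ ¬ Bd s₀ ω, fun ω h => hG1B ω h.1, ?_, fun ω hω b hb => ?_⟩
  · have h1 : Pe p B ≤ Pe p (fun ω => G1 ω ∧ ¬ Bd s₀ ω) + (Pe p (Bv 0) + (Pe p (Bv 1) +
        Pe p (Bd s₀))) := by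
      refine (Pe_mo h0 (B := fun ω => (G1 ω ∧ ¬ Bd s₀ ω) ∨ (Bv 0 ω ∨ (Bv 1 ω ∨ Bd s₀ ω)))
        fun ω h => ?_).trans ((Pool.T4H.Pe_or h0 _ _).trans (add_le_add le_rfl
          ((Pool.T4H.Pe_or h0 _ _).trans (add_le_add le_rfl (Pool.T4H.Pe_or h0 _ _)))))
      by_cases h2 : Bd s₀ ω
      · exact Or.inr (Or.inr (Or.inr h2))
      · by_cases h3 : Bv 0 ω
        · exact Or.inr (Or.inl h3)
        · by_cases h4 : Bv 1 ω
          · exact Or.inr (Or.inr (Or.inl h4))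
          · refine Or.inl ⟨?_, h2⟩
            rw [hG1]
            exact ⟨h, fun j => by fin_cases j; exacts [h3, h4]⟩
    have h2 := hBvm 0
    have h3 := hBvm 1
    linarith
  · have h1 : ∀ b : V4, (∀ o, |b o - FP (Pt ω) o| ≤ 1) → ∀ k,
        |eval b (h2 k (qP (Pt ω)))| ≤ s₀ := by
      intro b hb k
      by_contra hcon
      push Not at hcon
      refine hω.2 ?_
      rw [hBd]
      exact ⟨hω.1, b, k, hb, hcon⟩
    have h3 := htay (qP (Pt ω)) (FP (Pt ω)) s₀ (A.deg _) hs00.le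
      (fun b hb j => (hG1v ω hω.1 b hb j).trans hHM)
      (fun b hb i k => h2_hz (h1 b hb) i k) b hb
    refine h3.trans (mul_le_mul_of_nonneg_right c5 hs00.le)

end Pool.AFK25
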