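import Pool.Agent.H25.AFK.Evt
import Pool.Agent.H23.D2.Grd2
import Pool.Agent.H91.LA.Fml

/-!
# The natural bounds at a window

`pcb`: the slopes of the affine labels and of the ball charts. `rnd_le`: the rounding of the natural
position. `gnh_le`: the relative gradient in terms of derivatives. `v1_le`, `d1_le`, `j2_le`,
`own_le`: the fields of `AkW`.
-/

set_option autoImplicit false

namespace Pool.AFK25

open Finset Real MvPolynomial
open Pool.Agent.H49.Ent Pool.Agent.H32.Dense Pool.STK Pool.KA Pool.KSAT Pool.K2S Pool.PB Pool.S6C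
open Pool.GEN hiding dv
open Pool.CHT Pool.ISO Pool.D2R Pool.NV24
open Pool.NVA91 (pc_pd aff_ev pc_dep pc_sub sum_pc1 sum_pc2 pos_rnd)
open Pool.LA91 (jet lp eval_alp jet_sub ojet)

variable {m J : ℕ}

theorem dd_single (Q : MvPolynomial (Option (Fin m)) ℝ) (x : Option (Fin m) → ℝ)
    (o : Option (Fin m)) (a : ℝ) :
    dd Q x (Pi.single o a) = eval x (pderiv o Q) * a := by
  classical
  unfold dd
  rw [Finset.sum_eq_single o]
  · rw [Pi.single_eq_same]
  · intro o' _ ho'
    rw [Pi.single_eq_of_ne ho', mul_zero]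
  · intro h
    exact (h (mem_univ _)).elim

section

variable {c : ℕ → Fin m} {G : ℕ → MvPolynomial (Option (Fin m)) ℝ} {x : Option (Fin m) → ℝ}

/-- No derivative of a chart in the direction of a later place. -/
theorem pz {i l : ℕ} (hc : Set.InjOn c (Set.Iio 4)) (_ : i < 4) (hl : l < 4) (hil : i ≤ l)
    {Q : MvPolynomial (Option (Fin m)) ℝ} (hQ : DepC c i Q) :
    eval x (pderiv (some (c l)) Q) = 0 := by
  refine pd_zero hQ (fun l' hl' h => ?_) x
  have := hc (Set.mem_Iio.2 (show l' < 4 by omega)) (Set.mem_Iio.2 hl) h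
  omega

theorem ne4 (hc : Set.InjOn c (Set.Iio 4)) {i l : ℕ} (hi : i < 4) (hl : l < 4) (h : i ≠ l) :
    c i ≠ c l := fun e => h (hc (Set.mem_Iio.2 hi) (Set.mem_Iio.2 hl) e)

theorem sne (hc : Set.InjOn c (Set.Iio 4)) {i l : ℕ} (hi : i < 4) (hl : l < 4) (h : i ≠ l)
    (a : ℝ) : (Pi.single (some (c l)) a : Option (Fin m) → ℝ) (some (c i)) = 0 := by
  rw [Pi.single_eq_of_ne (fun e => ne4 hc hi hl h (Option.some_injective _ e))]

/-- The direction of the place `1`, adapted. -/
theorem wv1 (hc : Set.InjOn c (Set.Iio 4)) (hG : ∀ l, DepC c l (G l)) (a : ℝ) :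
    (Pi.single (some (c 1)) a + Pi.single (some (c 2)) (eval x (pderiv (some (c 1)) (G 2)) * a) :
      Option (Fin m) → ℝ) none = 0 ∧ ∀ l < 3,
      (Pi.single (some (c 1)) a + Pi.single (some (c 2)) (eval x (pderiv (some (c 1)) (G 2)) * a) :
        Option (Fin m) → ℝ) (some (c l)) - dd (G l) x (Pi.single (some (c 1)) a +
          Pi.single (some (c 2)) (eval x (pderiv (some (c 1)) (G 2)) * a)) =
        if l = 1 then a else 0 := by
  classical
  constructor
  · rw [Pi.add_apply, Pi.single_eq_of_ne (by simp), Pi.single_eq_of_ne (by simp), add_zero]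
  · intro l hl
    rw [dd_add, dd_single, dd_single, Pi.add_apply,
      pz hc (by omega) (by norm_num) (show l ≤ 2 by omega) (hG l)]
    have : l = 0 ∨ l = 1 ∨ l = 2 := by omega
    rcases this with rfl | rfl | rfl
    · rw [pz hc (by norm_num) (by norm_num) (by norm_num) (hG 0),
        sne hc (i := 0) (l := 1) (by norm_num) (by norm_num) (by norm_num),
        sne hc (i := 0) (l := 2) (by norm_num) (by norm_num) (by norm_num)]
      simp
    · rw [pz hc (by norm_num) (by norm_num) le_rfl (hG 1), Pi.single_eq_same,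
        sne hc (i := 1) (l := 2) (by norm_num) (by norm_num) (by norm_num)]
      simp
    · rw [Pi.single_eq_same, sne hc (i := 2) (l := 1) (by norm_num) (by norm_num) (by norm_num)]
      simp

/-- The direction of the place `2`. -/
theorem wv2 (hc : Set.InjOn c (Set.Iio 4)) (hG : ∀ l, DepC c l (G l)) (a : ℝ) :
    (Pi.single (some (c 2)) a : Option (Fin m) → ℝ) none = 0 ∧ ∀ l < 3,
      (Pi.single (some (c 2)) a : Option (Fin m) → ℝ) (some (c l)) -
        dd (G l) x (Pi.single (some (c 2)) a) = if l = 2 then a else 0 := by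
  classical
  constructor
  · rw [Pi.single_eq_of_ne (by simp)]
  · intro l hl
    rw [dd_single, pz hc (by omega) (by norm_num) (show l ≤ 2 by omega) (hG l)]
    have : l = 0 ∨ l = 1 ∨ l = 2 := by omega
    rcases this with rfl | rfl | rfl
    · rw [sne hc (i := 0) (l := 2) (by norm_num) (by norm_num) (by norm_num)]
      simp
    · rw [sne hc (i := 1) (l := 2) (by norm_num) (by norm_num) (by norm_num)]
      simp
    · rw [Pi.single_eq_same]
      simp

/-- The direction of the place `0`, adapted to the place `1`. -/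
theorem wv0 (hc : Set.InjOn c (Set.Iio 4)) (hG : ∀ l, DepC c l (G l)) (a : ℝ) :
    (Pi.single (some (c 0)) a + Pi.single (some (c 1)) (eval x (pderiv (some (c 0)) (G 1)) * a) :
      Option (Fin m) → ℝ) none = 0 ∧ ∀ l < 2,
      (Pi.single (some (c 0)) a + Pi.single (some (c 1)) (eval x (pderiv (some (c 0)) (G 1)) * a) :
        Option (Fin m) → ℝ) (some (c l)) - dd (G l) x (Pi.single (some (c 0)) a +
          Pi.single (some (c 1)) (eval x (pderiv (some (c 0)) (G 1)) * a)) =
        if l = 0 then a else 0 := by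
  classical
  constructor
  · rw [Pi.add_apply, Pi.single_eq_of_ne (by simp), Pi.single_eq_of_ne (by simp), add_zero]
  · intro l hl
    rw [dd_add, dd_single, dd_single, Pi.add_apply,
      pz hc (by omega) (by norm_num) (show l ≤ 1 by omega) (hG l)]
    have : l = 0 ∨ l = 1 := by omega
    rcases this with rfl | rfl
    · rw [pz hc (by norm_num) (by norm_num) le_rfl (hG 0), Pi.single_eq_same,
        sne hc (i := 0) (l := 1) (by norm_num) (by norm_num) (by norm_num)]
      simp
    · rw [Pi.single_eq_same, sne hc (i := 1) (l := 0) (by norm_num) (by norm_num) (by norm_num)]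
      simp

end

/-- **The slopes of the affine labels** are near the slopes of the ball charts. -/
theorem pcb (D : ℕ) (hD : 1 ≤ D) : ∃ C : ℝ, 1 ≤ C ∧ ∀ {m : ℕ} {c : ℕ → Fin m}
    {G : ℕ → MvPolynomial (Option (Fin m)) ℝ} {g : ℕ → ℕ} {w : ℕ} {x : Option (Fin m) → ℝ}
    {U V : MvPolynomial (Option (Fin m)) ℝ} {M1 M2 : ℝ}, Set.InjOn c (Set.Iio 4) →
    (∀ l, (G l).totalDegree ≤ D) → (∀ l, DepC c l (G l)) → U.totalDegree ≤ 1 →
    V.totalDegree ≤ 1 → DepC c 1 U → DepC c 2 V → 0 ≤ M1 → 0 ≤ M2 →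
    (∀ b, NBx c G g w (x none) 1 b → |eval b U - eval b (G 1)| ≤ M1) →
    (∀ b, NBx c G g w (x none) 2 b → |eval b V - eval b (G 2)| ≤ M2) →
    (∀ l < 3, |x (some (c l)) - eval x (G l)| ≤ 1 / 2 ^ g l) →
    |pc U (some (c 0)) - eval x (pderiv (some (c 0)) (G 1))| ≤ C * M1 * 2 ^ g 0 ∧
    |pc V (some (c 1)) - eval x (pderiv (some (c 1)) (G 2))| ≤ C * M2 * 2 ^ g 1 ∧
    |(pc V (some (c 0)) - eval x (pderiv (some (c 0)) (G 2))) +
      eval x (pderiv (some (c 0)) (G 1)) *
        (pc V (some (c 1)) - eval x (pderiv (some (c 1)) (G 2)))| ≤ C * M2 * 2 ^ g 0 := by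
  classical
  obtain ⟨C₁, hC₁, hb1⟩ := box_nat 1 D D
  obtain ⟨C₂, hC₂, hb2⟩ := box_nat 2 D D
  refine ⟨C₁ + C₂, by linarith, ?_⟩
  intro m c G g w x U V M1 M2 hc hGd hG dU dV hU hV hM1 hM2 h1 h2 hx
  have hc2 : Set.InjOn c (Set.Iio 2) := hc.mono (Set.Iio_subset_Iio (by omega))
  have hc1 : Set.InjOn c (Set.Iio 1) := hc.mono (Set.Iio_subset_Iio (by omega))
  have hfin : ∀ {y S a : ℝ} {n : ℕ}, |a| ≤ y → a = S * (1 / 2 ^ n) → |S| ≤ y * 2 ^ n := by
    intro y S a n h e
    rw [e, abs_mul, abs_of_pos (show (0 : ℝ) < 1 / 2 ^ n by positivity), mul_one_div,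
      div_le_iff₀ (by positivity)] at h
    exact h
  have hw0 : |(0 : ℝ)| ≤ 1 / 2 ^ w := by
    rw [abs_zero]
    positivity
  refine ⟨?_, ?_, ?_⟩
  · obtain ⟨W, hW⟩ : ∃ W : Option (Fin m) → ℝ, W = Pi.single (some (c 0)) (1 / 2 ^ g 0) := ⟨_, rfl⟩
    have e0 : W none = 0 := by rw [hW, Pi.single_eq_of_ne (by simp)]
    have k := (hb1 (Q := U - G 1) (M := M1) hc1 hGd hG (dep_sub' hU (hG 1))
      ((totalDegree_sub _ _).trans (max_le (dU.trans hD) (hGd 1))) hM1 (fun b hb => by
        rw [map_sub]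
        exact h1 b hb) (fun l hl => hx l (by omega)) W (by rw [e0]; exact hw0) (fun l hl => by
        have : l = 0 := by omega
        rw [this, hW, dd_single, Pi.single_eq_same, pz hc (by norm_num) (by norm_num) le_rfl (hG 0),
          zero_mul, sub_zero, abs_of_pos (by positivity)])).1
    rw [hW, dd_single, map_sub, map_sub, pc_pd dU] at k
    refine (hfin k rfl).trans ?_
    have : C₁ * M1 ≤ (C₁ + C₂) * M1 := mul_le_mul_of_nonneg_right (by linarith) hM1
    exact mul_le_mul_of_nonneg_right this (by positivity)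
  · obtain ⟨W, hW⟩ : ∃ W : Option (Fin m) → ℝ, W = Pi.single (some (c 1)) (1 / 2 ^ g 1) := ⟨_, rfl⟩
    have e0 : W none = 0 := by rw [hW, Pi.single_eq_of_ne (by simp)]
    have k := (hb2 (Q := V - G 2) (M := M2) hc2 hGd hG (dep_sub' hV (hG 2))
      ((totalDegree_sub _ _).trans (max_le (dV.trans hD) (hGd 2))) hM2 (fun b hb => by
        rw [map_sub]
        exact h2 b hb) (fun l hl => hx l (by omega)) W (by rw [e0]; exact hw0) (fun l hl => by
        have hll : l = 0 ∨ l = 1 := by omega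
        rw [hW, dd_single, pz hc (by omega) (by norm_num) (show l ≤ 1 by omega) (hG l), zero_mul,
          sub_zero]
        rcases hll with rfl | rfl
        · rw [sne hc (i := 0) (l := 1) (by norm_num) (by norm_num) (by norm_num), abs_zero]
          positivity
        · rw [Pi.single_eq_same, abs_of_pos (by positivity)])).1
    rw [hW, dd_single, map_sub, map_sub, pc_pd dV] at k
    refine (hfin k rfl).trans ?_
    have : C₂ * M2 ≤ (C₁ + C₂) * M2 := mul_le_mul_of_nonneg_right (by linarith) hM2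
    exact mul_le_mul_of_nonneg_right this (by positivity)
  · have hv := wv0 (x := x) hc hG (1 / 2 ^ g 0)
    have k := (hb2 (Q := V - G 2) (M := M2) hc2 hGd hG (dep_sub' hV (hG 2))
      ((totalDegree_sub _ _).trans (max_le (dV.trans hD) (hGd 2))) hM2 (fun b hb => by
        rw [map_sub]
        exact h2 b hb) (fun l hl => hx l (by omega)) (Pi.single (some (c 0)) (1 / 2 ^ g 0) +
          Pi.single (some (c 1)) (eval x (pderiv (some (c 0)) (G 1)) * (1 / 2 ^ g 0)))
        (by rw [hv.1]; exact hw0) (fun l hl => by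
        rw [hv.2 l hl]
        split_ifs with h
        · rw [h, abs_of_pos (by positivity)]
        · rw [abs_zero]
          positivity)).1
    rw [dd_add, dd_single, dd_single, map_sub, map_sub, map_sub, map_sub, pc_pd dV, pc_pd dV] at k
    refine (hfin k (by ring)).trans ?_
    have : C₂ * M2 ≤ (C₁ + C₂) * M2 := mul_le_mul_of_nonneg_right (by linarith) hM2
    exact mul_le_mul_of_nonneg_right this (by positivity)

/-- **The relative gradient** in terms of the derivatives. -/
theorem gnh_pd {F : Fam m J} {c : ℕ → Fin m} (hc : Set.InjOn c (Set.Iio 4)) {g : ℕ → ℕ}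
    {G G' : PtT F → ℕ → MvPolynomial (Option (Fin m)) ℝ} (hG : ∀ y l, DepC c l (G y l))
    (hG' : ∀ y l, DepC c l (G' y l)) (ω : F.Ω) :
    gnh F c 3 g G G' ω 2 = 2 ^ g 3 / 2 ^ g 2 *
      (eval (bt F ω) (pderiv (some (c 2)) (G' (ptr F J ω) 3)) -
        eval (bt F ω) (pderiv (some (c 2)) (G (ptr F J ω) 3))) ∧
    gnh F c 3 g G G' ω 1 = 2 ^ g 3 / 2 ^ g 1 *
      ((eval (bt F ω) (pderiv (some (c 1)) (G' (ptr F J ω) 3)) -
        eval (bt F ω) (pderiv (some (c 1)) (G (ptr F J ω) 3))) +
        eval (bt F ω) (pderiv (some (c 1)) (G (ptr F J ω) 2)) *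
        (eval (bt F ω) (pderiv (some (c 2)) (G' (ptr F J ω) 3)) -
        eval (bt F ω) (pderiv (some (c 2)) (G (ptr F J ω) 3)))) := by
  have hQ : DepC c 3 (G' (ptr F J ω) 3 - G (ptr F J ω) 3) := dep_sub' (hG' _ 3) (hG _ 3)
  constructor
  · have hv := wv2 (x := bt F ω) hc (hG (ptr F J ω)) 1
    unfold gnh
    rw [ncp_eq (hG _) hQ hv.1 (fun l hl => by rw [hv.2 l hl]), dd_single, map_sub, map_sub, mul_one]
  · have hv := wv1 (x := bt F ω) hc (hG (ptr F J ω)) 1
    unfold gnh
    rw [ncp_eq (hG _) hQ hv.1 (fun l hl => by rw [hv.2 l hl]), dd_add, dd_single, dd_single,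
      map_sub, map_sub, map_sub, map_sub]
    ring

end Pool.AFK25
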