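import Pool.Agent.H25.AFK.One
import Pool.Agent.H91.LA.Own
import Pool.Agent.H60.ZCL.BTail
import Pool.Agent.H71.CDX.Cdl

/-!
# Numbers and class lemmas for the affine labels with given slopes

`afp_of`: an affine closed label. `own_bas`: the own jets on all large parts. `list_ev`: a finite
list of properties on parts. `akx_of`: the numbers of a window. `fin_num`: the final numbers.
-/

set_option autoImplicit false

namespace Pool.AFK25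

open Finset Real MvPolynomial
open Pool.Agent.H49.Ent Pool.Agent.H32.Dense Pool.STK Pool.KA Pool.KSAT Pool.K2S Pool.PB Pool.S6C
open Pool.GEN hiding dv
open Pool.CHT Pool.ISO Pool.D2R Pool.NV24
open Pool.LA91 (jet lp eval_alp jet_sub ojet own_cls Pb_cond)
open Pool.RCD
open Pool.GRD (LbP)
open Pool.BFL (Pb)
open Pool.FVL91 (coe1)

variable {m J : ℕ}

/-- An affine closed label. -/
theorem afp_of {F : Fam m J} {c : ℕ → Fin m} {l w P : ℕ} {A : F.Ω → Prop} {V : Type}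
    {z : PtT F → V} {z' : LnT F → V} {R : V → MvPolynomial (Option (Fin m)) ℝ}
    (h : LbP F ((range l).image c) (c l) 1 J w P A z z' R) :
    AfP F c l w P A (fun y => R (z y)) (fun s => R (z' s)) := by
  have hd : ∀ v, DepC c l (R v) := fun v b b' h0 h1 => h.dep v b b' h0 fun i hi => by
    obtain ⟨l', hl', rfl⟩ := Finset.mem_image.1 hi
    exact h1 l' (Finset.mem_range.1 hl')
  refine ⟨fun y => h.deg _, fun s => h.deg _, fun y => hd _, fun s => hd _,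
    fun ω hω => congrArg R (h.cls ω hω), fun ω hω => ?_⟩
  have := h.pos ω hω
  rw [← h.cls ω hω] at this
  exact this

/-- **A finite list of properties** on parts. -/
theorem list_ev {Ω : Type} [Fintype Ω] {p : Ω → ℝ} (hp : IsLaw p) {B : Ω → Prop} {q : ℝ}
    (hq : 1 ≤ q) {Φ : ℕ → (Ω → Prop) → Prop}
    (her : ∀ i, ∀ E E' : Ω → Prop, Sub E' E → Φ i E → Φ i E') (n : ℕ)
    (h : ∀ i < n, ∀ E : Ω → Prop, Sub E B → 1 / q ^ n * Pe p B ≤ Pe p E →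
      ∃ E' : Ω → Prop, Sub E' E ∧ Pe p E / q ≤ Pe p E' ∧ Φ i E') :
    ∃ E : Ω → Prop, Sub E B ∧ 1 / q ^ n * Pe p B ≤ Pe p E ∧ ∀ i < n, Φ i E := by
  have hq0 : 0 < q := by linarith
  have hB := Pe_nonneg hp B
  have key : ∀ j ≤ n, ∃ E : Ω → Prop, Sub E B ∧ 1 / q ^ j * Pe p B ≤ Pe p E ∧
      ∀ i < j, Φ i E := by
    intro j
    induction j with
    | zero =>
      intro _
      refine ⟨B, fun _ h => h, ?_, fun i hi => absurd hi (Nat.not_lt_zero i)⟩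
      rw [pow_zero, div_one, one_mul]
    | succ j ih =>
      intro hj
      obtain ⟨E, h1, h2, h3⟩ := ih (by omega)
      have hqj : q ^ j ≤ q ^ n := pow_le_pow_right₀ hq (by omega)
      have h4 : 1 / q ^ n * Pe p B ≤ Pe p E := by
        refine le_trans (mul_le_mul_of_nonneg_right ?_ hB) h2
        exact one_div_le_one_div_of_le (by positivity) hqj
      obtain ⟨E', k1, k2, k3⟩ := h j (by omega) E h1 h4
      refine ⟨E', fun ω hω => h1 ω (k1 ω hω), ?_, fun i hi => ?_⟩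
      · refine le_trans ?_ k2
        rw [le_div_iff₀ hq0]
        refine le_trans (le_of_eq ?_) h2
        rw [pow_succ]
        field_simp
      · rcases Nat.lt_succ_iff_lt_or_eq.1 hi with h5 | h5
        · exact her i E E' k1 (h3 i h5)
        · rw [h5]
          exact k3
  exact key n le_rfl

/-- A part and its complement. -/
theorem pe_spl {Ω : Type} [Fintype Ω] {p : Ω → ℝ} (hp : IsLaw p) (E Z : Ω → Prop) :
    Pe p E ≤ Pe p (fun ω => E ω ∧ Z ω) + Pe p (fun ω => E ω ∧ ¬ Z ω) := by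
  classical
  show law p E True ≤ law p _ True + law p _ True
  unfold law
  rw [← Finset.sum_add_distrib]
  refine Finset.sum_le_sum fun ω _ => ?_
  have h0 := hp.nonneg ω
  by_cases a1 : E ω <;> by_cases a2 : Z ω <;> simp [a1, a2]

/-- **The own jets on all large parts.** -/
theorem own_bas {S : PCl m} {C₀ : ℝ} (htm : TmC S C₀) (c : ℕ → Fin m) (D : ℕ) {w ρ ε : ℝ}
    (hw0 : 0 ≤ w) (hw1 : w < 1) (hρ : 0 < ρ) (hε : 0 < ε) :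
    Bas S (fun J F A => OwnJ F c D ⌊w * J⌋₊ ρ (2 ^ (⌈ε * J⌉₊ + 2)) A) := by
  have h1 : Bas S (fun J F A => ∀ l < 4, ∀ j < 3, ∀ E : F.Ω → Prop, Sub E A →
      Pe F.p A ≤ 1 / ρ * Pe F.p E → ∀ (P : ℕ) (V : Type) (z : PtT F → V) (z' : LnT F → V)
      (G : V → MvPolynomial (Option (Fin m)) ℝ),
      LbP F ((range l).image c) (c l) D J ⌊w * J⌋₊ P E z z' G →
      Pb (Pool.Agent.H49.Ent.cond F.p E True) (fun ω =>
        ¬ |ojet F (c l) j (G (z' (slam F ⌊w * J⌋₊ ω))) ω| ≤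
          2 ^ ((ε + j * w) * J) * (1 / 2 ^ P)) ≤ 1 / 2) :=
    Bas.all 4 fun l _ => Bas.all 3 fun j _ => Pool.GRW.bas_part
      (own_cls htm ((range l).image c) (c l) j D hw0 hw1 (η := 1 / 2) (by norm_num) hε)
      (by positivity)
  refine Bas.mono 0 (h1.and (Pool.GRW.tmc_bas htm one_pos)) ?_
  rintro J - F A ⟨h2, hA, -⟩
  intro l j P E hl hj hE hPE Q Q' dQ dQ' eQ eQ' hcl hpos
  have hE0 : 0 < Pe F.p E := lt_of_lt_of_le (by positivity) hPE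
  obtain ⟨V, hV⟩ : ∃ V : Type, V = {P : MvPolynomial (Option (Fin m)) ℝ //
    P.totalDegree ≤ D ∧ DepC c l P} := ⟨_, rfl⟩
  have hlb : LbP F ((range l).image c) (c l) D J ⌊w * J⌋₊ P E
      (fun y => (⟨Q y, dQ y, eQ y⟩ : {P : MvPolynomial (Option (Fin m)) ℝ //
        P.totalDegree ≤ D ∧ DepC c l P})) (fun s => ⟨Q' s, dQ' s, eQ' s⟩) (fun v => v.1) := by
    refine ⟨fun v => v.2.1, fun v b b' h0 h1 => v.2.2 b b' h0 fun l' hl' => h1 _ ?_,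
      fun ω hω => Subtype.ext (hcl ω hω), fun ω hω => ?_⟩
    · rw [Finset.mem_image]
      exact ⟨l', Finset.mem_range.2 hl', rfl⟩
    · show |F.x ω (c l) - eval (bt F ω) (Q' (slam F ⌊w * J⌋₊ ω))| ≤ _
      rw [← hcl ω hω]
      exact hpos ω hω
  have h3 := h2 l (by omega) j (by omega) E hE (by
    rw [div_mul_eq_mul_div, one_mul, le_div_iff₀ hρ]
    linarith) P _ _ _ _ hlb
  rw [Pb_cond hE0, div_le_iff₀ hE0] at h3
  obtain ⟨E', hE'⟩ : ∃ E' : F.Ω → Prop, E' = fun ω => E ω ∧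
    |ojet F (c l) j (Q' (slam F ⌊w * J⌋₊ ω)) ω| ≤ 2 ^ ((ε + j * w) * J) * (1 / 2 ^ P) := ⟨_, rfl⟩
  refine ⟨E', fun ω hω => by rw [hE'] at hω; exact hω.1, ?_, fun ω hω => ?_⟩
  · have h4 := pe_spl F.isLaw E (fun ω =>
        |ojet F (c l) j (Q' (slam F ⌊w * J⌋₊ ω)) ω| ≤ 2 ^ ((ε + j * w) * J) * (1 / 2 ^ P))
    rw [← hE'] at h4
    linarith
  · rw [hE'] at hω
    obtain ⟨h5, h6⟩ := hω
    rw [hcl ω h5]
    refine h6.trans (mul_le_mul_of_nonneg_right ?_ (by positivity))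
    have hJ : (0 : ℝ) ≤ J := Nat.cast_nonneg J
    have e1 : (2 : ℝ) ^ ((ε + j * w) * J) = 2 ^ (ε * J) * 2 ^ (j * (w * J)) := by
      rw [← Real.rpow_add (by norm_num)]
      congr 1
      ring
    have e2 : (2 : ℝ) ^ (ε * J) ≤ 2 ^ ⌈ε * J⌉₊ := by
      rw [← Real.rpow_natCast]
      exact Real.rpow_le_rpow_of_exponent_le (by norm_num) (Nat.le_ceil _)
    have e3 : (2 : ℝ) ^ (j * (w * J)) ≤ (2 ^ ⌊w * J⌋₊) ^ j * 2 ^ 2 := by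
      have e4 : ((2 : ℝ) ^ ⌊w * J⌋₊) ^ j * 2 ^ 2 = 2 ^ ((⌊w * J⌋₊ * j + 2 : ℕ) : ℝ) := by
        rw [Real.rpow_natCast, pow_add, pow_mul]
      rw [e4]
      refine Real.rpow_le_rpow_of_exponent_le (by norm_num) ?_
      push_cast
      have e5 := (Nat.lt_floor_add_one (w * J)).le
      have e6 : (j : ℝ) ≤ 2 := by exact_mod_cast hj
      have e7 : (0 : ℝ) ≤ j := Nat.cast_nonneg j
      nlinarith
    rw [e1]
    calc (2 : ℝ) ^ (ε * J) * 2 ^ (j * (w * J)) ≤ 2 ^ ⌈ε * J⌉₊ * ((2 ^ ⌊w * J⌋₊) ^ j * 2 ^ 2) :=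
          mul_le_mul e2 e3 (Real.rpow_pos_of_pos (by norm_num) _).le (by positivity)
      _ = _ := by
          rw [pow_add]
          ring

/-- **The numbers of a window.** -/
theorem akx_of {J C₀ : ℕ} {g gt : ℕ → ℕ} {lv lt : ℕ → ℝ} {o ηm ζ e' Eb Λ pl1 pl2 plt x1 x2 : ℝ}
    (ho : 0 ≤ o) (hη0 : 0 ≤ ηm) (hηζ : ηm ≤ ζ) (he' : 0 ≤ e')
    (hg : ∀ l ≤ 3, (lv l - ηm) * J ≤ g l ∧ (g l : ℝ) ≤ lv l * J)
    (hgt : ∀ l ≤ 3, (lt l - ηm) * J ≤ gt l ∧ (gt l : ℝ) ≤ lt l * J)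
    (h0 : |lv 0 - o| ≤ ζ) (h1 : lv 1 - ζ ≤ pl1) (h2 : lv 2 - ζ ≤ pl2) (ht : lt 2 - ζ ≤ plt)
    (hx1 : lv 3 - lv 1 ≤ x1) (hx2 : lv 3 - lt 2 ≤ x2) (hl2 : lt 2 ≤ lv 2 + ζ)
    (hl1 : lt 1 ≤ lv 1 + ζ) (hoΛ : o ≤ Λ) (hlΛ : ∀ l ≤ 3, lv l ≤ Λ) (hΛ1 : Λ ≤ 1)
    (hlt1 : ∀ l ≤ 3, lt l ≤ 1) (hEb : 0 ≤ Eb) (hEb1 : Eb + 2 * ηm ≤ 1) :
    AkX J ⌊o * J⌋₊ ⌊ηm * J⌋₊ (⌊ηm * J⌋₊ + C₀ + 5 * (⌈(2 * ζ + e') * J⌉₊ + 3) + 3)
      (⌈(2 * ζ + e') * J⌉₊ + 3) (g 3) ⌊Λ * J⌋₊ ⌊(Eb + 2 * ηm) * J⌋₊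
      (min ⌊(pl1 - e') * J⌋₊ (g 1)) (min ⌊(pl2 - e') * J⌋₊ (g 2)) (min ⌊(plt - e') * J⌋₊ (gt 2))
      (min (min ⌊(pl2 - e') * J⌋₊ (g 2)) (min ⌊(plt - e') * J⌋₊ (gt 2))) ⌊x1 * J⌋₊ ⌊x2 * J⌋₊ C₀
      g gt := by
  have hJ : (0 : ℝ) ≤ J := Nat.cast_nonneg J
  have hζ : 0 ≤ ζ := hη0.trans hηζ
  have hηJ : ηm * J ≤ ζ * J := mul_le_mul_of_nonneg_right hηζ hJ
  have hηJ0 : 0 ≤ ηm * J := mul_nonneg hη0 hJ
  have hζJ0 : 0 ≤ ζ * J := mul_nonneg hζ hJ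
  have heJ0 : 0 ≤ e' * J := mul_nonneg he' hJ
  obtain ⟨k₀, hk₀⟩ : ∃ k₀ : ℕ, k₀ = ⌈(2 * ζ + e') * J⌉₊ + 3 := ⟨_, rfl⟩
  rw [← hk₀]
  have hk : 2 * (ζ * J) + e' * J + 3 ≤ k₀ := by
    rw [hk₀]
    push_cast
    have := Nat.le_ceil ((2 * ζ + e') * J)
    linarith
  have w1 : (⌊o * J⌋₊ : ℝ) ≤ o * J := Nat.floor_le (mul_nonneg ho hJ)
  have w2 : o * J < ⌊o * J⌋₊ + 1 := Nat.lt_floor_add_one _
  obtain ⟨w, hw⟩ : ∃ w : ℕ, w = ⌊o * J⌋₊ := ⟨_, rfl⟩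
  rw [← hw] at w1 w2 ⊢
  have hh := Nat.zero_le ⌊ηm * J⌋₊
  obtain ⟨h, hhd⟩ : ∃ h : ℕ, h = ⌊ηm * J⌋₊ := ⟨_, rfl⟩
  rw [← hhd] at hh ⊢
  have p1l := (Nat.lt_floor_add_one ((pl1 - e') * J)).le
  have p2l := (Nat.lt_floor_add_one ((pl2 - e') * J)).le
  have ptl := (Nat.lt_floor_add_one ((plt - e') * J)).le
  obtain ⟨pU, hpU⟩ : ∃ pU : ℕ, pU = ⌊(pl1 - e') * J⌋₊ := ⟨_, rfl⟩
  obtain ⟨pV, hpV⟩ : ∃ pV : ℕ, pV = ⌊(pl2 - e') * J⌋₊ := ⟨_, rfl⟩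
  obtain ⟨pT, hpT⟩ : ∃ pT : ℕ, pT = ⌊(plt - e') * J⌋₊ := ⟨_, rfl⟩
  rw [← hpU] at p1l ⊢
  rw [← hpV] at p2l ⊢
  rw [← hpT] at ptl ⊢
  have X1l := (Nat.lt_floor_add_one (x1 * J)).le
  have X2l := (Nat.lt_floor_add_one (x2 * J)).le
  obtain ⟨X1, hX1⟩ : ∃ X1 : ℕ, X1 = ⌊x1 * J⌋₊ := ⟨_, rfl⟩
  obtain ⟨X2, hX2⟩ : ∃ X2 : ℕ, X2 = ⌊x2 * J⌋₊ := ⟨_, rfl⟩
  rw [← hX1] at X1l ⊢
  rw [← hX2] at X2l ⊢
  have a0 := hg 0 (by norm_num)
  have a1 := hg 1 (by norm_num)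
  have a2 := hg 2 (by norm_num)
  have a3 := hg 3 le_rfl
  have b1 := hgt 1 (by norm_num)
  have b2 := hgt 2 (by norm_num)
  have m0 : (lv 0 - o) * J ≤ ζ * J := mul_le_mul_of_nonneg_right (abs_le.1 h0).2 hJ
  have m0' : -ζ * J ≤ (lv 0 - o) * J := mul_le_mul_of_nonneg_right (abs_le.1 h0).1 hJ
  have m1 := mul_le_mul_of_nonneg_right h1 hJ
  have m2 := mul_le_mul_of_nonneg_right h2 hJ
  have mt := mul_le_mul_of_nonneg_right ht hJ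
  have n1 := mul_le_mul_of_nonneg_right hx1 hJ
  have n2 := mul_le_mul_of_nonneg_right hx2 hJ
  have n3 := mul_le_mul_of_nonneg_right hl2 hJ
  have n4 := mul_le_mul_of_nonneg_right hl1 hJ
  -- the lower bounds of the precisions
  have g1l : g 1 ≤ min pU (g 1) + k₀ := by
    rcases le_total pU (g 1) with h5 | h5
    · rw [min_eq_left h5]
      have : (g 1 : ℝ) ≤ pU + k₀ := by linarith
      exact_mod_cast this
    · rw [min_eq_right h5]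
      omega
  have g2l : g 2 ≤ min pV (g 2) + k₀ := by
    rcases le_total pV (g 2) with h5 | h5
    · rw [min_eq_left h5]
      have : (g 2 : ℝ) ≤ pV + k₀ := by linarith
      exact_mod_cast this
    · rw [min_eq_right h5]
      omega
  have gtl : gt 2 ≤ min pT (gt 2) + k₀ := by
    rcases le_total pT (gt 2) with h5 | h5
    · rw [min_eq_left h5]
      have : (gt 2 : ℝ) ≤ pT + k₀ := by linarith
      exact_mod_cast this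
    · rw [min_eq_right h5]
      omega
  obtain ⟨g1, hg1⟩ : ∃ g1 : ℕ, g1 = min pU (g 1) := ⟨_, rfl⟩
  obtain ⟨g2, hg2⟩ : ∃ g2 : ℕ, g2 = min pV (g 2) := ⟨_, rfl⟩
  obtain ⟨p2, hp2⟩ : ∃ p2 : ℕ, p2 = min pT (gt 2) := ⟨_, rfl⟩
  rw [← hg1] at g1l ⊢
  rw [← hg2] at g2l ⊢
  rw [← hp2] at gtl ⊢
  have g1r : (g 1 : ℝ) ≤ g1 + k₀ := by exact_mod_cast g1l
  have g2r : (g 2 : ℝ) ≤ g2 + k₀ := by exact_mod_cast g2l
  have gtr : (gt 2 : ℝ) ≤ p2 + k₀ := by exact_mod_cast gtl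
  have hPm : (lt 2) * J - 2 * (ζ * J) - k₀ ≤ ((min g2 p2 : ℕ) : ℝ) := by
    rw [Nat.cast_min, le_min_iff]
    constructor <;> linarith
  refine
    { a0 := ⟨?_, ?_⟩
      a1 := ⟨by rw [hg1]; exact min_le_right _ _, g1l⟩
      a2 := ⟨by rw [hg2]; exact min_le_right _ _, g2l⟩
      at2 := by rw [hp2]; exact min_le_right _ _
      kk := by omega
      γ3 := le_rfl
      x1 := ?_
      x2 := ?_
      xs := ?_
      xt := ?_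
      P1 := min_le_left _ _
      P2 := min_le_right _ _
      w1 := ?_
      gm := fun l hl => ?_
      gJ := ?_
      gtJ := fun l hl => ?_
      eJ := ?_ }
  · have : (w : ℝ) ≤ g 0 + k₀ := by linarith
    exact_mod_cast this
  · have : (g 0 : ℝ) ≤ w + k₀ := by linarith
    exact_mod_cast this
  · have : (g 3 : ℝ) ≤ g1 + X1 + (h + C₀ + 5 * k₀ + 3 : ℕ) := by
      push_cast
      have : (0 : ℝ) ≤ h := Nat.cast_nonneg h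
      have : (0 : ℝ) ≤ C₀ := Nat.cast_nonneg C₀
      linarith
    exact_mod_cast this
  · have : (g 3 : ℝ) ≤ g2 + X2 + (h + C₀ + 5 * k₀ + 3 : ℕ) := by
      push_cast
      have : (0 : ℝ) ≤ h := Nat.cast_nonneg h
      have : (0 : ℝ) ≤ C₀ := Nat.cast_nonneg C₀
      linarith
    exact_mod_cast this
  · have h6 : (0 : ℝ) ≤ h := Nat.cast_nonneg h
    have h7 : (0 : ℝ) ≤ C₀ := Nat.cast_nonneg C₀
    have h8 : (0 : ℝ) ≤ k₀ := Nat.cast_nonneg k₀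
    have : (g 3 : ℝ) + (h + C₀ + g 1) + 1 ≤ g1 + X2 + (h + C₀ + 5 * k₀ + 3 : ℕ) +
        ((min g2 p2 : ℕ) : ℝ) := by
      push_cast
      push_cast at hPm
      linarith only [a3.2, g1r, X2l, n2, hPm, hk, heJ0, hζJ0, h6, h7, h8]
    exact_mod_cast this
  · have h6 : (0 : ℝ) ≤ h := Nat.cast_nonneg h
    have h7 : (0 : ℝ) ≤ C₀ := Nat.cast_nonneg C₀
    have h8 : (0 : ℝ) ≤ k₀ := Nat.cast_nonneg k₀
    have : (g 3 : ℝ) + (C₀ + h + gt 1) + 1 ≤ g1 + X2 + (h + C₀ + 5 * k₀ + 3 : ℕ) + p2 := by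
      push_cast
      linarith only [a3.2, g1r, X2l, n2, n4, b1.2, b2.1, a1.1, gtr, hk, heJ0, hζJ0, hηJ, h6, h7, h8]
    exact_mod_cast this
  · rw [hw]
    exact Nat.floor_le_floor (mul_le_mul_of_nonneg_right hoΛ hJ)
  · refine Nat.le_floor ?_
    exact (hg l hl).2.trans (mul_le_mul_of_nonneg_right (hlΛ l hl) hJ)
  · have h5 : (⌊Λ * J⌋₊ : ℝ) ≤ Λ * J := Nat.floor_le (mul_nonneg (ho.trans hoΛ) hJ)
    have h6 : Λ * J ≤ 1 * J := mul_le_mul_of_nonneg_right hΛ1 hJ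
    have : (⌊Λ * J⌋₊ : ℝ) ≤ J := by linarith only [h5, h6]
    exact_mod_cast this
  · have : (gt l : ℝ) ≤ J := by
      have h5 := (hgt l hl).2
      have h6 := mul_le_mul_of_nonneg_right (hlt1 l hl) hJ
      linarith only [h5, h6]
    exact_mod_cast this
  · have h5 : (⌊(Eb + 2 * ηm) * J⌋₊ : ℝ) ≤ (Eb + 2 * ηm) * J :=
      Nat.floor_le (mul_nonneg (by linarith only [hEb, hη0]) hJ)
    have h6 : (Eb + 2 * ηm) * J ≤ 1 * J := mul_le_mul_of_nonneg_right hEb1 hJ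
    have : (⌊(Eb + 2 * ηm) * J⌋₊ : ℝ) ≤ J := by linarith only [h5, h6]
    exact_mod_cast this

/-- **The final numbers**, from exponents. -/
theorem fin_num {C : ℝ} {C₀ cc : ℕ} (hC : 1 ≤ C) (hcc : C ≤ 2 ^ cc)
    {J h e k Gm Y P γ nR nβ nL I : ℕ} (h1 : cc + k + e + Gm ≤ J)
    (h2 : 2 * cc + h + C₀ * (k + 1) + nL + k + e + Gm + 2 * nβ ≤ J)
    (h3 : 4 * J + 4 ≤ nL * I)
    (h4 : P + C₀ * (k + 1) + 3 * cc + 2 * (h + C₀ * (k + 1)) + 3 * nR + Y + 3 * k + 2 * nβ + 2 ≤ γ) :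
    C * (2 ^ (k + e + Gm) / 2 ^ J) ≤ 1 ∧
    C * 2 ^ (h + C₀ * (k + 1)) * 2 ^ nL * (C * (2 ^ (k + e + Gm) / 2 ^ J)) ≤ (1 / 2 ^ nβ) ^ 2 ∧
    (2 : ℝ) ^ (4 * J + 4) ≤ (2 ^ nL) ^ I ∧
    (2 : ℝ) ^ P * (2 ^ (C₀ * (k + 1)) * (C * (C * (2 ^ (h + C₀ * (k + 1))) ^ 2 * (2 ^ nR) ^ 2 *
      (C * 2 ^ (Y + 3 * k) + 2 ^ nR) / (1 / 2 ^ nβ) ^ 2)) + 1) ≤ 2 ^ γ := by
  have hC0 : 0 ≤ C := by linarith
  have pw : ∀ {a b : ℕ}, a ≤ b → (2 : ℝ) ^ a ≤ 2 ^ b := fun hab =>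
    pow_le_pow_right₀ (by norm_num) hab
  refine ⟨?_, ?_, ?_, ?_⟩
  · rw [mul_div_assoc', div_le_one (by positivity)]
    calc C * 2 ^ (k + e + Gm) ≤ 2 ^ cc * 2 ^ (k + e + Gm) :=
          mul_le_mul_of_nonneg_right hcc (by positivity)
      _ = 2 ^ (cc + (k + e + Gm)) := (pow_add _ _ _).symm
      _ ≤ 2 ^ J := pw (by omega)
  · rw [one_div, inv_pow, mul_div_assoc', mul_div_assoc', div_le_iff₀ (by positivity)]
    have e1 : C * 2 ^ (h + C₀ * (k + 1)) * 2 ^ nL * (C * 2 ^ (k + e + Gm)) ≤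
        2 ^ cc * 2 ^ (h + C₀ * (k + 1)) * 2 ^ nL * (2 ^ cc * 2 ^ (k + e + Gm)) := by
      gcongr
    have e2 : (2 : ℝ) ^ cc * 2 ^ (h + C₀ * (k + 1)) * 2 ^ nL * (2 ^ cc * 2 ^ (k + e + Gm)) =
        2 ^ (cc + (h + C₀ * (k + 1)) + nL + (cc + (k + e + Gm))) := by
      simp only [pow_add]
    have e3 : (2 : ℝ) ^ (cc + (h + C₀ * (k + 1)) + nL + (cc + (k + e + Gm))) * (2 ^ nβ) ^ 2 ≤
        2 ^ J := by
      rw [← pow_mul, ← pow_add]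
      exact pw (by omega)
    rw [e2] at e1
    rw [inv_mul_eq_div, le_div_iff₀ (by positivity)]
    exact (mul_le_mul_of_nonneg_right e1 (by positivity)).trans e3
  · rw [← pow_mul]
    exact pw h3
  · have e0 : (1 : ℝ) / (1 / 2 ^ nβ) ^ 2 = 2 ^ (2 * nβ) := by
      rw [one_div, one_div, inv_pow, inv_inv, ← pow_mul, mul_comm]
    have e1 : C * 2 ^ (Y + 3 * k) + 2 ^ nR ≤ 2 ^ (cc + (Y + 3 * k) + nR + 1) := by
      have f1 : C * 2 ^ (Y + 3 * k) ≤ 2 ^ (cc + (Y + 3 * k) + nR) := by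
        calc C * 2 ^ (Y + 3 * k) ≤ 2 ^ cc * 2 ^ (Y + 3 * k) :=
              mul_le_mul_of_nonneg_right hcc (by positivity)
          _ = 2 ^ (cc + (Y + 3 * k)) := (pow_add _ _ _).symm
          _ ≤ _ := pw (by omega)
      have f2 : (2 : ℝ) ^ nR ≤ 2 ^ (cc + (Y + 3 * k) + nR) := pw (by omega)
      rw [pow_succ]
      linarith
    have e2 : C * (2 ^ (h + C₀ * (k + 1))) ^ 2 * (2 ^ nR) ^ 2 * (C * 2 ^ (Y + 3 * k) + 2 ^ nR) /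
        (1 / 2 ^ nβ) ^ 2 ≤ 2 ^ cc * (2 ^ (h + C₀ * (k + 1))) ^ 2 * (2 ^ nR) ^ 2 *
          2 ^ (cc + (Y + 3 * k) + nR + 1) * 2 ^ (2 * nβ) := by
      rw [div_eq_mul_one_div, e0]
      gcongr
    have e3 : (2 : ℝ) ^ cc * (2 ^ (h + C₀ * (k + 1))) ^ 2 * (2 ^ nR) ^ 2 *
        2 ^ (cc + (Y + 3 * k) + nR + 1) * 2 ^ (2 * nβ) =
        2 ^ (cc + (h + C₀ * (k + 1)) * 2 + nR * 2 + (cc + (Y + 3 * k) + nR + 1) + 2 * nβ) := by
      rw [← pow_mul, ← pow_mul, ← pow_add, ← pow_add, ← pow_add, ← pow_add]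
    rw [e3] at e2
    obtain ⟨a, ha⟩ : ∃ a, a = cc + (h + C₀ * (k + 1)) * 2 + nR * 2 + (cc + (Y + 3 * k) + nR + 1) +
      2 * nβ := ⟨_, rfl⟩
    rw [← ha] at e2
    have e4 : (2 : ℝ) ^ (C₀ * (k + 1)) * (C * (C * (2 ^ (h + C₀ * (k + 1))) ^ 2 * (2 ^ nR) ^ 2 *
      (C * 2 ^ (Y + 3 * k) + 2 ^ nR) / (1 / 2 ^ nβ) ^ 2)) ≤ 2 ^ (C₀ * (k + 1) + (cc + a)) := by
      rw [pow_add _ (C₀ * (k + 1)) (cc + a), pow_add _ cc a]
      exact mul_le_mul_of_nonneg_left (mul_le_mul hcc e2 (by positivity) (by positivity))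
        (by positivity)
    have e5 : (1 : ℝ) ≤ 2 ^ (C₀ * (k + 1) + (cc + a)) := one_le_pow₀ (by norm_num)
    calc _ ≤ (2 : ℝ) ^ P * (2 ^ (C₀ * (k + 1) + (cc + a)) + 2 ^ (C₀ * (k + 1) + (cc + a))) := by
          gcongr
      _ = 2 ^ (P + (C₀ * (k + 1) + (cc + a)) + 1) := by
          rw [pow_succ, pow_add]
          ring
      _ ≤ 2 ^ γ := pw (by omega)

/-- **The exponents** from the numbers. -/
theorem fin_real {J C₀ cc Cg N : ℕ} {ζ Eb Λ ηm lv3 e₀ : ℝ} {γ k e Gm h nR nβ nL Y P I : ℕ}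
    (hζ : 0 < ζ) (hηm : ηm ≤ ζ) (hη0 : 0 ≤ ηm) (hEb : 0 ≤ Eb) (hΛ : 0 ≤ Λ) (he₀ : 0 ≤ e₀)
    (hJ : (C₀ + cc + N + 40 : ℝ) ≤ ζ * J)
    (hk : k = ⌊ηm * J⌋₊ + C₀ + 5 * (⌈(2 * ζ + ζ) * J⌉₊ + 3) + 3)
    (he : e = ⌊(Eb + 2 * ηm) * J⌋₊) (hGm : Gm = ⌊Λ * J⌋₊) (hh : h = ⌊ηm * J⌋₊)
    (hR : nR = ⌈ζ * J⌉₊ + 2) (hβ : nβ = ⌊ζ * J⌋₊) (hL : nL = ⌊ζ * J⌋₊)
    (hY : Y = Cg * (⌈3 * ζ * J⌉₊ + 4 + N)) (hI : I = ⌈10 / ζ⌉₊)
    (hP : P = ⌊(lv3 - (60 * C₀ + 4 * Cg + 80 : ℕ) * ζ - e₀) * J⌋₊)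
    (h1 : Eb + Λ + (60 * C₀ + 4 * Cg + 80 : ℕ) * ζ ≤ 1)
    (h2 : (60 * C₀ + 4 * Cg + 80 : ℕ) * ζ ≤ lv3) (h3 : (lv3 - ηm) * J ≤ γ) :
    cc + k + e + Gm ≤ J ∧
    2 * cc + h + C₀ * (k + 1) + nL + k + e + Gm + 2 * nβ ≤ J ∧
    4 * J + 4 ≤ nL * I ∧
    P + C₀ * (k + 1) + 3 * cc + 2 * (h + C₀ * (k + 1)) + 3 * nR + Y + 3 * k + 2 * nβ + 2 ≤ γ := by
  have hJ0 : (0 : ℝ) ≤ J := Nat.cast_nonneg J
  have hC₀ : (0 : ℝ) ≤ C₀ := Nat.cast_nonneg C₀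
  have hcc : (0 : ℝ) ≤ cc := Nat.cast_nonneg cc
  have hN : (0 : ℝ) ≤ N := Nat.cast_nonneg N
  have hCg : (0 : ℝ) ≤ Cg := Nat.cast_nonneg Cg
  push_cast at h1 h2
  obtain ⟨U, hU⟩ : ∃ U : ℝ, U = ζ * J := ⟨_, rfl⟩
  rw [← hU] at hJ
  have hηU : ηm * J ≤ U := by rw [hU]; exact mul_le_mul_of_nonneg_right hηm hJ0
  have hη0' : 0 ≤ ηm * J := mul_nonneg hη0 hJ0
  have hC₀U : 0 ≤ C₀ * U := mul_nonneg hC₀ (by linarith)
  have hCgU : 0 ≤ Cg * U := mul_nonneg hCg (by linarith)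
  have a1 : (h : ℝ) ≤ U := by
    rw [hh]
    exact (Nat.floor_le hη0').trans hηU
  have a2 : (k : ℝ) + 1 ≤ 17 * U := by
    rw [hk]
    push_cast
    have b1 : (⌊ηm * J⌋₊ : ℝ) ≤ U := (Nat.floor_le hη0').trans hηU
    have b2 := (Nat.ceil_lt_add_one (show 0 ≤ (2 * ζ + ζ) * J by positivity)).le
    have b3 : (2 * ζ + ζ) * J = 3 * U := by rw [hU]; ring
    rw [b3] at b2 ⊢
    linarith
  have a3 : (e : ℝ) ≤ Eb * J + 2 * U := by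
    rw [he]
    have b1 := Nat.floor_le (show 0 ≤ (Eb + 2 * ηm) * J by positivity)
    have b2 : (Eb + 2 * ηm) * J = Eb * J + 2 * (ηm * J) := by ring
    rw [b2] at b1 ⊢
    linarith
  have a4 : (Gm : ℝ) ≤ Λ * J := by
    rw [hGm]
    exact Nat.floor_le (by positivity)
  have a5 : (nR : ℝ) ≤ 2 * U := by
    rw [hR]
    push_cast
    have b2 := (Nat.ceil_lt_add_one (show 0 ≤ ζ * J by positivity)).le
    rw [← hU] at b2 ⊢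
    linarith
  have a6 : (nβ : ℝ) ≤ U := by
    rw [hβ, hU]
    exact Nat.floor_le (by positivity)
  have a7 : (nL : ℝ) ≤ U := by
    rw [hL, hU]
    exact Nat.floor_le (by positivity)
  have a8 : U / 2 ≤ nL := by
    rw [hL]
    have b1 := (Nat.lt_floor_add_one (ζ * J)).le
    rw [← hU] at b1 ⊢
    linarith
  have a9 : (Y : ℝ) ≤ Cg * (4 * U) := by
    rw [hY]
    push_cast
    refine mul_le_mul_of_nonneg_left ?_ hCg
    have b2 := (Nat.ceil_lt_add_one (show 0 ≤ 3 * ζ * J by positivity)).le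
    have b3 : 3 * ζ * J = 3 * U := by rw [hU]; ring
    rw [b3] at b2 ⊢
    linarith
  have a10 : (C₀ : ℝ) * (k + 1) ≤ C₀ * (17 * U) := mul_le_mul_of_nonneg_left a2 hC₀
  have a11 : Eb * J + Λ * J + (60 * (C₀ * U) + 4 * (Cg * U) + 80 * U) ≤ J := by
    have := mul_le_mul_of_nonneg_right h1 hJ0
    rw [one_mul] at this
    calc _ = (Eb + Λ + (60 * C₀ + 4 * Cg + 80) * ζ) * J := by rw [hU]; ring
      _ ≤ _ := this
  have a12 : (P : ℝ) ≤ lv3 * J - (60 * (C₀ * U) + 4 * (Cg * U) + 80 * U) := by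
    have b1 : P ≤ ⌊(lv3 - (60 * C₀ + 4 * Cg + 80) * ζ) * J⌋₊ := by
      rw [hP]
      push_cast
      refine Nat.floor_le_floor (mul_le_mul_of_nonneg_right ?_ hJ0)
      linarith
    have b2 := Nat.floor_le (show 0 ≤ (lv3 - (60 * C₀ + 4 * Cg + 80) * ζ) * J from
      mul_nonneg (by linarith) hJ0)
    have b3 : (P : ℝ) ≤ (⌊(lv3 - (60 * C₀ + 4 * Cg + 80) * ζ) * J⌋₊ : ℕ) := by exact_mod_cast b1
    calc (P : ℝ) ≤ _ := b3.trans b2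
      _ = _ := by rw [hU]; ring
  have a13 : lv3 * J - U ≤ γ := by
    have : (lv3 - ηm) * J = lv3 * J - ηm * J := by ring
    linarith
  have c1 : (C₀ : ℝ) * (17 * U) = 17 * (C₀ * U) := by ring
  have c2 : (Cg : ℝ) * (4 * U) = 4 * (Cg * U) := by ring
  rw [c1] at a10
  rw [c2] at a9
  refine ⟨?_, ?_, ?_, ?_⟩
  · have : (cc : ℝ) + k + e + Gm ≤ J := by
      linarith only [hJ, a2, a3, a4, a11, hC₀U, hCgU, hN, hC₀, hcc]
    exact_mod_cast this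
  · have : 2 * (cc : ℝ) + h + C₀ * (k + 1) + nL + k + e + Gm + 2 * nβ ≤ J := by
      linarith only [hJ, a1, a2, a3, a4, a6, a7, a10, a11, hC₀U, hCgU, hN, hC₀, hcc]
    exact_mod_cast this
  · have d1 : 10 / ζ ≤ I := by
      rw [hI]
      exact Nat.le_ceil _
    have d2 : U / 2 * (10 / ζ) = 5 * J := by
      rw [hU]
      field_simp
      ring
    have d3 : U / 2 * (10 / ζ) ≤ nL * I :=
      mul_le_mul a8 d1 (by positivity) (Nat.cast_nonneg _)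
    have d4 : U ≤ J := by
      linarith only [a11, hC₀U, hCgU, mul_nonneg hEb hJ0, mul_nonneg hΛ hJ0, hJ, hN, hC₀, hcc]
    have : 4 * (J : ℝ) + 4 ≤ nL * I := by
      linarith only [d2, d3, d4, hJ, hN, hC₀, hcc]
    exact_mod_cast this
  · have : (P : ℝ) + C₀ * (k + 1) + 3 * cc + 2 * (h + C₀ * (k + 1)) + 3 * nR + Y + 3 * k +
        2 * nβ + 2 ≤ γ := by
      linarith only [hJ, a1, a2, a5, a6, a9, a10, a12, a13, hC₀U, hCgU, hN, hC₀, hcc]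
    exact_mod_cast this

end Pool.AFK25
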