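import Pool.Agent.H25.AFK.Fld
import Pool.Agent.H23.D2.Bwj
import Pool.Agent.H91.NVA.Aff
import Pool.Agent.H91.NVA.Fre

/-!
# One window of a list of balls

`OwnJ`: the own jets on all large parts. `AkX`: the numbers of a window. `afk_one`: the closed label
of degree at most one with the given slopes at one window of a list of balls, on a part.
-/

set_option autoImplicit false

namespace Pool.AFK25

open Finset Real MvPolynomial
open Pool.Agent.H49.Ent Pool.Agent.H32.Dense Pool.STK Pool.KA Pool.KSAT Pool.K2S Pool.PB Pool.S6C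
open Pool.GEN hiding dv
open Pool.CHT Pool.ISO Pool.D2R Pool.NV24
open Pool.NVA91 (afBall slope g0Ball)
open Pool.LA91 (jet lp eval_alp jet_sub ojet)
open Pool.GRD (LbP)
open Pool.FVL91 (coe1)

variable {m J : ℕ}

/-- **The own jets** of closed labels of the window `w`, on all parts of mass at least `ρ`. -/
def OwnJ (F : Fam m J) (c : ℕ → Fin m) (D w : ℕ) (ρ R : ℝ) (B₀ : F.Ω → Prop) : Prop :=
  ∀ (l j P : ℕ) (E : F.Ω → Prop), l ≤ 3 → j ≤ 2 → Sub E B₀ → ρ * Pe F.p B₀ ≤ Pe F.p E →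
    ∀ (Q : PtT F → MvPolynomial (Option (Fin m)) ℝ) (Q' : LnT F → MvPolynomial (Option (Fin m)) ℝ),
    (∀ y, (Q y).totalDegree ≤ D) → (∀ s, (Q' s).totalDegree ≤ D) → (∀ y, DepC c l (Q y)) →
    (∀ s, DepC c l (Q' s)) → (∀ ω, E ω → Q (ptr F J ω) = Q' (slam F w ω)) →
    (∀ ω, E ω → |F.x ω (c l) - eval (bt F ω) (Q (ptr F J ω))| ≤ 1 / 2 ^ P) →
    ∃ E' : F.Ω → Prop, Sub E' E ∧ Pe F.p E / 2 ≤ Pe F.p E' ∧ ∀ ω, E' ω →
      |ojet F (c l) j (Q (ptr F J ω)) ω| ≤ R * (2 ^ w) ^ j * (1 / 2 ^ P)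

/-- **The numbers of a window** `w`, with the sides `g` and the sides `gt` of the window `wt`. -/
structure AkX (J w h k k₀ γ Gm e g1 g2 p2 Pm X1 X2 C₀ : ℕ) (g gt : ℕ → ℕ) : Prop where
  a0 : w ≤ g 0 + k₀ ∧ g 0 ≤ w + k₀
  a1 : g1 ≤ g 1 ∧ g 1 ≤ g1 + k₀
  a2 : g2 ≤ g 2 ∧ g 2 ≤ g2 + k₀
  at2 : p2 ≤ gt 2
  kk : h + k₀ + 3 ≤ k
  γ3 : γ ≤ g 3
  x1 : γ ≤ g1 + X1 + k
  x2 : γ ≤ g2 + X2 + k
  xs : γ + (h + C₀ + g 1) + 1 ≤ g1 + X2 + k + Pm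
  xt : γ + (C₀ + h + gt 1) + 1 ≤ g1 + X2 + k + p2
  P1 : Pm ≤ g2
  P2 : Pm ≤ p2
  w1 : w ≤ Gm
  gm : ∀ l ≤ 3, g l ≤ Gm
  gJ : Gm ≤ J
  gtJ : ∀ l ≤ 3, gt l ≤ J
  eJ : e ≤ J

theorem AfP.prec {F : Fam m J} {c : ℕ → Fin m} {i w P P' : ℕ} {A : F.Ω → Prop}
    {U : PtT F → MvPolynomial (Option (Fin m)) ℝ} {U' : LnT F → MvPolynomial (Option (Fin m)) ℝ}
    (h : AfP F c i w P A U U') (hP : P' ≤ P) : AfP F c i w P' A U U' :=
  ⟨h.dP, h.dL, h.eP, h.eL, h.cls, fun ω hω => (h.pos ω hω).trans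
    (one_div_le_one_div_of_le (by positivity) (pow_le_pow_right₀ (by norm_num) hP))⟩

/-- **The slope of an affine label of the place `2`** in the direction of the place `1`. -/
theorem pcb2 (D : ℕ) (hD : 1 ≤ D) : ∃ C : ℝ, 1 ≤ C ∧ ∀ {m : ℕ} {c : ℕ → Fin m}
    {G : ℕ → MvPolynomial (Option (Fin m)) ℝ} {g : ℕ → ℕ} {w : ℕ} {x : Option (Fin m) → ℝ}
    {V : MvPolynomial (Option (Fin m)) ℝ} {M2 : ℝ}, Set.InjOn c (Set.Iio 4) →
    (∀ l, (G l).totalDegree ≤ D) → (∀ l, DepC c l (G l)) →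
    V.totalDegree ≤ 1 → DepC c 2 V → 0 ≤ M2 →
    (∀ b, NBx c G g w (x none) 2 b → |eval b V - eval b (G 2)| ≤ M2) →
    (∀ l < 3, |x (some (c l)) - eval x (G l)| ≤ 1 / 2 ^ g l) →
    |pc V (some (c 1)) - eval x (pderiv (some (c 1)) (G 2))| ≤ C * M2 * 2 ^ g 1 := by
  classical
  obtain ⟨C₂, hC₂, hb2⟩ := box_nat 2 D D
  refine ⟨C₂, hC₂, ?_⟩
  intro m c G g w x V M2 hc hGd hG dV hV hM2 h2 hx
  have hc2 : Set.InjOn c (Set.Iio 2) := hc.mono (Set.Iio_subset_Iio (by omega))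
  have hw0 : |(0 : ℝ)| ≤ 1 / 2 ^ w := by
    rw [abs_zero]
    positivity
  obtain ⟨W, hW⟩ : ∃ W : Option (Fin m) → ℝ, W = Pi.single (some (c 1)) (1 / 2 ^ g 1) := ⟨_, rfl⟩
  have e0 : W none = 0 := by rw [hW, Pi.single_eq_of_ne (by simp)]
  have k := (hb2 (Q := V - G 2) (M := M2) hc2 hGd hG (dep_sub' hV (hG 2))
    ((totalDegree_sub _ _).trans (max_le (dV.trans hD) (hGd 2))) hM2 (fun b hb => by
      rw [map_sub]
      exact h2 b hb) (fun l hl => hx l (by omega)) W (by rw [e0]; exact hw0) (fun l hl => by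
      have hll : l = 0 ∨ l = 1 := by omega
      rw [hW, dd_single, pz hc (by omega) (by norm_num) (show l ≤ 1 by omega) (hG l), zero_mul,
        sub_zero]
      rcases hll with rfl | rfl
      · rw [sne hc (i := 0) (l := 1) (by norm_num) (by norm_num) (by norm_num), abs_zero]
        positivity
      · rw [Pi.single_eq_same, abs_of_pos (by positivity)])).1
  rw [hW, dd_single, map_sub, map_sub, Pool.NVA91.pc_pd dV, abs_mul,
    abs_of_pos (show (0 : ℝ) < 1 / 2 ^ g 1 by positivity), mul_one_div,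
    div_le_iff₀ (by positivity)] at k
  exact k

/-- A larger loss. -/
theorem relvF_h {F : Fam m J} {c : ℕ → Fin m} {i a w : ℕ} {g : ℕ → ℕ} {D h h' : ℕ} {κ : ℝ}
    {B₀ : F.Ω → Prop} {G : PtT F → ℕ → MvPolynomial (Option (Fin m)) ℝ}
    (hR : RelvF F c i a w g D h κ B₀ G) (hh : h ≤ h') : RelvF F c i a w g D h' κ B₀ G := by
  intro B' hB hP Dx Dl M h1 h2 h3 h4 hM h5 h6
  obtain ⟨B'', k1, k2, k3⟩ := hR B' hB hP Dx Dl M h1 h2 h3 h4 hM h5 h6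
  exact ⟨B'', k1, k2, fun ω hω b hb => (k3 ω hω b hb).trans
    (mul_le_mul_of_nonneg_right (pow_le_pow_right₀ (by norm_num) hh) hM.le)⟩

/-- **One window of a list of balls.** -/
theorem afk_one (D : ℕ) (hD : 1 ≤ D) : ∃ (C : ℝ) (C₀ : ℕ), 1 ≤ C ∧ ∀ {m J : ℕ} {F : Fam m J}
    {Vk : Type} {c : ℕ → Fin m} {Dr N M₀ : ℕ} {CB a Eb ηm : ℝ} {ow η σ : ℕ → ℝ}
    {lv bb : ℕ → ℕ → ℝ} {κ : ℝ} {z : ℕ → ℕ → ℕ} {B₀ B : F.Ω → Prop} {g₀ : ℕ → ℕ → ℕ}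
    {G : ℕ → PtT F → ℕ → MvPolynomial (Option (Fin m)) ℝ}
    {H : ℕ → LnT F → ℕ → MvPolynomial (Option (Fin m)) ℝ}
    (_ : WinB F c 3 D Dr N M₀ CB a Eb ηm ow η σ lv bb κ z B₀ g₀ G H)
    {i kt w wt h e W0 k k₀ γ Gm g1 g2 p2 Pm X1 X2 Y P I : ℕ}
    {U V Vt : PtT F → MvPolynomial (Option (Fin m)) ℝ}
    {U' V' Vt' : LnT F → MvPolynomial (Option (Fin m)) ℝ}
    {zk : PtT F → Vk} {zk' : LnT F → Vk} {ka : Vk → ℕ → ℝ} {R ρB ρ κf β L : ℝ},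
    Set.InjOn c (Set.Iio 4) → D ≤ Dr → i ≤ N → kt ≤ N →
    w = ⌊ow i * J⌋₊ → wt = ⌊ow kt * J⌋₊ → h = ⌊ηm * J⌋₊ →
    ⌊(Eb + σ i + η i) * J⌋₊ ≤ e → ⌊(Eb + σ kt + η kt) * J⌋₊ ≤ e →
    ⌊(Eb + σ N + η N) * J⌋₊ ≤ e → (∀ l ≤ 3, g₀ N l ≤ J) →
    wt ≤ w → w ≤ J → W0 ≤ w →
    AkX J w h k k₀ γ Gm e g1 g2 p2 Pm X1 X2 C₀ (g₀ i) (g₀ kt) →
    AfP F c 1 w g1 B₀ U U' → AfP F c 2 w g2 B₀ V V' → AfP F c 2 wt p2 B₀ Vt Vt' →
    (∀ ω i, |F.x ω i| ≤ 2) →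
    (∀ ω, B₀ ω → ∀ j < 3, 1 ≤ j → |gnh F c 3 (g₀ i) (G i) (G N) ω j| ≤ 2 ^ Y) →
    OwnJ F c D w ρ R B₀ → Fre F.p B₀ (ptr F J) (fun ω => F.d ω (c 0)) β 2 κf →
    Sub B B₀ → KapE F c W0 X1 X2 B (G kt) (G N) zk zk' ka →
    0 < Pe F.p B → 1 ≤ I → 0 ≤ κ → 0 ≤ κf → ρB * Pe F.p B₀ ≤ Pe F.p B →
    256 * 96 * I * κ ≤ ρB → 256 * 16 * I * κf ≤ ρB → 256 * ρ ≤ ρB →
    1 ≤ R → 0 < β → β ≤ 1 → 1 ≤ L →
    C * (2 ^ (k + e + Gm) / 2 ^ J) ≤ 1 →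
    C * 2 ^ (h + C₀ * (k + 1)) * L * (C * (2 ^ (k + e + Gm) / 2 ^ J)) ≤ β ^ 2 →
    (2 : ℝ) ^ (4 * J + 4) ≤ L ^ I →
    (2 : ℝ) ^ P * (2 ^ (C₀ * (k + 1)) *
      (C * (C * (2 ^ (h + C₀ * (k + 1))) ^ 2 * R ^ 2 * (C * 2 ^ (Y + 3 * k) + R) / β ^ 2)) + 1) ≤
        2 ^ γ →
    ∃ B' : F.Ω → Prop, Sub B' B ∧ Pe F.p B / 1024 ≤ Pe F.p B' ∧
      ∃ (V₁ : Type) (z₁ : PtT F → V₁) (z₁' : LnT F → V₁)
        (Q : V₁ → MvPolynomial (Option (Fin m)) ℝ),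
        LbP F ((range 3).image c) (c 3) 1 J w P B' z₁ z₁' Q ∧ ∀ ω, B' ω → ∀ l, l = 1 ∨ l = 2 →
          coe1 (c l) (Q (z₁' (slam F w ω))) = ka (zk (ptr F J ω)) l := by
  obtain ⟨C₁, C₂, hC₁, hwin⟩ := afk_win D
  obtain ⟨C₃, hC₃, hpcb⟩ := pcb D hD
  obtain ⟨C₄, hslope⟩ := slope
  obtain ⟨C₅, hC₅, hpcb2⟩ := pcb2 D hD
  obtain ⟨c₃, hc₃⟩ := pow_unbounded_of_one_lt C₅ (one_lt_two (α := ℝ))
  obtain ⟨C, hC⟩ : ∃ C : ℝ, C = C₁ + 3 * C₃ + 4 := ⟨_, rfl⟩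
  have hCC₁ : C₁ ≤ C := by rw [hC]; linarith
  have hC1 : 1 ≤ C := by rw [hC]; linarith
  have hC33 : C₃ + 3 ≤ C := by rw [hC]; linarith
  have hC34 : 3 * C₃ + 4 ≤ C := by rw [hC]; linarith
  obtain ⟨C₀, hC₀⟩ : ∃ C₀ : ℕ, C₀ = C₂ + C₄ + c₃ + 1 := ⟨_, rfl⟩
  refine ⟨C, C₀, hC1, ?_⟩
  intro m J F Vk c Dr N M₀ CB a Eb ηm ow η σ lv bb κ z B₀ B g₀ G H W i kt w wt h e W0 k k₀ γ Gm
    g1 g2 p2 Pm X1 X2 Y P I U V Vt U' V' Vt' zk zk' ka R ρB ρ κf β L hc hDr hi hkt hw hwt hh he het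
    heN hgN hwtw hwJ hW0 X hU hV hVt hx2 hgn hoj hfre hB hK hB0 hI hκ0 hκf0 hρB hκB hκfB hρ hR hβ
    hβ1 hL hδ1 hLδ hLI hP
  have hp := F.isLaw
  have hJ0 : (0 : ℝ) ≤ J := Nat.cast_nonneg J
  have hI0 : (1 : ℝ) ≤ I := by exact_mod_cast hI
  have hB₀0 : 0 ≤ Pe F.p B₀ := Pe_nonneg hp _
  have hB₀1 : 0 < Pe F.p B₀ := lt_of_lt_of_le hB0 (Pe_mono hp hB)
  have hηi := W.hη i hi
  have hηk := W.hη kt hkt
  have hev := W.ev i hi
  have hevt := W.ev kt hkt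
  have hevN := W.ev N le_rfl
  rw [← hw] at hev
  rw [← hwt] at hevt
  have hhi : ⌊η i * J⌋₊ ≤ h := by
    rw [hh]
    exact Nat.floor_le_floor (mul_le_mul_of_nonneg_right hηi.2 hJ0)
  have hht : ⌊η kt * J⌋₊ ≤ h := by
    rw [hh]
    exact Nat.floor_le_floor (mul_le_mul_of_nonneg_right hηk.2 hJ0)
  have hRv := relvF_h hev.relb hhi
  have hRt := relvF_h hevt.relb hht
  obtain ⟨κ₁, hκ₁⟩ : ∃ κ₁ : ℝ, κ₁ = ρB / 256 := ⟨_, rfl⟩
  have hκκ₁ : κ ≤ κ₁ := by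
    rw [hκ₁, le_div_iff₀ (by norm_num)]
    have : κ * 256 ≤ 256 * 96 * I * κ := by nlinarith
    linarith
  have hρκ₁ : ρ ≤ κ₁ := by
    rw [hκ₁, le_div_iff₀ (by norm_num)]
    linarith
  have hmass : ∀ {E : F.Ω → Prop}, Pe F.p B / 256 ≤ Pe F.p E → κ₁ * Pe F.p B₀ ≤ Pe F.p E := by
    intro E hE
    refine le_trans ?_ hE
    rw [hκ₁]
    linarith
  have hmassρ : ∀ {E : F.Ω → Prop}, Pe F.p B / 256 ≤ Pe F.p E → ρ * Pe F.p B₀ ≤ Pe F.p E :=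
    fun {E} hE => (mul_le_mul_of_nonneg_right hρκ₁ hB₀0).trans (hmass hE)
  have hDD : 1 ≤ D := hD
  -- the comparison of the labels
  obtain ⟨E₁, s1, m1, f1⟩ := g0Ball hc hD hDr hwJ hev.ball hRv hκκ₁ X.a0.1 hB
    (hmass (by linarith))
  have s1' : Sub E₁ B₀ := fun ω hω => hB ω (s1 ω hω)
  obtain ⟨E₂, s2, m2, f2⟩ := afBall hc hD hDr (i := 1) (by norm_num) hev.ball hev.cls hRv hκκ₁ hU
    X.a1.1 E₁ s1' (hmass (by linarith))
  have s2' : Sub E₂ B₀ := fun ω hω => s1' ω (s2 ω hω)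
  obtain ⟨E₃, s3, m3, f3⟩ := afBall hc hD hDr (i := 2) (by norm_num) hev.ball hev.cls hRv hκκ₁ hV
    X.a2.1 E₂ s2' (hmass (by linarith))
  have s3' : Sub E₃ B₀ := fun ω hω => s2' ω (s3 ω hω)
  obtain ⟨E₄, s4, m4, f4⟩ := afBall hc hD hDr (i := 2) (by norm_num) hevt.ball hevt.cls hRt hκκ₁ hVt
    X.at2 E₃ s3' (hmass (by linarith))
  have s4' : Sub E₄ B₀ := fun ω hω => s3' ω (s4 ω hω)
  obtain ⟨E₅, s5, m5, f5⟩ := hslope hc hD hDr hwtw hwJ hev.ball hRv hκκ₁ (AfP.prec hVt X.P2) hV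
    X.P1 E₄ s4' (hmass (by linarith))
  have s5' : Sub E₅ B₀ := fun ω hω => s4' ω (s5 ω hω)
  -- the own jets
  obtain ⟨E₆, s6, m6, f6⟩ := hoj 1 1 g1 E₅ (by norm_num) (by norm_num) s5'
    (hmassρ (by linarith)) U U' (fun y => (hU.dP y).trans hD) (fun s => (hU.dL s).trans hD) hU.eP
    hU.eL (fun ω hω => hU.cls ω (s5' ω hω)) (fun ω hω => hU.pos ω (s5' ω hω))
  have s6' : Sub E₆ B₀ := fun ω hω => s5' ω (s6 ω hω)
  obtain ⟨E₇, s7, m7, f7⟩ := hoj 2 1 g2 E₆ (by norm_num) (by norm_num) s6'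
    (hmassρ (by linarith)) V V' (fun y => (hV.dP y).trans hD) (fun s => (hV.dL s).trans hD) hV.eP
    hV.eL (fun ω hω => hV.cls ω (s6' ω hω)) (fun ω hω => hV.pos ω (s6' ω hω))
  have s7' : Sub E₇ B₀ := fun ω hω => s6' ω (s7 ω hω)
  obtain ⟨E₈, s8, m8, f8⟩ := hoj 3 2 (g₀ i 3) E₇ (by norm_num) (by norm_num) s7'
    (hmassρ (by linarith)) (fun y => G i y 3) (fun s => H i s 3) (fun y => hev.ball.degG y 3)
    (fun s => hev.ball.degH s 3) (fun y => hev.ball.depG y 3) (fun s => hev.ball.depH s 3)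
    (fun ω hω => hev.cls ω (s7' ω hω) 3 (by norm_num))
    (fun ω hω => hev.ball.pos ω (s7' ω hω) 3 (by norm_num))
  have s8' : Sub E₈ B₀ := fun ω hω => s7' ω (s8 ω hω)
  have hm8 : Pe F.p B / 256 ≤ Pe F.p E₈ := by linarith
  have t7 : Sub E₈ E₇ := s8
  have t6 : Sub E₈ E₆ := fun ω hω => s7 ω (t7 ω hω)
  have t5 : Sub E₈ E₅ := fun ω hω => s6 ω (t6 ω hω)
  have t4 : Sub E₈ E₄ := fun ω hω => s5 ω (t5 ω hω)
  have t3 : Sub E₈ E₃ := fun ω hω => s4 ω (t4 ω hω)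
  have t2 : Sub E₈ E₂ := fun ω hω => s3 ω (t3 ω hω)
  have t1 : Sub E₈ E₁ := fun ω hω => s2 ω (t2 ω hω)
  have t0 : Sub E₈ B := fun ω hω => s1 ω (t1 ω hω)
  have hc3 : Set.InjOn c (Set.Iio 3) := hc.mono (Set.Iio_subset_Iio (by omega))
  have hkk := X.kk
  have hup : ∀ {x : ℝ} {p q r : ℕ}, p ≤ q → x ≤ 2 ^ p / 2 ^ r → x ≤ 2 ^ q / 2 ^ r :=
    fun {x p q r} h1 h2 => h2.trans (div_le_div_of_nonneg_right
      (pow_le_pow_right₀ (by norm_num) h1) (by positivity))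
  have hb1 : ∀ ω, E₈ ω → ∀ b, NBx c (G i (ptr F J ω)) (g₀ i) w (F.t ω) 1 b →
      |eval b (U (ptr F J ω)) - eval b (G i (ptr F J ω) 1)| ≤ 2 ^ k / 2 ^ g1 := fun ω hω b hb =>
    hup (by omega) (f2 ω (t2 ω hω) b hb)
  have hb2 : ∀ ω, E₈ ω → ∀ b, NBx c (G i (ptr F J ω)) (g₀ i) w (F.t ω) 2 b →
      |eval b (V (ptr F J ω)) - eval b (G i (ptr F J ω) 2)| ≤ 2 ^ k / 2 ^ g2 := fun ω hω b hb =>
    hup (by omega) (f3 ω (t3 ω hω) b hb)
  have hpc := fun ω (hω : E₈ ω) => hpcb (m := m) (c := c) (G := G i (ptr F J ω)) (g := g₀ i) (w := w)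
    (x := bt F ω) (U := U (ptr F J ω)) (V := V (ptr F J ω)) (M1 := 2 ^ k / 2 ^ g1)
    (M2 := 2 ^ k / 2 ^ g2) hc (hev.ball.degG (ptr F J ω)) (hev.ball.depG (ptr F J ω))
    (hU.dP _) (hV.dP _) (hU.eP _) (hV.eP _) (by positivity) (by positivity)
    (hb1 ω hω) (hb2 ω hω) (fun l hl => hev.ball.pos ω (s8' ω hω) l (by omega))
  have hpct := fun ω (hω : E₈ ω) => hpcb2 (m := m) (c := c) (G := G kt (ptr F J ω)) (g := g₀ kt)
    (w := wt) (x := bt F ω) (V := Vt (ptr F J ω)) (M2 := 2 ^ (h + 1) / 2 ^ p2) hc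
    (hevt.ball.degG (ptr F J ω)) (hevt.ball.depG (ptr F J ω)) (hVt.dP _) (hVt.eP _)
    (by positivity) (f4 ω (t4 ω hω)) (fun l hl => hevt.ball.pos ω (s8' ω hω) l (by omega))
  obtain ⟨δ, hδ⟩ : ∃ δ : ℝ, δ = C * (2 ^ (k + e + Gm) / 2 ^ J) := ⟨_, rfl⟩
  have hbi := fun ω (hω : E₈ ω) => hev.ball.lip ω (s8' ω hω)
  have hbx3 : ∀ ω, E₈ ω → ∀ l' ≤ 3, NBx c (G i (ptr F J ω)) (g₀ i) w (F.t ω) l' (bt F ω) :=
    fun ω hω l' hl' => by
      refine ⟨?_, fun l hl => hev.ball.pos ω (s8' ω hω) l (by omega)⟩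
      show |F.t ω - F.t ω| ≤ _
      rw [sub_self, abs_zero]
      positivity
  have hbxt : ∀ ω, E₈ ω → ∀ l' ≤ 3, NBx c (G kt (ptr F J ω)) (g₀ kt) wt (F.t ω) l' (bt F ω) :=
    fun ω hω l' hl' => by
      refine ⟨?_, fun l hl => hevt.ball.pos ω (s8' ω hω) l (by omega)⟩
      show |F.t ω - F.t ω| ≤ _
      rw [sub_self, abs_zero]
      positivity
  have hbxN : ∀ ω, E₈ ω → ∀ l' ≤ 3, NBx c (G N (ptr F J ω)) (g₀ N) ⌊ow N * J⌋₊ (F.t ω) l'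
      (bt F ω) := fun ω hω l' hl' => by
    refine ⟨?_, fun l hl => hevN.ball.pos ω (s8' ω hω) l (by omega)⟩
    show |F.t ω - F.t ω| ≤ _
    rw [sub_self, abs_zero]
    positivity
  have hnlp : ∀ {g : ℕ → ℕ} {l l' : ℕ}, l' ≤ 3 → (∀ l ≤ 3, g l ≤ J) → nlp g l l' ≤ J := by
    intro g l l' hl' hg
    unfold nlp
    refine (Nat.sub_le _ _).trans (Finset.sup_le fun j hj => hg j ?_)
    rw [Finset.mem_Icc] at hj
    omega
  have hE2 : ∀ {x : ℝ} {p : ℕ}, p ≤ 2 * J → x ≤ 2 ^ p → x ≤ 2 ^ (2 * J) := fun {x p} h1 h2 =>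
    h2.trans (pow_le_pow_right₀ (by norm_num) h1)
  have heJ := X.eJ
  have hA : AkW F c D w W0 ⌊(Eb + σ i + η i) * J⌋₊ g1 g2 γ k (g₀ i) E₈ (G i) (H i) U V U' V' zk zk'
      ka δ R (C * 2 ^ (Y + 3 * k) + R) (2 ^ (4 * J + 4)) := by
    have hR0 : 0 ≤ R := by linarith
    have hY0 : (0 : ℝ) < 2 ^ (Y + 3 * k) := by positivity
    refine
      { ch := hev.ball.sub s8'
        cl := fun ω hω => hev.cls ω (s8' ω hω)
        u := Pool.NVA91.AfP.sub hU s8'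
        v := Pool.NVA91.AfP.sub hV s8'
        s0 := ⟨by have := X.a0.1; omega, by have := X.a0.2; omega⟩
        s1 := ⟨by have := X.a1.2; omega, by have := X.a1.1; omega⟩
        s2 := ⟨by have := X.a2.2; omega, by have := X.a2.1; omega⟩
        b0 := fun ω hω b hb => hup (by omega) (f1 ω (t1 ω hω) b hb)
        b1 := hb1
        b2 := hb2
        kc := fun ω hω => (hK ω (t0 ω hω)).1
        γ3 := X.γ3
        rnd := fun ω hω o => ?_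
        d1 := fun ω hω j => d1_le (hU.dP _) (hV.dP _) ?_ ?_ j
        v1 := fun ω hω j => ?_
        j2 := fun ω hω => (j2_le hc3 (hU.eP _) (hV.eP _) (hev.ball.depG _ 3) (hU.dP _) (hV.dP _)
          X.γ3 hR0 (f8 ω hω)).trans (by
            have := mul_pos (show (0 : ℝ) < C by linarith) hY0
            linarith)
        own := fun ω hω => ?_ }
    · rw [hδ]
      have a := hpc ω hω
      have a1 := hbi ω hω 1 (by norm_num) (bt F ω) (hbx3 ω hω 1 (by norm_num)) 0 (by norm_num)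
      have a2 := hbi ω hω 2 (by norm_num) (bt F ω) (hbx3 ω hω 2 (by norm_num)) 0 (by norm_num)
      have a3 := hbi ω hω 2 (by norm_num) (bt F ω) (hbx3 ω hω 2 (by norm_num)) 1 (by norm_num)
      have up : ∀ {x : ℝ} {l l' : ℕ}, x ≤ 2 ^ (⌊(Eb + σ i + η i) * J⌋₊ + nlp (g₀ i) l l') →
          x ≤ 2 ^ (e + nlp (g₀ i) l l') := fun {x l l'} h1 => h1.trans
        (pow_le_pow_right₀ (by norm_num) (by omega))
      have key := rnd_le hc hC₃ (F := F) (ω := ω) (U := U) (V := V) (w := w) (g1 := g1)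
        (g2 := g2) (k := k) (e := e) (Gm := Gm) (g := g₀ i) (hU.eP _) (hV.eP _) (hU.dP _)
        (hV.dP _) X.w1 (fun l hl => X.gm l (by omega)) (by have := X.a1.1; omega)
        (by have := X.a2.1; omega) (up a1) (up a2) (up a3) a.1 a.2.1 a.2.2 o
      exact key.trans (mul_le_mul_of_nonneg_right hC34 (by positivity))
    · have := f6 ω (t6 ω hω)
      rwa [pow_one] at this
    · have := f7 ω (t7 ω hω)
      rwa [pow_one] at this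
    · have kE := hK ω (t0 ω hω)
      have gp := gnh_pd (g := g₀ i) hc (fun y l => hev.ball.depG y l)
        (fun y l => hevN.ball.depG y l) ω
      have gn1 := hgn ω (s8' ω hω) 1 (by norm_num) (by norm_num)
      have gn2 := hgn ω (s8' ω hω) 2 (by norm_num) (by norm_num)
      rw [gp.2] at gn1
      rw [gp.1] at gn2
      have cv : ∀ {y : ℝ} {l : ℕ}, |2 ^ g₀ i 3 / 2 ^ g₀ i l * y| ≤ 2 ^ Y →
          |y| ≤ 2 ^ Y * (2 ^ g₀ i l / 2 ^ g₀ i 3) := by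
        intro y l hy
        have hg : (0 : ℝ) < 2 ^ g₀ i 3 / 2 ^ g₀ i l := by positivity
        rw [abs_mul, abs_of_pos hg, mul_comm, ← le_div_iff₀ hg] at hy
        refine hy.trans (le_of_eq ?_)
        field_simp
      obtain ⟨ν, hν⟩ : ∃ ν, ν = eval (bt F ω) (pderiv (some (c 1)) (G kt (ptr F J ω) 2)) :=
        ⟨_, rfl⟩
      obtain ⟨Ξ, hΞ⟩ : ∃ Ξ : ℝ, Ξ = 2 ^ (h + C₄ + g₀ i 1) / 2 ^ Pm +
        C₅ * (2 ^ (h + 1) / 2 ^ p2) * 2 ^ g₀ kt 1 := ⟨_, rfl⟩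
      have p1 : |pc (V (ptr F J ω)) (some (c 1)) - ν| ≤ Ξ := by
        have b1 := f5 ω (t5 ω hω)
        have b2 := hpct ω hω
        rw [← hν] at b2
        have e1 : pc (V (ptr F J ω)) (some (c 1)) - ν =
            (pc (V (ptr F J ω)) (some (c 1)) - pc (Vt (ptr F J ω)) (some (c 1))) +
              (pc (Vt (ptr F J ω)) (some (c 1)) - ν) := by ring
        rw [e1, hΞ]
        exact (abs_add_le _ _).trans (add_le_add b1 b2)
      have pΞ : 2 ^ γ * Ξ ≤ 2 ^ (g1 + X2 + k) := by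
        rw [hΞ, mul_add]
        have q1 : (2 : ℝ) ^ γ * (2 ^ (h + C₄ + g₀ i 1) / 2 ^ Pm) ≤ 2 ^ (g1 + X2 + k) / 2 := by
          rw [← mul_div_assoc, div_le_div_iff₀ (by positivity) (by norm_num), ← pow_add, ← pow_succ,
            ← pow_add]
          exact pow_le_pow_right₀ (by norm_num) (by have := X.xs; omega)
        have q2 : (2 : ℝ) ^ γ * (C₅ * (2 ^ (h + 1) / 2 ^ p2) * 2 ^ g₀ kt 1) ≤
            2 ^ (g1 + X2 + k) / 2 := by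
          have e1 : (2 : ℝ) ^ γ * (C₅ * (2 ^ (h + 1) / 2 ^ p2) * 2 ^ g₀ kt 1) =
              C₅ * (2 ^ (γ + (h + 1) + g₀ kt 1) / 2 ^ p2) := by
            rw [pow_add, pow_add]
            field_simp
            ring
          rw [e1]
          refine (mul_le_mul_of_nonneg_right hc₃.le (by positivity)).trans ?_
          rw [← mul_div_assoc, div_le_div_iff₀ (by positivity) (by norm_num), ← pow_add, ← pow_succ,
            ← pow_add]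
          exact pow_le_pow_right₀ (by norm_num) (by have := X.xt; omega)
        linarith
      have key := v1_le hC₃ hc3 (w := w) (g1 := g1) (g2 := g2) (γ := γ) (k := k) (Y := Y)
        (X1 := X1) (X2 := X2) (g := g₀ i) (τ := F.T1 w ω) (U := U (ptr F J ω))
        (V := V (ptr F J ω)) (G3 := G i (ptr F J ω) 3) (a := ka (zk (ptr F J ω)))
        (b := bt F ω) (hU.eP _) (hV.eP _) (hev.ball.depG _ 3) (hU.dP _) (hV.dP _)
        (by have := X.a1.2; omega) (by have := X.a2.2; omega) X.γ3 X.x1 X.x2 pΞ (cv gn2) (cv gn1)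
        (hpc ω hω).2.1 p1 kE.2.1 (by rw [hν]; exact kE.2.2) j
      refine (show _ ≤ (C₃ + 3) * (2 : ℝ) ^ (Y + 3 * k) from key).trans ?_
      have := mul_le_mul_of_nonneg_right hC33 hY0.le
      linarith
    · have kE := hK ω (t0 ω hω)
      have l1 := hevN.ball.lip ω (s8' ω hω) 3 (by norm_num) (bt F ω) (hbxN ω hω 3 le_rfl) 1
        (by norm_num)
      have l2 := hevN.ball.lip ω (s8' ω hω) 3 (by norm_num) (bt F ω) (hbxN ω hω 3 le_rfl) 2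
        (by norm_num)
      have l3 := hevt.ball.lip ω (s8' ω hω) 2 (by norm_num) (bt F ω) (hbxt ω hω 2 (by norm_num)) 1
        (by norm_num)
      have n1 : nlp (g₀ N) 1 3 ≤ J := hnlp le_rfl hgN
      have n2 : nlp (g₀ N) 2 3 ≤ J := hnlp le_rfl hgN
      have n3 : nlp (g₀ kt) 1 2 ≤ J := hnlp (by norm_num) X.gtJ
      have key := own_le hc3 (F := F) (zk := zk) (ka := ka) (γ := γ) (g1 := g1) (g2 := g2)
        (w := w) (U := U) (V := V) (G := G i) (ω := ω) (hU.eP _) (hV.eP _)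
        (hev.ball.depG _ 3) (fun i => hx2 ω i) (hev.ball.pos ω (s8' ω hω) 3 (by norm_num))
        (hE2 (by omega) l1) (hE2 (by omega) l2) (hE2 (by omega) l3) kE.2.1 kE.2.2
      refine key.trans (pow_le_pow_right₀ (by norm_num) ?_)
      have g1' := X.γ3
      have g2' := X.gm 3 le_rfl
      have g3' := X.gJ
      omega
  have hE80 : 0 < Pe F.p E₈ := lt_of_lt_of_le (by linarith) hm8
  have hfre8 : Fre F.p E₈ (ptr F J) (fun ω => F.d ω (c 0)) β 2 (1 / (16 * I)) := by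
    by_cases hρ0 : 0 < ρB
    · have h1 := fre_sub hκf0 hfre s8' (K := 256 / ρB) (by
        rw [div_mul_eq_mul_div, le_div_iff₀ hρ0]
        linarith)
      refine Pool.NVA91.fre_mono hp h1 le_rfl le_rfl ?_
      rw [div_mul_eq_mul_div, div_le_div_iff₀ hρ0 (by positivity)]
      linarith
    · have h2 : κf = 0 := by
        refine le_antisymm ?_ hκf0
        by_contra hcon
        push Not at hcon
        have : 0 < 256 * 16 * (I : ℝ) * κf := by positivity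
        linarith
      have h3 := hfre
      intro E hE hPE
      exact hfre E (fun ω hω => s8' ω (hE ω hω)) (by rw [h2, zero_mul]; exact Pe_nonneg hp _)
  have hC0 : 0 < C := by linarith
  have hY0 : (0 : ℝ) < 2 ^ (Y + 3 * k) := by positivity
  have hMM : 1 ≤ C * 2 ^ (Y + 3 * k) + R := by
    have := mul_pos hC0 hY0
    linarith
  obtain ⟨M, hM⟩ : ∃ M : ℝ, M = C * 2 ^ (Y + 3 * k) + R := ⟨_, rfl⟩
  rw [← hM] at hA hMM hP
  obtain ⟨Hh, hHh⟩ : ∃ Hh : ℝ, Hh = 2 ^ (h + C₂ * (k + 1)) := ⟨_, rfl⟩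
  obtain ⟨Hg, hHg⟩ : ∃ Hg : ℝ, Hg = 2 ^ (h + C₀ * (k + 1)) := ⟨_, rfl⟩
  have hHh1 : 1 ≤ Hh := by rw [hHh]; exact one_le_pow₀ (by norm_num)
  have hHH : Hh ≤ Hg := by
    rw [hHh, hHg]
    refine pow_le_pow_right₀ (by norm_num) ?_
    have : C₂ * (k + 1) ≤ C₀ * (k + 1) := Nat.mul_le_mul_right _ (by omega)
    omega
  rw [← hHg] at hLδ hP
  rw [← hδ] at hLδ hδ1
  have hb2 : 0 < β ^ 2 := by positivity
  have hb21 : β ^ 2 ≤ 1 := pow_le_one₀ hβ.le hβ1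
  have hR2 : (1 : ℝ) ≤ R ^ 2 := one_le_pow₀ hR
  have hδ0 : 0 ≤ δ := by rw [hδ]; positivity
  obtain ⟨B', q1, q2, q3⟩ := hwin (B₀ := B₀) (B := E₈) (κ := κ) (I := I) (L := L) (β := β)
    (P := P) hc hD hDr hwJ hW0 hev.ball hRv s8' hE80 hI (by
      have h1 : 256 * 96 * I * κ * Pe F.p B₀ ≤ Pe F.p B :=
        (mul_le_mul_of_nonneg_right hκB hB₀0).trans hρB
      rw [div_mul_eq_mul_div, one_mul, le_div_iff₀ (by positivity)]
      nlinarith) hA hfre8 hδ0 hδ1 (by linarith) hR (by positivity) hβ hβ1 hL (by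
      rw [← hHh]
      refine le_trans ?_ hLδ
      refine mul_le_mul_of_nonneg_right (mul_le_mul_of_nonneg_right
        (mul_le_mul hCC₁ hHH (by positivity) hC0.le) (by linarith)) hδ0) (by
      rw [← hHh]
      have a1 : C₁ * (Hh * 2 ^ (4 * J + 4)) ≤ C₁ * (Hh * L ^ I) := by
        refine mul_le_mul_of_nonneg_left (mul_le_mul_of_nonneg_left hLI (by linarith))
          (by linarith)
      refine a1.trans ?_
      have a2 : C₁ * Hh ≤ C₁ * Hh ^ 2 * R ^ 2 * M / β ^ 2 := by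
        rw [le_div_iff₀ hb2]
        have b1 : C₁ * Hh * β ^ 2 ≤ C₁ * Hh * 1 :=
          mul_le_mul_of_nonneg_left hb21 (by positivity)
        have b2 : C₁ * Hh * 1 ≤ C₁ * Hh * (Hh * R ^ 2 * M) := by
          refine mul_le_mul_of_nonneg_left ?_ (by positivity)
          exact one_le_mul_of_one_le_of_one_le (one_le_mul_of_one_le_of_one_le hHh1 hR2) hMM
        calc C₁ * Hh * β ^ 2 ≤ C₁ * Hh * (Hh * R ^ 2 * M) := b1.trans b2
          _ = _ := by ring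
      have hLI0 : 0 ≤ L ^ I := by positivity
      calc C₁ * (Hh * L ^ I) = L ^ I * (C₁ * Hh) := by ring
        _ ≤ _ := mul_le_mul_of_nonneg_left a2 hLI0) (by
      rw [← hHh]
      refine le_trans (mul_le_mul_of_nonneg_left (add_le_add ?_ le_rfl) (by positivity)) hP
      refine mul_le_mul (pow_le_pow_right₀ (by norm_num) (Nat.mul_le_mul_right _ (by omega))) ?_
        (by positivity) (by positivity)
      have a1 : C₁ * Hh ^ 2 * R ^ 2 * M / β ^ 2 ≤ C * Hg ^ 2 * R ^ 2 * M / β ^ 2 := by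
        refine div_le_div_of_nonneg_right ?_ hb2.le
        have b1 : Hh ^ 2 ≤ Hg ^ 2 := pow_le_pow_left₀ (by linarith) hHH 2
        have b2 : C₁ * Hh ^ 2 ≤ C * Hg ^ 2 := mul_le_mul hCC₁ b1 (by positivity) hC0.le
        exact mul_le_mul_of_nonneg_right (mul_le_mul_of_nonneg_right b2 (by positivity))
          (by linarith)
      exact mul_le_mul hCC₁ a1 (by positivity) hC0.le)
  refine ⟨B', fun ω hω => t0 ω (q1 ω hω), ?_, q3⟩
  linarith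

end Pool.AFK25
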