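import Pool.Agent.H25.AFK.Push

/-!
# The affine label with given slopes at one window

`kl`: the linear part with given slopes. `qn`: the normalised polynomial. `afk_lab`: from the nearly
affine polynomial of the natural coordinates to a closed label of degree at most one whose slopes
are the given ones.
-/

set_option autoImplicit false

namespace Pool.AFK25

open Finset Real MvPolynomial
open Pool.Agent.H49.Ent Pool.Agent.H32.Dense Pool.STK Pool.KA Pool.KSAT Pool.K2S Pool.PB Pool.S6C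
open Pool.GEN hiding dv
open Pool.CHT Pool.ISO Pool.D2R Pool.NV24
open Pool.NVA91 (pc_pd aff_ev pc_dep pc_sub sum_pc1 sum_pc2 nco_pt grow_box)
open Pool.LA91 (jet lp eval_alp jet_sub)
open Pool.GRD (LbP)
open Pool.FVL91 (coe1)

variable {m J : ℕ}

/-- The linear part with the slopes `a 1`, `a 2`. -/
noncomputable def kl (c : ℕ → Fin m) (a : ℕ → ℝ) : MvPolynomial (Option (Fin m)) ℝ :=
  C (a 1) * X (some (c 1)) + C (a 2) * X (some (c 2))

/-- **The normalised polynomial.** -/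
noncomputable def qn (c : ℕ → Fin m) (w g1 g2 γ : ℕ) (τ : ℝ)
    (U V G3 : MvPolynomial (Option (Fin m)) ℝ) (a : ℕ → ℝ) : P4 :=
  C (2 ^ γ) * psh c w g1 g2 τ U V (G3 - kl c a)

theorem kl_dep (c : ℕ → Fin m) (a : ℕ → ℝ) : DepC c 3 (kl c a) := by
  intro b b' _ h1
  unfold kl
  simp only [map_add, map_mul, eval_C, eval_X, h1 1 (by norm_num), h1 2 (by norm_num)]

theorem kl_deg (c : ℕ → Fin m) (a : ℕ → ℝ) : (kl c a).totalDegree ≤ 1 := by
  unfold kl
  refine (totalDegree_add _ _).trans (max_le ?_ ?_)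
  · refine (totalDegree_mul _ _).trans ?_
    rw [totalDegree_C, totalDegree_X]
  · refine (totalDegree_mul _ _).trans ?_
    rw [totalDegree_C, totalDegree_X]

theorem kl_ev (c : ℕ → Fin m) (a : ℕ → ℝ) (b : Option (Fin m) → ℝ) :
    eval b (kl c a) = a 1 * b (some (c 1)) + a 2 * b (some (c 2)) := by
  unfold kl
  simp only [map_add, map_mul, eval_C, eval_X]

theorem dep_sub' {c : ℕ → Fin m} {i : ℕ} {P Q : MvPolynomial (Option (Fin m)) ℝ}
    (h : DepC c i P) (h' : DepC c i Q) : DepC c i (P - Q) := by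
  intro b b' q1 q2
  rw [map_sub, map_sub, h b b' q1 q2, h' b b' q1 q2]

theorem deg_qn {c : ℕ → Fin m} {w g1 g2 γ : ℕ} {τ : ℝ} {U V G3 : MvPolynomial (Option (Fin m)) ℝ}
    {a : ℕ → ℝ} {D : ℕ} (hD : 1 ≤ D) (hU : U.totalDegree ≤ 1) (hV : V.totalDegree ≤ 1)
    (hG : G3.totalDegree ≤ D) : (qn c w g1 g2 γ τ U V G3 a).totalDegree ≤ D := by
  unfold qn
  refine (totalDegree_mul _ _).trans ?_
  rw [totalDegree_C, zero_add]
  exact deg_psh hU hV ((totalDegree_sub _ _).trans (max_le hG ((kl_deg c a).trans hD)))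

/-- The values. -/
theorem qn_ev {c : ℕ → Fin m} (hc : Set.InjOn c (Set.Iio 3)) (w g1 g2 γ : ℕ) (τ : ℝ)
    {U V G3 : MvPolynomial (Option (Fin m)) ℝ} (hU : DepC c 1 U) (hV : DepC c 2 V)
    (hQ : DepC c 3 G3) (a : ℕ → ℝ) (b : Option (Fin m) → ℝ) :
    eval (nco c w g1 g2 τ U V b) (qn c w g1 g2 γ τ U V G3 a) =
      2 ^ γ * (eval b G3 - (a 1 * b (some (c 1)) + a 2 * b (some (c 2)))) := by
  unfold qn
  rw [map_mul, eval_C, eval_psh hc w g1 g2 τ hU hV (dep_sub' hQ (kl_dep c a)), map_sub, kl_ev]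

/-- The slopes of the linear part. -/
theorem kl_pd {c : ℕ → Fin m} (hc : Set.InjOn c (Set.Iio 3)) (a : ℕ → ℝ)
    (b : Option (Fin m) → ℝ) : eval b (pderiv (some (c 1)) (kl c a)) = a 1 ∧
      eval b (pderiv (some (c 2)) (kl c a)) = a 2 := by
  classical
  obtain ⟨n01, n02, n12⟩ := nes hc
  unfold kl
  constructor
  · rw [map_add, pderiv_C_mul, pderiv_C_mul, pderiv_X, pderiv_X, Pi.single_eq_same,
      Pi.single_eq_of_ne (by simpa using n12.symm)]
    simp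
  · rw [map_add, pderiv_C_mul, pderiv_C_mul, pderiv_X, pderiv_X, Pi.single_eq_same,
      Pi.single_eq_of_ne (by simpa using n12)]
    simp

/-- The vertical derivative in the direction of the place `2`. -/
theorem qn_v1 {c : ℕ → Fin m} (hc : Set.InjOn c (Set.Iio 3)) (w g1 g2 γ : ℕ) (τ : ℝ)
    {U V G3 : MvPolynomial (Option (Fin m)) ℝ} (hU : DepC c 1 U) (hV : DepC c 2 V)
    (hQ : DepC c 3 G3) (dU : U.totalDegree ≤ 1) (dV : V.totalDegree ≤ 1) (a : ℕ → ℝ)
    (b : Option (Fin m) → ℝ) :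
    eval (nco c w g1 g2 τ U V b) (pderiv (vt 1) (qn c w g1 g2 γ τ U V G3 a)) =
      2 ^ γ / 2 ^ g2 * (eval b (pderiv (some (c 2)) G3) - a 2) := by
  have h1 := pd_psh1 hc w g1 g2 τ hU hV (dep_sub' hQ (kl_dep c a)) dU dV b
  rw [map_sub, map_sub, (kl_pd hc a b).2] at h1
  unfold qn
  rw [pderiv_C_mul, map_mul, eval_C, ← h1]
  field_simp

/-- The vertical derivative in the direction of the place `1`. -/
theorem qn_v0 {c : ℕ → Fin m} (hc : Set.InjOn c (Set.Iio 3)) (w g1 g2 γ : ℕ) (τ : ℝ)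
    {U V G3 : MvPolynomial (Option (Fin m)) ℝ} (hU : DepC c 1 U) (hV : DepC c 2 V)
    (hQ : DepC c 3 G3) (dU : U.totalDegree ≤ 1) (dV : V.totalDegree ≤ 1) (a : ℕ → ℝ)
    (b : Option (Fin m) → ℝ) :
    eval (nco c w g1 g2 τ U V b) (pderiv (vt 0) (qn c w g1 g2 γ τ U V G3 a)) =
      2 ^ γ / 2 ^ g1 * ((eval b (pderiv (some (c 1)) G3) - a 1) +
        pc V (some (c 1)) * (eval b (pderiv (some (c 2)) G3) - a 2)) := by
  have h1 := pd_psh0 hc w g1 g2 τ hU hV (dep_sub' hQ (kl_dep c a)) dU dV b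
  rw [map_sub, map_sub, map_sub, map_sub, (kl_pd hc a b).1, (kl_pd hc a b).2] at h1
  unfold qn
  rw [pderiv_C_mul, map_mul, eval_C, ← h1]
  field_simp

/-- The second jet of a polynomial of degree one. -/
theorem jet_two_lin {H : MvPolynomial (Option (Fin m)) ℝ} (h : H.totalDegree ≤ 1)
    (b v : Option (Fin m) → ℝ) : jet 2 H b v = 0 := by
  unfold jet
  have h1 := Pool.LA91.natDegree_alp h b v
  rw [Polynomial.iterate_derivative_eq_zero (by omega), Polynomial.eval_zero]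

/-- **The second derivative along the own line.** -/
theorem qn_j2 {c : ℕ → Fin m} (hc : Set.InjOn c (Set.Iio 3)) (w g1 g2 γ : ℕ) (τ : ℝ)
    {U V G3 : MvPolynomial (Option (Fin m)) ℝ} (hU : DepC c 1 U) (hV : DepC c 2 V)
    (hQ : DepC c 3 G3) (dU : U.totalDegree ≤ 1) (dV : V.totalDegree ≤ 1) (a : ℕ → ℝ)
    (b v : Option (Fin m) → ℝ) (hv : v none = 1) :
    eval (nco c w g1 g2 τ U V b)
      (dv (vec 1 (v (some (c 0))) (Ddn w g1 g2 c U V v))
        (dv (vec 1 (v (some (c 0))) (Ddn w g1 g2 c U V v)) (qn c w g1 g2 γ τ U V G3 a))) =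
      2 ^ γ / (2 ^ w) ^ 2 * jet 2 G3 b v := by
  have h1 := jet_nat hc w g1 g2 τ hU hV (dep_sub' hQ (kl_dep c a)) dU dV 2 b v hv
  rw [jet_sub, jet_two_lin (kl_deg c a), sub_zero] at h1
  unfold qn
  rw [dv_Cmul, dv_Cmul, map_mul, eval_C, h1]
  simp only [Function.iterate_succ, Function.iterate_zero, Function.comp, id]
  field_simp

/-- **The label**: the affine polynomial of a sample. -/
noncomputable def qaf (c : ℕ → Fin m) (w γ : ℕ) (τ : ℝ) (a : ℕ → ℝ) (x : V4) (q : P4) :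
    MvPolynomial (Option (Fin m)) ℝ :=
  kl c a + C (1 / 2 ^ γ) * (C (eval x q) +
    C (eval x (pderiv none q)) * (C (2 ^ w) * X none - C τ - C (x none)) +
    C (eval x (pderiv (some 0) q)) * (C (2 ^ w) * X (some (c 0)) - C (x (some 0))))

theorem qaf_ev (c : ℕ → Fin m) (w g1 g2 γ : ℕ) (τ : ℝ) (U V : MvPolynomial (Option (Fin m)) ℝ)
    (a : ℕ → ℝ) (x : V4) (q : P4) (b : Option (Fin m) → ℝ) :
    eval b (qaf c w γ τ a x q) = a 1 * b (some (c 1)) + a 2 * b (some (c 2)) +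
      1 / 2 ^ γ * (eval x q +
        (nco c w g1 g2 τ U V b none - x none) * eval x (pderiv none q) +
        (nco c w g1 g2 τ U V b (some 0) - x (some 0)) * eval x (pderiv (some 0) q)) := by
  unfold qaf
  simp only [map_add, map_mul, map_sub, eval_C, eval_X, kl_ev]
  show _ = a 1 * b (some (c 1)) + a 2 * b (some (c 2)) +
      1 / 2 ^ γ * (eval x q +
        ((2 ^ w * b none - τ) - x none) * eval x (pderiv none q) +
        (2 ^ w * b (some (c 0)) - x (some 0)) * eval x (pderiv (some 0) q))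
  ring

theorem qaf_deg (c : ℕ → Fin m) (w γ : ℕ) (τ : ℝ) (a : ℕ → ℝ) (x : V4) (q : P4) :
    (qaf c w γ τ a x q).totalDegree ≤ 1 := by
  have k1 : ∀ (α β : ℝ) (o : Option (Fin m)) (E : MvPolynomial (Option (Fin m)) ℝ),
      E.totalDegree ≤ 1 → (C α * (C β * X o - E) : MvPolynomial (Option (Fin m)) ℝ).totalDegree ≤
        1 := by
    intro α β o E hE
    refine (totalDegree_mul _ _).trans ?_
    rw [totalDegree_C, zero_add]
    refine (totalDegree_sub _ _).trans (max_le ((totalDegree_mul _ _).trans ?_) hE)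
    rw [totalDegree_C, totalDegree_X]
  unfold qaf
  refine (totalDegree_add _ _).trans (max_le (kl_deg c a) ?_)
  refine (totalDegree_mul _ _).trans ?_
  rw [totalDegree_C, zero_add]
  refine (totalDegree_add _ _).trans (max_le ((totalDegree_add _ _).trans (max_le ?_ ?_)) ?_)
  · rw [totalDegree_C]
    omega
  · rw [sub_sub, ← C_add]
    exact k1 _ _ _ _ (by rw [totalDegree_C]; omega)
  · exact k1 _ _ _ _ (by rw [totalDegree_C]; omega)

theorem qaf_dep (c : ℕ → Fin m) (w γ : ℕ) (τ : ℝ) (a : ℕ → ℝ) (x : V4) (q : P4) :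
    DepC c 3 (qaf c w γ τ a x q) := by
  intro b b' h0 h1
  rw [qaf_ev c w 0 0 γ τ 0 0, qaf_ev c w 0 0 γ τ 0 0, h1 1 (by norm_num), h1 2 (by norm_num)]
  have e0 : nco c w 0 0 τ 0 0 b none = nco c w 0 0 τ 0 0 b' none := by
    show 2 ^ w * b none - τ = 2 ^ w * b' none - τ
    rw [h0]
  have e1 : nco c w 0 0 τ 0 0 b (some 0) = nco c w 0 0 τ 0 0 b' (some 0) := by
    show 2 ^ w * b (some (c 0)) = 2 ^ w * b' (some (c 0))
    rw [h1 0 (by norm_num)]
  rw [e0, e1]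

/-- **The slopes of the label.** -/
theorem qaf_coe {c : ℕ → Fin m} (hc : Set.InjOn c (Set.Iio 3)) (w γ : ℕ) (τ : ℝ) (a : ℕ → ℝ)
    (x : V4) (q : P4) {l : ℕ} (hl : l = 1 ∨ l = 2) :
    coe1 (c l) (qaf c w γ τ a x q) = a l := by
  classical
  obtain ⟨n01, n02, n12⟩ := nes hc
  have hd := qaf_deg c w γ τ a x q
  have hcl : c 0 ≠ c l := by
    rcases hl with rfl | rfl
    · exact n01
    · exact n02
  have h1 := Pool.FVL91.eval_upd hd (c l) (x := fun _ => 0)
    (x' := Pi.single (some (c l)) 1) (fun p hp => by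
      rw [Pi.single_eq_of_ne hp])
  rw [Pi.single_eq_same, sub_zero, mul_one] at h1
  rw [← h1, qaf_ev c w 0 0 γ τ 0 0, qaf_ev c w 0 0 γ τ 0 0]
  have e0 : nco c w 0 0 τ 0 0 (Pi.single (some (c l)) 1 : Option (Fin m) → ℝ) none =
      nco c w 0 0 τ 0 0 (fun _ : Option (Fin m) => 0) none := by
    show 2 ^ w * (Pi.single (some (c l)) 1 : Option (Fin m) → ℝ) none - τ = 2 ^ w * 0 - τ
    rw [Pi.single_eq_of_ne (by simp)]
  have e1 : nco c w 0 0 τ 0 0 (Pi.single (some (c l)) 1 : Option (Fin m) → ℝ) (some 0) =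
      nco c w 0 0 τ 0 0 (fun _ : Option (Fin m) => 0) (some 0) := by
    show 2 ^ w * (Pi.single (some (c l)) 1 : Option (Fin m) → ℝ) (some (c 0)) = 2 ^ w * 0
    rw [Pi.single_eq_of_ne (by simpa using hcl)]
  rw [e0, e1]
  rcases hl with rfl | rfl
  · rw [Pi.single_eq_same, Pi.single_eq_of_ne (by simpa using n12.symm)]
    ring
  · rw [Pi.single_eq_same, Pi.single_eq_of_ne (by simpa using n12)]
    ring

/-- **One window**: the closed labels of degree at most one with the given slopes. -/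
theorem afk_lab (D : ℕ) : ∃ C₀ : ℕ, ∀ {m J : ℕ} {F : Fam m J} {c : ℕ → Fin m}
    {w W0 e g1 g2 γ k P : ℕ} {g : ℕ → ℕ} {B : F.Ω → Prop}
    {G : PtT F → ℕ → MvPolynomial (Option (Fin m)) ℝ}
    {H : LnT F → ℕ → MvPolynomial (Option (Fin m)) ℝ}
    {U V : PtT F → MvPolynomial (Option (Fin m)) ℝ} {U' V' : LnT F → MvPolynomial (Option (Fin m)) ℝ}
    {Vk : Type} {zk : PtT F → Vk} {zk' : LnT F → Vk} {ka : Vk → ℕ → ℝ} {M : ℝ},
    Set.InjOn c (Set.Iio 4) → 1 ≤ D → w ≤ J → W0 ≤ w →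
    ChOK F c 4 (fun _ => D) w w e g B G H → Clsd F 4 w B G H →
    AfP F c 1 w g1 B U U' → AfP F c 2 w g2 B V V' →
    (∀ ω, B ω → ∀ b : Option (Fin m) → ℝ, |b none - F.t ω| ≤ 1 / 2 ^ w →
      |F.x ω (c 0) - eval b (G (ptr F J ω) 0)| ≤ 2 ^ k / 2 ^ w) →
    (∀ ω, B ω → ∀ o, |FPn c w g1 g2 U V (ptr F J ω) o -
      nco c w g1 g2 (F.T1 w ω) (U (ptr F J ω)) (V (ptr F J ω)) (bt F ω) o| ≤ 1) →
    (∀ ω, B ω → zk (ptr F J ω) = zk' (slam F W0 ω)) → γ ≤ g 3 → 0 ≤ M →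
    (∀ ω, B ω → ∀ b : V4, (∀ o, |b o - FPn c w g1 g2 U V (ptr F J ω) o| ≤ 1) →
      |eval b (qn c w g1 g2 γ (F.T1 w ω) (U (ptr F J ω)) (V (ptr F J ω)) (G (ptr F J ω) 3)
          (ka (zk (ptr F J ω)))) -
        (eval (FPn c w g1 g2 U V (ptr F J ω)) (qn c w g1 g2 γ (F.T1 w ω) (U (ptr F J ω))
            (V (ptr F J ω)) (G (ptr F J ω) 3) (ka (zk (ptr F J ω)))) +
          (b none - FPn c w g1 g2 U V (ptr F J ω) none) * eval (FPn c w g1 g2 U V (ptr F J ω))
            (pderiv none (qn c w g1 g2 γ (F.T1 w ω) (U (ptr F J ω)) (V (ptr F J ω))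
              (G (ptr F J ω) 3) (ka (zk (ptr F J ω))))) +
          (b (some 0) - FPn c w g1 g2 U V (ptr F J ω) (some 0)) *
            eval (FPn c w g1 g2 U V (ptr F J ω)) (pderiv (some 0) (qn c w g1 g2 γ (F.T1 w ω)
              (U (ptr F J ω)) (V (ptr F J ω)) (G (ptr F J ω) 3) (ka (zk (ptr F J ω))))))| ≤ M) →
    (2 : ℝ) ^ P * (2 ^ (C₀ * (k + 1)) * M + 1) ≤ 2 ^ γ →
    ∃ (V₁ : Type) (z : PtT F → V₁) (z' : LnT F → V₁)
      (R : V₁ → MvPolynomial (Option (Fin m)) ℝ),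
      LbP F ((range 3).image c) (c 3) 1 J w P B z z' R ∧ ∀ ω, B ω → ∀ l, l = 1 ∨ l = 2 →
        coe1 (c l) (R (z' (slam F w ω))) = ka (zk (ptr F J ω)) l := by
  classical
  obtain ⟨c', hgr⟩ := grow_box D
  refine ⟨c' + 2 * D, ?_⟩
  intro m J F c w W0 e g1 g2 γ k P g B G H U V U' V' Vk zk zk' ka M hc hD hw hW0 hch hcl hU hV hG0
    hFP hzk hγ hM hq hP
  have hc3 : Set.InjOn c (Set.Iio 3) := hc.mono (Set.Iio_subset_Iio (by omega))
  obtain ⟨z, hz⟩ : ∃ z : PtT F → (ℕ → MvPolynomial (Option (Fin m)) ℝ) ×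
      (MvPolynomial (Option (Fin m)) ℝ × MvPolynomial (Option (Fin m)) ℝ) × Vk × ℕ, z = fun y =>
    (fun l => if l ≤ 3 then G y l else 0, (U y, V y), zk y, y.2.1 / 2 ^ (J - w)) := ⟨_, rfl⟩
  obtain ⟨z', hz'⟩ : ∃ z' : LnT F → (ℕ → MvPolynomial (Option (Fin m)) ℝ) ×
      (MvPolynomial (Option (Fin m)) ℝ × MvPolynomial (Option (Fin m)) ℝ) × Vk × ℕ, z' = fun s =>
    (fun l => if l ≤ 3 then H s l else 0, (U' s, V' s),
      zk' (s.1, s.2.1, s.2.2 / 2 ^ (w - W0)), s.2.2) := ⟨_, rfl⟩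
  have hcls : ∀ ω, B ω → z (ptr F J ω) = z' (slam F w ω) := by
    intro ω hω
    rw [hz, hz']
    simp only [Prod.mk.injEq]
    refine ⟨?_, ⟨hU.cls ω hω, hV.cls ω hω⟩, ?_, rfl⟩
    · funext l
      by_cases hl : l ≤ 3
      · rw [if_pos hl, if_pos hl]
        exact hcl ω hω l (by omega)
      · rw [if_neg hl, if_neg hl]
    · rw [hzk ω hω, slam_coarse F hW0 hw ω]
  obtain ⟨Qa, hQa⟩ : ∃ Qa : F.Ω → MvPolynomial (Option (Fin m)) ℝ, Qa = fun ω =>
      qaf c w γ (F.T1 w ω) (ka (zk (ptr F J ω))) (FPn c w g1 g2 U V (ptr F J ω))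
        (qn c w g1 g2 γ (F.T1 w ω) (U (ptr F J ω)) (V (ptr F J ω)) (G (ptr F J ω) 3)
          (ka (zk (ptr F J ω)))) := ⟨_, rfl⟩
  obtain ⟨R, hR⟩ : ∃ R : (ℕ → MvPolynomial (Option (Fin m)) ℝ) ×
      (MvPolynomial (Option (Fin m)) ℝ × MvPolynomial (Option (Fin m)) ℝ) × Vk × ℕ →
      MvPolynomial (Option (Fin m)) ℝ, R = fun v =>
        if h : ∃ ω, B ω ∧ z (ptr F J ω) = v then Qa h.choose else 0 := ⟨_, rfl⟩
  have hRe : ∀ ω, B ω → ∃ ω₀, B ω₀ ∧ z (ptr F J ω₀) = z (ptr F J ω) ∧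
      R (z' (slam F w ω)) = Qa ω₀ := by
    intro ω hω
    have hex : ∃ ω', B ω' ∧ z (ptr F J ω') = z' (slam F w ω) := ⟨ω, hω, hcls ω hω⟩
    refine ⟨hex.choose, hex.choose_spec.1, by rw [hcls ω hω]; exact hex.choose_spec.2, ?_⟩
    rw [hR]
    simp only [dif_pos hex]
  refine ⟨_, z, z', R, ⟨fun v => ?_, fun v b b' hn hb => ?_, hcls, fun ω hω => ?_⟩,
    fun ω hω l hl => ?_⟩
  · rw [hR]
    by_cases h : ∃ ω, B ω ∧ z (ptr F J ω) = v
    · simp only [dif_pos h, hQa]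
      exact qaf_deg _ _ _ _ _ _ _
    · simp only [dif_neg h]
      rw [totalDegree_zero]
      exact Nat.zero_le _
  · rw [hR]
    by_cases h : ∃ ω, B ω ∧ z (ptr F J ω) = v
    · simp only [dif_pos h, hQa]
      exact qaf_dep _ _ _ _ _ _ _ b b' hn fun l hl => hb _ (by
        rw [Finset.mem_image]
        exact ⟨l, Finset.mem_range.2 hl, rfl⟩)
    · simp only [dif_neg h, map_zero]
  · obtain ⟨ω₀, h0, h1, h2⟩ := hRe ω hω
    rw [h2, hQa]
    rw [hz] at h1
    simp only [Prod.mk.injEq] at h1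
    obtain ⟨hGe, ⟨hUe, hVe⟩, hke, hTe⟩ := h1
    have hG : ∀ l ≤ 3, G (ptr F J ω₀) l = G (ptr F J ω) l := fun l hl => by
      have h4 := congrFun hGe l
      simp only [if_pos hl] at h4
      exact h4
    have hT1 : F.T1 w ω₀ = F.T1 w ω := hTe
    -- the time
    have hTb : ∀ υ : F.Ω, 0 ≤ 2 ^ w * F.t υ - F.T1 w υ ∧ 2 ^ w * F.t υ - F.T1 w υ ≤ 1 := by
      intro υ
      have hpos : 0 < 2 ^ (J - w) := by positivity
      have e1 := Nat.div_add_mod (F.T υ) (2 ^ (J - w))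
      have e3 := Nat.mod_lt (F.T υ) hpos
      have e4 : F.T1 w υ = F.T υ / 2 ^ (J - w) := rfl
      have e5 : F.t υ = (F.T υ : ℝ) / 2 ^ J := rfl
      have e8 : (2 : ℝ) ^ J = 2 ^ (J - w) * 2 ^ w := by
        rw [← pow_add]
        congr 1
        omega
      have e9 : 2 ^ w * F.t υ = (F.T υ : ℝ) / 2 ^ (J - w) := by
        rw [e5, e8]
        field_simp
      have hp2 : (0 : ℝ) < 2 ^ (J - w) := by positivity
      rw [e9, e4]
      have e10 : (F.T υ : ℝ) = 2 ^ (J - w) * ((F.T υ / 2 ^ (J - w) : ℕ) : ℝ) +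
          ((F.T υ % 2 ^ (J - w) : ℕ) : ℝ) := by exact_mod_cast e1.symm
      have e11 : ((F.T υ % 2 ^ (J - w) : ℕ) : ℝ) ≤ 2 ^ (J - w) := by exact_mod_cast e3.le
      have e12 : (0 : ℝ) ≤ ((F.T υ % 2 ^ (J - w) : ℕ) : ℝ) := Nat.cast_nonneg _
      have e13 : (F.T υ : ℝ) / 2 ^ (J - w) - ((F.T υ / 2 ^ (J - w) : ℕ) : ℝ) =
          ((F.T υ % 2 ^ (J - w) : ℕ) : ℝ) / 2 ^ (J - w) := by
        rw [e10]
        field_simp
        ring
      rw [e13]
      exact ⟨by positivity, by rw [div_le_one hp2]; exact e11⟩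
    have hTd : |F.t ω₀ - F.t ω| ≤ 1 / 2 ^ w := by
      have a1 := hTb ω
      have a2 := hTb ω₀
      rw [hT1] at a2
      have e1 : F.t ω₀ - F.t ω = ((2 ^ w * F.t ω₀ - F.T1 w ω) - (2 ^ w * F.t ω - F.T1 w ω)) /
          2 ^ w := by
        field_simp
        ring
      rw [e1, abs_div, abs_of_pos (show (0 : ℝ) < 2 ^ w by positivity)]
      refine div_le_div_of_nonneg_right ?_ (by positivity)
      rw [abs_le]
      constructor <;> linarith [a1.1, a1.2, a2.1, a2.2]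
    -- the natural position of `ω` relative to the sample `ω₀`
    obtain ⟨ξ, hξ⟩ : ∃ ξ, ξ = nco c w g1 g2 (F.T1 w ω) (U (ptr F J ω)) (V (ptr F J ω))
      (bt F ω) := ⟨_, rfl⟩
    obtain ⟨ξ₀, hξ₀⟩ : ∃ ξ₀, ξ₀ = nco c w g1 g2 (F.T1 w ω₀) (U (ptr F J ω₀)) (V (ptr F J ω₀))
      (bt F ω₀) := ⟨_, rfl⟩
    have hk1 : (1 : ℝ) ≤ 2 ^ k := one_le_pow₀ (by norm_num)
    have hk4 : (2 : ℝ) ^ (k + 2) = 4 * 2 ^ k := by
      rw [pow_add]
      ring
    have hvt : ∀ (υ : F.Ω), B υ → ∀ j, |nco c w g1 g2 (F.T1 w υ) (U (ptr F J υ))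
        (V (ptr F J υ)) (bt F υ) (vt j)| ≤ 1 := by
      intro υ hυ j
      fin_cases j
      · show |2 ^ g1 * (bt F υ (some (c 1)) - eval (bt F υ) (U (ptr F J υ)))| ≤ 1
        have := hU.pos υ hυ
        rw [abs_mul, abs_of_pos (show (0 : ℝ) < 2 ^ g1 by positivity)]
        calc (2 : ℝ) ^ g1 * |F.x υ (c 1) - eval (bt F υ) (U (ptr F J υ))| ≤
              2 ^ g1 * (1 / 2 ^ g1) := mul_le_mul_of_nonneg_left this (by positivity)
          _ = 1 := by field_simp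
      · show |2 ^ g2 * (bt F υ (some (c 2)) - eval (bt F υ) (V (ptr F J υ)))| ≤ 1
        have := hV.pos υ hυ
        rw [abs_mul, abs_of_pos (show (0 : ℝ) < 2 ^ g2 by positivity)]
        calc (2 : ℝ) ^ g2 * |F.x υ (c 2) - eval (bt F υ) (V (ptr F J υ))| ≤
              2 ^ g2 * (1 / 2 ^ g2) := mul_le_mul_of_nonneg_left this (by positivity)
          _ = 1 := by field_simp
    have hdist : ∀ o, |ξ o - FPn c w g1 g2 U V (ptr F J ω₀) o| ≤ 2 ^ (k + 2) := by
      have hfp : ∀ o, |FPn c w g1 g2 U V (ptr F J ω₀) o - ξ₀ o| ≤ 1 := fun o => by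
        rw [hξ₀]
        exact hFP ω₀ h0 o
      have main : ∀ o, |ξ o - ξ₀ o| ≤ 2 * 2 ^ k := by
        refine cases4 ?_ ?_ fun j => ?_
        · rw [hξ, hξ₀]
          show |(2 ^ w * F.t ω - F.T1 w ω) - (2 ^ w * F.t ω₀ - F.T1 w ω₀)| ≤ _
          have a1 := hTb ω
          have a2 := hTb ω₀
          rw [abs_le]
          constructor <;> linarith [a1.1, a1.2, a2.1, a2.2]
        · rw [hξ, hξ₀]
          show |2 ^ w * F.x ω (c 0) - 2 ^ w * F.x ω₀ (c 0)| ≤ _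
          have a1 := hG0 ω hω (bt F ω) (by
            show |F.t ω - F.t ω| ≤ _
            rw [sub_self, abs_zero]
            positivity)
          have a2 := hG0 ω₀ h0 (bt F ω) (by rw [abs_sub_comm]; exact hTd)
          rw [hG 0 (by norm_num)] at a2
          rw [← mul_sub, abs_mul, abs_of_pos (show (0 : ℝ) < 2 ^ w by positivity)]
          have a3 : |F.x ω (c 0) - F.x ω₀ (c 0)| ≤ 2 * (2 ^ k / 2 ^ w) := by
            have e1 : F.x ω (c 0) - F.x ω₀ (c 0) =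
                (F.x ω (c 0) - eval (bt F ω) (G (ptr F J ω) 0)) -
                  (F.x ω₀ (c 0) - eval (bt F ω) (G (ptr F J ω) 0)) := by ring
            rw [e1]
            exact (abs_sub _ _).trans (by linarith)
          calc (2 : ℝ) ^ w * |F.x ω (c 0) - F.x ω₀ (c 0)| ≤ 2 ^ w * (2 * (2 ^ k / 2 ^ w)) :=
                mul_le_mul_of_nonneg_left a3 (by positivity)
            _ = 2 * 2 ^ k := by field_simp
        · have a1 := hvt ω hω j
          have a2 := hvt ω₀ h0 j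
          rw [← hξ] at a1
          rw [← hξ₀] at a2
          exact (abs_sub _ _).trans (by linarith)
      intro o
      have b1 := main o
      have b2 := hfp o
      rw [hk4]
      rw [abs_le] at b1 b2 ⊢
      constructor <;> linarith [b1.1, b1.2, b2.1, b2.2]
    -- the difference on the large box
    obtain ⟨q, hqd⟩ : ∃ q, q = qn c w g1 g2 γ (F.T1 w ω₀) (U (ptr F J ω₀)) (V (ptr F J ω₀))
      (G (ptr F J ω₀) 3) (ka (zk (ptr F J ω₀))) := ⟨_, rfl⟩
    obtain ⟨x, hx⟩ : ∃ x, x = FPn c w g1 g2 U V (ptr F J ω₀) := ⟨_, rfl⟩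
    have hq0 := hq ω₀ h0
    rw [← hqd, ← hx] at hq0
    obtain ⟨A, hA⟩ : ∃ A : P4, A = C (eval x q) + C (eval x (pderiv none q)) * (X none - C (x none))
      + C (eval x (pderiv (some 0) q)) * (X (some 0) - C (x (some 0))) := ⟨_, rfl⟩
    have hAev : ∀ b : V4, eval b A = eval x q + (b none - x none) * eval x (pderiv none q) +
        (b (some 0) - x (some 0)) * eval x (pderiv (some 0) q) := by
      intro b
      rw [hA]
      simp only [map_add, map_mul, map_sub, eval_C, eval_X]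
      ring
    have hAd : A.totalDegree ≤ 1 := by
      have k1 : ∀ (α β : ℝ) (o : Option (Fin 3)), (C α * (X o - C β) : P4).totalDegree ≤ 1 := by
        intro α β o
        refine (totalDegree_mul _ _).trans ?_
        rw [totalDegree_C, zero_add]
        refine (totalDegree_sub _ _).trans (max_le ?_ ?_)
        · rw [totalDegree_X]
        · rw [totalDegree_C]
          omega
      rw [hA]
      refine (totalDegree_add _ _).trans (max_le ((totalDegree_add _ _).trans (max_le ?_ (k1 _ _ _)))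
        (k1 _ _ _))
      rw [totalDegree_C]
      omega
    have hbig := hgr (k + 2) (q - A) x ξ M ((totalDegree_sub _ _).trans (max_le (by
        rw [hqd]
        exact deg_qn hD (hU.dP _) (hV.dP _) (hch.degG _ 3)) (hAd.trans hD)))
      (fun b hb => by
        rw [map_sub, hAev]
        exact hq0 b hb) (fun o => by rw [hx]; exact hdist o)
    rw [map_sub, hAev] at hbig
    -- the position
    have hqξ : eval ξ q = 2 ^ γ * (eval (bt F ω) (G (ptr F J ω) 3) -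
        (ka (zk (ptr F J ω)) 1 * F.x ω (c 1) + ka (zk (ptr F J ω)) 2 * F.x ω (c 2))) := by
      rw [hqd, hξ, hT1, hUe, hVe, hG 3 le_rfl, hke]
      exact qn_ev hc3 w g1 g2 γ _ (hU.eP _) (hV.eP _) (hch.depG _ 3) _ _
    have hpos := hch.pos ω hω 3 (by norm_num)
    have hev : eval (bt F ω) (qaf c w γ (F.T1 w ω₀) (ka (zk (ptr F J ω₀))) x q) =
        ka (zk (ptr F J ω)) 1 * F.x ω (c 1) + ka (zk (ptr F J ω)) 2 * F.x ω (c 2) +
        1 / 2 ^ γ * (eval x q + (ξ none - x none) * eval x (pderiv none q) +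
          (ξ (some 0) - x (some 0)) * eval x (pderiv (some 0) q)) := by
      rw [qaf_ev c w g1 g2 γ _ (U (ptr F J ω₀)) (V (ptr F J ω₀)), hke, hT1, hUe, hVe, ← hξ]
      rfl
    have hγ0 : (0 : ℝ) < 2 ^ γ := by positivity
    have hfin : |F.x ω (c 3) - eval (bt F ω) (qaf c w γ (F.T1 w ω₀) (ka (zk (ptr F J ω₀))) x q)| ≤
        (2 ^ (c' + (k + 2) * D) * M + 1) / 2 ^ γ := by
      rw [hev]
      have e1 : F.x ω (c 3) - (ka (zk (ptr F J ω)) 1 * F.x ω (c 1) +
          ka (zk (ptr F J ω)) 2 * F.x ω (c 2) +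
          1 / 2 ^ γ * (eval x q + (ξ none - x none) * eval x (pderiv none q) +
            (ξ (some 0) - x (some 0)) * eval x (pderiv (some 0) q))) =
          (F.x ω (c 3) - eval (bt F ω) (G (ptr F J ω) 3)) +
          1 / 2 ^ γ * (eval ξ q - (eval x q + (ξ none - x none) * eval x (pderiv none q) +
            (ξ (some 0) - x (some 0)) * eval x (pderiv (some 0) q))) := by
        rw [hqξ]
        field_simp
        ring
      rw [e1]
      refine (abs_add_le _ _).trans ?_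
      have e2 : (1 : ℝ) / 2 ^ g 3 ≤ 1 / 2 ^ γ :=
        one_div_le_one_div_of_le hγ0 (pow_le_pow_right₀ (by norm_num) hγ)
      have e3 : |1 / 2 ^ γ * (eval ξ q - (eval x q + (ξ none - x none) * eval x (pderiv none q) +
            (ξ (some 0) - x (some 0)) * eval x (pderiv (some 0) q)))| ≤
          1 / 2 ^ γ * (2 ^ (c' + (k + 2) * D) * M) := by
        rw [abs_mul, abs_of_pos (show (0 : ℝ) < 1 / 2 ^ γ by positivity)]
        exact mul_le_mul_of_nonneg_left hbig (by positivity)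
      have e4 : (2 ^ (c' + (k + 2) * D) * M + 1) / 2 ^ γ =
          1 / 2 ^ γ + 1 / 2 ^ γ * (2 ^ (c' + (k + 2) * D) * M) := by ring
      rw [e4]
      exact add_le_add (hpos.trans e2) e3
    have hgoal : F.x ω (c 3) - eval (bt F ω) (qaf c w γ (F.T1 w ω₀) (ka (zk (ptr F J ω₀)))
        (FPn c w g1 g2 U V (ptr F J ω₀)) (qn c w g1 g2 γ (F.T1 w ω₀) (U (ptr F J ω₀))
          (V (ptr F J ω₀)) (G (ptr F J ω₀) 3) (ka (zk (ptr F J ω₀))))) =
        F.x ω (c 3) - eval (bt F ω) (qaf c w γ (F.T1 w ω₀) (ka (zk (ptr F J ω₀))) x q) := by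
      rw [hx, hqd]
    rw [hgoal]
    refine hfin.trans ?_
    rw [div_le_div_iff₀ hγ0 (by positivity), one_mul]
    refine le_trans ?_ hP
    rw [mul_comm]
    refine mul_le_mul_of_nonneg_left ?_ (by positivity)
    have e5 : (2 : ℝ) ^ (c' + (k + 2) * D) ≤ 2 ^ ((c' + 2 * D) * (k + 1)) :=
      pow_le_pow_right₀ (by norm_num) (by nlinarith [Nat.zero_le (c' * k), Nat.zero_le (D * k)])
    nlinarith [mul_le_mul_of_nonneg_right e5 hM]
  · obtain ⟨ω₀, h0, h1, h2⟩ := hRe ω hω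
    rw [h2, hQa]
    rw [hz] at h1
    simp only [Prod.mk.injEq] at h1
    obtain ⟨-, -, hke, -⟩ := h1
    show coe1 (c l) (qaf _ _ _ _ _ _ _) = _
    rw [qaf_coe hc3 w γ _ _ _ _ hl, hke]

end Pool.AFK25
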